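import Pool.Agent.Helper7.MK.Defs

/-!
# MK-01: characters of matrix representations

STATEMENTS ONLY (module MK-01, to be proved). Everything is routine.

* `isChar_matrix`: compose `R` with `Matrix.toLinAlgEquiv'` (a representation on `n → ℂ`), the trace
  is `Matrix.trace_toLin'` / `LinearMap.trace_toLin'` (name in Mathlib: `Matrix.trace_toLin'_eq` or
  `LinearMap.trace_eq_matrix_trace`).
* `IsChar.exists_matrix`: `LinearMap.toMatrixAlgEquiv (Module.finBasis ℂ V)`.
* `IsChar.mul`: tensor product of representations (`Representation.tprod`, `char_tprod`) or the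
  Kronecker product of matrices (`Matrix.trace_kronecker`, `Matrix.mul_kronecker_mul`) via
  `exists_matrix` and `isChar_matrix` (transport to an arbitrary index type is allowed).
* `IsChar.inv`: dual representation (`Representation.dual`, `char_dual`) or the matrices
  `(R g⁻¹)ᵀ`.
* `IsChar.nat`: `INC.B_char`.
* `IsChar.comp_ne_zero`: `B ρ.character σ.character = finrank (IntertwiningMap σ ρ)` (see the proof
  of `INC.B_char`); a nonzero intertwiner of `G`-representations is a nonzero intertwiner of their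
  restrictions along `j`, so the second `finrank` is positive.
* `IsChar.irr`: `INC.irr_of_norm_one`.
-/

namespace Pool.Agent.Helper7.MK

open Pool.Agent.Helper42.INC

variable {G H : Type} [Group G] [Group H]

lemma isChar_matrix {n : Type} [Fintype n] [DecidableEq n] (R : G →* Matrix n n ℂ) :
    IsChar (fun g => (R g).trace) := by
  refine ⟨n → ℂ, inferInstance, inferInstance, inferInstance,
    (Matrix.toLinAlgEquiv' (R := ℂ) (n := n)).toMulEquiv.toMonoidHom.comp R, ?_⟩
  funext g
  unfold Representation.character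
  exact (Matrix.trace_toLin'_eq (R g)).symm

lemma IsChar.exists_matrix {f : G → ℂ} (h : IsChar f) :
    ∃ (d : ℕ) (R : G →* Matrix (Fin d) (Fin d) ℂ), ∀ g, f g = (R g).trace := by
  obtain ⟨V, _, _, _, ρ, rfl⟩ := h
  refine ⟨Module.finrank ℂ V,
    (LinearMap.toMatrixAlgEquiv (Module.finBasis ℂ V)).toMulEquiv.toMonoidHom.comp ρ, fun g => ?_⟩
  unfold Representation.character
  exact LinearMap.trace_eq_matrix_trace ℂ (Module.finBasis ℂ V) (ρ g)

lemma IsChar.mul {f g : G → ℂ} (hf : IsChar f) (hg : IsChar g) : IsChar (fun x => f x * g x) := by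
  obtain ⟨V, _, _, _, ρ, rfl⟩ := hf
  obtain ⟨W, _, _, _, σ, rfl⟩ := hg
  refine ⟨TensorProduct ℂ V W, inferInstance, inferInstance, inferInstance,
    Representation.tprod ρ σ, ?_⟩
  rw [Representation.char_tensor]
  rfl

lemma IsChar.inv {f : G → ℂ} (hf : IsChar f) : IsChar (fun x => f x⁻¹) := by
  obtain ⟨V, _, _, _, ρ, rfl⟩ := hf
  refine ⟨Module.Dual ℂ V, inferInstance, inferInstance, inferInstance, ρ.dual, ?_⟩
  funext x
  rw [Representation.char_dual]

lemma IsChar.comp {f : G → ℂ} (hf : IsChar f) (π : H →* G) : IsChar (fun x => f (π x)) := by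
  obtain ⟨V, _, _, _, ρ, rfl⟩ := hf
  exact ⟨V, inferInstance, inferInstance, inferInstance, ρ.comp π, rfl⟩

lemma IsChar.of_irr {f : G → ℂ} (hf : f ∈ Irr G) : IsChar f := by
  obtain ⟨V, _, _, _, ρ, _, rfl⟩ := hf
  exact ⟨V, inferInstance, inferInstance, inferInstance, ρ, rfl⟩

lemma IsChar.isClass [Finite G] {f : G → ℂ} (hf : IsChar f) : IsClass f := by
  obtain ⟨V, _, _, _, ρ, rfl⟩ := hf
  exact char_isClass ρ

lemma IsChar.nat [Finite G] {f g : G → ℂ} (hf : IsChar f) (hg : IsChar g) :
    ∃ n : ℕ, B f g = n := by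
  obtain ⟨V, _, _, _, ρ, rfl⟩ := hf
  obtain ⟨W, _, _, _, σ, rfl⟩ := hg
  exact B_char ρ σ

lemma IsChar.comp_ne_zero [Finite G] [Finite H] {f g : G → ℂ} (hf : IsChar f) (hg : IsChar g)
    (j : H →* G) (h : B f g ≠ 0) : B (fun x => f (j x)) (fun x => g (j x)) ≠ 0 := by
  have := Fintype.ofFinite G
  have := Fintype.ofFinite H
  obtain ⟨V, _, _, _, ρ, rfl⟩ := hf
  obtain ⟨W, _, _, _, σ, rfl⟩ := hg
  rw [B_eq, Representation.card_inv_mul_sum_char_mul_char_eq_finrank] at h
  have h1 : Module.finrank ℂ (Representation.IntertwiningMap σ ρ) ≠ 0 := by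
    intro h0
    rw [h0] at h
    exact h Nat.cast_zero
  have h2 : Nontrivial (Representation.IntertwiningMap σ ρ) :=
    Module.nontrivial_of_finrank_pos (Nat.pos_of_ne_zero h1)
  obtain ⟨T, hT⟩ := exists_ne (0 : Representation.IntertwiningMap σ ρ)
  let T' : Representation.IntertwiningMap (σ.comp j) (ρ.comp j) :=
    ⟨T.toLinearMap, fun x => T.isIntertwining' (j x)⟩
  have hT' : T' ≠ 0 := by
    intro h0
    apply hT
    apply Representation.IntertwiningMap.ext
    exact congrArg (fun S : Representation.IntertwiningMap (σ.comp j) (ρ.comp j) =>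
      S.toLinearMap) h0
  have h3 : Nontrivial (Representation.IntertwiningMap (σ.comp j) (ρ.comp j)) := ⟨T', 0, hT'⟩
  have h4 : B (fun x => ρ.character (j x)) (fun x => σ.character (j x)) =
      (Module.finrank ℂ (Representation.IntertwiningMap (σ.comp j) (ρ.comp j)) : ℂ) := by
    rw [← Representation.card_inv_mul_sum_char_mul_char_eq_finrank, B_eq]
    rfl
  rw [h4, Nat.cast_ne_zero]
  exact Module.finrank_pos.ne'

lemma IsChar.irr [Finite G] {f : G → ℂ} (hf : IsChar f) (h : B f f = 1) : f ∈ Irr G :=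
  irr_of_norm_one f hf.isClass (fun _ hχ => hf.nat (IsChar.of_irr hχ)) h

end Pool.Agent.Helper7.MK
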