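import Pool.Agent.Helper7.MK.CompDefs

/-!
# MK-24: a minimal noncentral subgroup normalized by `K`

* `exists_min`: among the subgroups `S ≤ K` of `G` with `cj k S = S` for all `k ∈ K` and
  `¬ S ≤ center G` choose one of smallest cardinality. `K` itself is one of them: `cj_normal`, and if
  `K ≤ center G` then `⁅K, K⁆ = ⊥` (`Subgroup.commutator_eq_bot_iff_le_centralizer` or directly), so
  `K = ⊥`. A subgroup `S' ≤ S`, `S' ≠ S` has smaller cardinality, so it is central.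
* `gen_of_min`: `N = ⨆ g, cj g S` is normal (`cj h N = N`: conjugation permutes the generators,
  `cj_mul`), contained in `K` (`cj g S ≤ cj g K = K`); if `N ≠ K` then `N ≤ center G` by `hmin`, but
  `S = cj 1 S ≤ N`.
-/

namespace Pool.Agent.Helper7.MK

variable {G : Type} [Group G] [Finite G]

lemma exists_min (K : Subgroup G) [K.Normal] (hperf : ⁅K, K⁆ = K) (hne : K ≠ ⊥) :
    ∃ S : Subgroup G, S ≤ K ∧ (∀ k ∈ K, cj k S = S) ∧ ¬ S ≤ Subgroup.center G ∧
      ∀ S' : Subgroup G, S' ≤ S → S' ≠ S → (∀ k ∈ K, cj k S' = S') →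
        S' ≤ Subgroup.center G := by
  let P : Subgroup G → Prop := fun S => S ≤ K ∧ (∀ k ∈ K, cj k S = S) ∧
    ¬ S ≤ Subgroup.center G
  have hK : P K := by
    refine ⟨le_rfl, fun k _ => cj_normal k K, fun hc => hne ?_⟩
    rw [← hperf, Subgroup.commutator_eq_bot_iff_le_centralizer]
    exact hc.trans (Subgroup.center_le_centralizer _)
  obtain ⟨S, hS⟩ := exists_minimal_of_wellFoundedLT P ⟨K, hK⟩
  refine ⟨S, hS.prop.1, hS.prop.2.1, hS.prop.2.2, ?_⟩
  intro S' h1 h2 h3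
  by_contra h4
  exact h2 (le_antisymm h1 (hS.le_of_le ⟨h1.trans hS.prop.1, h3, h4⟩ h1))

lemma gen_of_min (K : Subgroup G) [K.Normal]
    (hmin : ∀ N : Subgroup G, N.Normal → N ≤ K → N ≠ K → N ≤ Subgroup.center G)
    (S : Subgroup G) (hSK : S ≤ K) (hnc : ¬ S ≤ Subgroup.center G) :
    ⨆ g : G, cj g S = K := by
  have h1 : ∀ h : G, cj h (⨆ g : G, cj g S) ≤ ⨆ g : G, cj g S := by
    intro h
    change Subgroup.map (MulAut.conj h).toMonoidHom (⨆ g : G, cj g S) ≤ _
    rw [Subgroup.map_iSup]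
    refine iSup_le fun g => ?_
    change cj h (cj g S) ≤ _
    rw [← cj_mul]
    exact le_iSup (fun g => cj g S) (h * g)
  have h2 : (⨆ g : G, cj g S).Normal :=
    ⟨fun n hn g => h1 g ⟨n, hn, rfl⟩⟩
  have h3 : ⨆ g : G, cj g S ≤ K :=
    iSup_le fun g => (cj_mono g hSK).trans (cj_normal g K).le
  by_contra hne
  apply hnc
  have h4 := hmin _ h2 h3 hne
  have h5 : cj 1 S ≤ ⨆ g : G, cj g S := le_iSup (fun g => cj g S) 1
  rw [cj_one] at h5
  exact h5.trans h4

end Pool.Agent.Helper7.MK
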