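import Pool.Agent.Helper7.MK.CompDefs

/-!
# MK-25: the minimal subgroup is perfect

Proof. `D = ⁅S, S⁆ ≤ S` satisfies `cj k D = D` for `k ∈ K` (`Subgroup.map_commutator`). If `D ≠ S`
then `D ≤ center G` by `hS`, so `S` is solvable (its derived subgroup is central, hence abelian).
Solvability passes to joins of two subgroups normalizing each other: if `A, B ≤ G` are solvable and
`cj a B = B` for all `a ∈ A` then `A ⊔ B` is solvable (`B` is normal in `A ⊔ B` and the quotient is a
homomorphic image of `A`; `solvable_of_ker_le_range`, or with `Subgroup.normal_mul` and the second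
isomorphism theorem `QuotientGroup.quotientInfEquivProdNormalQuotient`). All conjugates `cj g S` are
solvable, contained in `K` (normal) and normalized by `K` (`cj k (cj g S) = cj g (cj (g⁻¹ k g) S)`), so by
induction over finite sets of conjugates their join `K` (`hgen`) is solvable; but `⁅K, K⁆ = K ≠ ⊥`
contradicts solvability (the derived series of `K` is constant; e.g. `IsSolvable` of `↥K` and
`commutator ↥K = ⊤`).
-/

namespace Pool.Agent.Helper7.MK

variable {G : Type} [Group G] [Finite G]

omit [Finite G] in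
lemma le_norm_iff (A B : Subgroup G) (h : ∀ a ∈ A, cj a B = B) :
    A ≤ Subgroup.normalizer (B : Set G) := by
  intro a ha
  rw [Subgroup.mem_normalizer_iff]
  intro x
  have h1 := h a⁻¹ (A.inv_mem ha)
  have h2 : x ∈ B ↔ x ∈ cj a⁻¹ B := by rw [h1]
  rw [mem_cj, inv_inv] at h2
  exact h2

lemma solvable_sup (A B : Subgroup G) (hA : IsSolvable A) (hB : IsSolvable B)
    (h : ∀ a ∈ A, cj a B = B) : IsSolvable (A ⊔ B : Subgroup G) := by
  have hA' : Group.IsSolvable A := hA
  have hB' : Group.IsSolvable B := hB
  have hn : (A ⊔ B) ≤ Subgroup.normalizer (B : Set G) :=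
    sup_le (le_norm_iff A B h) Subgroup.le_normalizer
  have hBn : (B.subgroupOf (A ⊔ B)).Normal :=
    (Subgroup.normal_subgroupOf_iff_le_normalizer le_sup_right).2 hn
  let f : B →* (A ⊔ B : Subgroup G) := Subgroup.inclusion le_sup_right
  let g : (A ⊔ B : Subgroup G) →* (A ⊔ B : Subgroup G) ⧸ (B.subgroupOf (A ⊔ B)) :=
    QuotientGroup.mk' _
  let e : A →* (A ⊔ B : Subgroup G) ⧸ (B.subgroupOf (A ⊔ B)) :=
    g.comp (Subgroup.inclusion le_sup_left)
  have hsurj : Function.Surjective e := by
    intro q
    obtain ⟨x, rfl⟩ := QuotientGroup.mk'_surjective _ q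
    have hx : x ∈ ((A.subgroupOf (A ⊔ B) ⊔ B.subgroupOf (A ⊔ B) : Subgroup _) : Set _) := by
      rw [← Subgroup.subgroupOf_sup le_sup_left le_sup_right]
      simp
    rw [Subgroup.mul_normal] at hx
    obtain ⟨a, ha, b, hb, hab⟩ := hx
    refine ⟨⟨a.1, ha⟩, ?_⟩
    change QuotientGroup.mk' _ _ = QuotientGroup.mk' _ _
    rw [QuotientGroup.mk'_apply, QuotientGroup.mk'_apply, QuotientGroup.eq]
    have h1 : (Subgroup.inclusion le_sup_left (⟨a.1, ha⟩ : A) : (A ⊔ B : Subgroup G)) = a := rfl
    rw [h1, ← hab]
    change a⁻¹ * (a * b) ∈ _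
    rw [inv_mul_cancel_left]
    exact hb
  have hq : Group.IsSolvable ((A ⊔ B : Subgroup G) ⧸ (B.subgroupOf (A ⊔ B))) :=
    Group.isSolvable_of_surjective hsurj
  refine Group.isSolvable_of_ker_le_range f g ?_
  intro x hx
  rw [QuotientGroup.ker_mk'] at hx
  exact ⟨⟨x.1, hx⟩, rfl⟩

omit [Finite G] in
lemma cj_commutator (g : G) (S T : Subgroup G) : cj g ⁅S, T⁆ = ⁅cj g S, cj g T⁆ :=
  Subgroup.map_commutator S T _

omit [Finite G] in
lemma cj_sup (g : G) (S T : Subgroup G) : cj g (S ⊔ T) = cj g S ⊔ cj g T :=
  Subgroup.map_sup S T _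

omit [Finite G] in
lemma solvable_cj (g : G) (S : Subgroup G) (hS : IsSolvable S) : IsSolvable (cj g S) := by
  have hS' : Group.IsSolvable S := hS
  have := Group.isSolvable_of_surjective
    (MonoidHom.subgroupMap_surjective (MulAut.conj g).toMonoidHom S)
  exact this

lemma perf_of_min (K : Subgroup G) [K.Normal] (hperf : ⁅K, K⁆ = K) (hne : K ≠ ⊥)
    (S : Subgroup G) (hSK : S ≤ K) (hn : ∀ k ∈ K, cj k S = S) (hgen : ⨆ g : G, cj g S = K)
    (hS : ∀ S' : Subgroup G, S' ≤ S → S' ≠ S → (∀ k ∈ K, cj k S' = S') →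
        S' ≤ Subgroup.center G) : ⁅S, S⁆ = S := by
  by_contra hcon
  have hle : ⁅S, S⁆ ≤ S := Subgroup.commutator_le_self S
  have hcen : ⁅S, S⁆ ≤ Subgroup.center G := by
    refine hS _ hle hcon ?_
    intro k hk
    rw [cj_commutator, hn k hk]
  have hmap : (commutator S).map S.subtype = ⁅S, S⁆ := by
    rw [commutator_def, Subgroup.map_commutator]
    rw [← MonoidHom.range_eq_map, Subgroup.range_subtype]
  have hcs : Group.IsSolvable (commutator S) := by
    apply Group.isSolvable_of_comm
    intro a b
    have ha : ((a : S) : G) ∈ Subgroup.center G := by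
      apply hcen
      rw [← hmap]
      exact ⟨a.1, a.2, rfl⟩
    apply Subtype.ext
    apply Subtype.ext
    exact ((Subgroup.mem_center_iff.1 ha) ((b : S) : G)).symm
  have hSsolv : Group.IsSolvable S := by
    refine Group.isSolvable_of_ker_le_range (commutator S).subtype (Abelianization.of (G := S)) ?_
    rw [Abelianization.ker_of, Subgroup.range_subtype]
  have hfin := Fintype.ofFinite G
  classical
  have key : ∀ F : Finset G, Group.IsSolvable (F.sup (fun g => cj g S) : Subgroup G) ∧
      (F.sup (fun g => cj g S) : Subgroup G) ≤ K := by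
    intro F
    induction F using Finset.induction_on with
    | empty =>
      rw [Finset.sup_empty]
      refine ⟨?_, bot_le⟩
      infer_instance
    | insert g F hg ih =>
      rw [Finset.sup_insert]
      have hgK : cj g S ≤ K := by
        have := cj_mono g hSK
        rwa [cj_normal g K] at this
      refine ⟨?_, sup_le hgK ih.2⟩
      rw [sup_comm]
      refine solvable_sup _ _ ih.1 (solvable_cj g S hSsolv) ?_
      intro a ha
      have haK := ih.2 ha
      have h1 : g⁻¹ * a * g ∈ K := by
        have := (inferInstance : K.Normal).conj_mem a haK g⁻¹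
        simpa using this
      have h2 : a * g = g * (g⁻¹ * a * g) := by group
      rw [← cj_mul, h2, cj_mul, hn _ h1]
  have hK : Group.IsSolvable K := by
    have := (key Finset.univ).1
    rwa [Finset.sup_univ_eq_iSup, hgen] at this
  have hnt : Nontrivial K := (Subgroup.nontrivial_iff_ne_bot K).2 hne
  have hlt := Group.IsSolvable.commutator_lt_top_of_nontrivial K
  have hmapK : (commutator K).map K.subtype = ⁅K, K⁆ := by
    rw [commutator_def, Subgroup.map_commutator]
    rw [← MonoidHom.range_eq_map, Subgroup.range_subtype]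
  apply hlt.ne
  apply Subgroup.map_injective K.subtype_injective
  rw [hmapK, hperf, ← MonoidHom.range_eq_map, Subgroup.range_subtype]

end Pool.Agent.Helper7.MK
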