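import Pool.Agent.Helper7.MK.CompDefs

/-!
# MK-26: different conjugates commute

Proof. Let `R = cj g S ≠ S`. `R ≤ K` and `cj k R = R` for `k ∈ K` (`K` is normal). `R ⊓ S` is
normalized by `K` and different from `S` (if `S ≤ R` then `S = R`, same cardinality), so
`R ⊓ S ≤ center G` by `hS`. `⁅R, S⁆ ≤ R ⊓ S` (elements of `R` normalize `S` and conversely:
`Subgroup.commutator_le`). So `⁅⁅R, S⁆, S⁆ = ⊥` and `⁅⁅S, R⁆, S⁆ = ⊥` (`Subgroup.commutator_comm`), and the
three subgroups lemma `Subgroup.commutator_commutator_eq_bot_of_rotate` gives `⁅⁅S, S⁆, R⁆ = ⊥`, so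
`⁅S, R⁆ = ⊥` by `hperf`. Hence elements commute (`Subgroup.commutator_eq_bot_iff_le_centralizer`).
-/

namespace Pool.Agent.Helper7.MK

variable {G : Type} [Group G] [Finite G]

lemma comm_of_min (K : Subgroup G) [K.Normal] (S : Subgroup G) (hSK : S ≤ K)
    (hn : ∀ k ∈ K, cj k S = S) (hperf : ⁅S, S⁆ = S)
    (hS : ∀ S' : Subgroup G, S' ≤ S → S' ≠ S → (∀ k ∈ K, cj k S' = S') →
        S' ≤ Subgroup.center G) (g : G) (hg : cj g S ≠ S) (x : G) (hx : x ∈ cj g S) (y : G)
    (hy : y ∈ S) : x * y = y * x := by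
  have hRK : cj g S ≤ K := by
    have h := cj_mono g hSK
    rwa [cj_normal g K] at h
  have hRn : ∀ k ∈ K, cj k (cj g S) = cj g S := by
    intro k hk
    have h1 : g⁻¹ * k * g ∈ K := by
      simpa using Subgroup.Normal.conj_mem (inferInstance : K.Normal) k hk g⁻¹
    rw [← cj_mul]
    have h2 : k * g = g * (g⁻¹ * k * g) := by group
    rw [h2, cj_mul, hn _ h1]
  have hint : ∀ k ∈ K, cj k (cj g S ⊓ S) = cj g S ⊓ S := by
    intro k hk
    have h1 : cj k (cj g S ⊓ S) = cj k (cj g S) ⊓ cj k S := by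
      ext z
      rw [Subgroup.mem_inf, mem_cj (g := k), mem_cj (g := k), mem_cj (g := k), Subgroup.mem_inf]
    rw [h1, hRn k hk, hn k hk]
  have hne : cj g S ⊓ S ≠ S := by
    intro h
    have h1 : S ≤ cj g S := inf_eq_right.1 h
    have h2 : Nat.card (cj g S) ≤ Nat.card S := by
      unfold cj
      rw [Subgroup.card_map_of_injective]
      exact (MulAut.conj g).injective
    exact hg (Subgroup.eq_of_le_of_card_ge h1 h2).symm
  have hcen : cj g S ⊓ S ≤ Subgroup.center G := hS _ inf_le_right hne hint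
  have hconj : ∀ (T : Subgroup G) (k z : G), cj k T = T → z ∈ T → k * z * k⁻¹ ∈ T := by
    intro T k z hT hz
    rw [← hT, mem_cj]
    have : k⁻¹ * (k * z * k⁻¹) * k = z := by group
    rwa [this]
  have hcomm : ⁅cj g S, S⁆ ≤ cj g S ⊓ S := by
    rw [Subgroup.commutator_le]
    intro r hr s hs
    rw [Subgroup.mem_inf, commutatorElement_def]
    constructor
    · have h1 := hconj (cj g S) s r⁻¹ (hRn s (hSK hs)) (Subgroup.inv_mem _ hr)
      have h2 : r * s * r⁻¹ * s⁻¹ = r * (s * r⁻¹ * s⁻¹) := by group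
      rw [h2]
      exact Subgroup.mul_mem _ hr h1
    · exact Subgroup.mul_mem _ (hconj S r s (hn r (hRK hr)) hs) (Subgroup.inv_mem _ hs)
  have h1 : ⁅⁅cj g S, S⁆, S⁆ = ⊥ := by
    rw [Subgroup.commutator_eq_bot_iff_le_centralizer]
    exact (hcomm.trans hcen).trans (Subgroup.center_le_centralizer _)
  have h2 : ⁅⁅S, cj g S⁆, S⁆ = ⊥ := by
    rw [Subgroup.commutator_comm S]
    exact h1
  have h3 : ⁅⁅S, S⁆, cj g S⁆ = ⊥ := Subgroup.commutator_commutator_eq_bot_of_rotate h2 h1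
  rw [hperf, Subgroup.commutator_eq_bot_iff_le_centralizer] at h3
  exact Subgroup.mem_centralizer_iff.1 (h3 hy) x hx

end Pool.Agent.Helper7.MK
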