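import Pool.Agent.Helper7.MK.CompDefs

/-!
# MK-27: the component modulo its center is simple; arithmetic

* `simple_of_min`: `S` is not abelian (`⁅S, S⁆ = S ≠ ⊥`), so the quotient is nontrivial. Let `N'` be a
  normal subgroup of `S ⧸ center S` and `N ≤ S` its preimage, as a subgroup of `G`
  (`(N'.comap (QuotientGroup.mk' _)).map S.subtype`). `N` is normalized by `S`, and by every
  conjugate of `S` different from `S` (those commute with `S`, hence with `N`); these generate `K`
  (`h.gen`), so `cj k N = N` for all `k ∈ K`. By `hS` either `N = S`, so `N' = ⊤`, or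
  `N ≤ center G`, so the preimage of `N'` lies in `center S` and `N' = ⊥`.
* `center_S_le`: `z ∈ S` commuting with `S` commutes with all conjugates of `S`: with `S`, with those
  different from `S` by `h.comm`, hence with `K`; `center K` mapped to `G` is a normal subgroup of
  `G` contained in `K`, different from `K` (`⁅K, K⁆ = K ≠ ⊥`), hence central by `hmin`.
* `not_dvd_center`: `center S` embeds into `center G` (`center_S_le`), Lagrange.
* `dvd_card`: if `p` does not divide `|S|`, then all conjugates have order prime to `p`; `K` is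
  generated by normal (in `K`) subgroups of order prime to `p`, so by induction over finite joins
  `|A ⊔ B|` divides `|A| |B|` (`Subgroup.card_HK_dvd`-like; `A` normalizes `B`), `p` does not divide
  `|K|`. (Or: if `x ∈ K` has order `p` ... any other proof is welcome.)
-/

namespace Pool.Agent.Helper7.MK

variable {G : Type} [Group G] [Finite G]

lemma simple_of_min (K S : Subgroup G) [K.Normal] (h : Comp K S) (hne : S ≠ ⊥)
    (hS : ∀ S' : Subgroup G, S' ≤ S → S' ≠ S → (∀ k ∈ K, cj k S' = S') →
        S' ≤ Subgroup.center G) : IsSimpleGroup (S ⧸ Subgroup.center S) := by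
  have hnt : Nontrivial (S ⧸ Subgroup.center S) := by
    by_contra hcon
    rw [not_nontrivial_iff_subsingleton] at hcon
    have htop : Subgroup.center S = ⊤ := QuotientGroup.subgroup_eq_top_of_subsingleton _ hcon
    apply hne
    rw [← h.perf, Subgroup.commutator_eq_bot_iff_le_centralizer]
    intro x hx
    rw [Subgroup.mem_centralizer_iff]
    intro y hy
    have h1 : (⟨x, hx⟩ : S) ∈ Subgroup.center S := by rw [htop]; exact Subgroup.mem_top _
    exact congrArg Subtype.val (Subgroup.mem_center_iff.1 h1 ⟨y, hy⟩)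
  refine { toNontrivial := hnt, eq_bot_or_eq_top_of_normal := ?_ }
  intro N' hN'
  set π := QuotientGroup.mk' (Subgroup.center S) with hπ
  have hπs : Function.Surjective π := QuotientGroup.mk'_surjective _
  set N₀ : Subgroup S := N'.comap π with hN₀
  have hN₀n : N₀.Normal := hN'.comap π
  set N : Subgroup G := N₀.map S.subtype with hN
  have hNmem : ∀ s : S, (s : G) ∈ N ↔ s ∈ N₀ := by
    intro s
    constructor
    · rintro ⟨t, ht, hts⟩
      have : t = s := Subtype.ext hts
      rw [← this]; exact ht
    · intro hs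
      exact ⟨s, hs, rfl⟩
  have hNS : N ≤ S := by
    rintro _ ⟨t, _, rfl⟩
    exact t.2
  have hK : K ≤ Subgroup.normalizer ((N : Subgroup G) : Set G) := by
    rw [← h.gen]
    refine iSup_le fun g => ?_
    intro x hx
    by_cases hg : cj g S = S
    · rw [hg] at hx
      refine (Subgroup.mem_normalizer_iff (H := N)).2 (fun y => ?_)
      constructor
      · intro hy
        have h1 := hN₀n.conj_mem ⟨y, hNS hy⟩ ((hNmem ⟨y, hNS hy⟩).1 hy) ⟨x, hx⟩
        exact (hNmem _).2 h1
      · intro hy
        have h1 := hN₀n.conj_mem ⟨x * y * x⁻¹, hNS hy⟩ ((hNmem ⟨_, hNS hy⟩).1 hy) ⟨x, hx⟩⁻¹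
        have h2 := (hNmem _).2 h1
        have h3 : (((⟨x, hx⟩ : S)⁻¹ * ⟨x * y * x⁻¹, hNS hy⟩ * ((⟨x, hx⟩ : S)⁻¹)⁻¹ : S) : G) =
            y := by
          push_cast
          group
        rw [h3] at h2
        exact h2
    · refine (Subgroup.mem_normalizer_iff (H := N)).2 (fun y => ?_)
      constructor
      · intro hy
        have h1 := h.comm g hg x hx y (hNS hy)
        rw [h1, mul_assoc, mul_inv_cancel, mul_one]
        exact hy
      · intro hy
        have h1 := h.comm g hg x hx (x * y * x⁻¹) (hNS hy)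
        have h2 : y = x * y * x⁻¹ := by
          have h3 : x * (x * y * x⁻¹) = x * y := by rw [h1]; group
          have h4 := mul_left_cancel h3
          exact h4.symm
        rw [h2]
        exact hy
  have hKN : ∀ k ∈ K, cj k N = N := by
    intro k hk
    ext x
    rw [mem_cj]
    have h1 := (Subgroup.mem_normalizer_iff (H := N)).1 (hK hk) (k⁻¹ * x * k)
    rw [h1]
    have : k * (k⁻¹ * x * k) * k⁻¹ = x := by group
    rw [this]
  by_cases hNS' : N = S
  · right
    rw [eq_top_iff]
    intro q _
    obtain ⟨s, rfl⟩ := hπs q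
    have h1 : (s : G) ∈ N := by rw [hNS']; exact s.2
    exact (hNmem s).1 h1
  · left
    have h1 := hS N hNS hNS' hKN
    rw [eq_bot_iff]
    intro q hq
    obtain ⟨s, rfl⟩ := hπs q
    have h2 : (s : G) ∈ N := (hNmem s).2 hq
    have h3 := h1 h2
    rw [Subgroup.mem_bot]
    apply (QuotientGroup.eq_one_iff s).2
    rw [Subgroup.mem_center_iff] at h3 ⊢
    intro t
    exact Subtype.ext (h3 t)

lemma center_S_le (K S : Subgroup G) [K.Normal] (h : Comp K S) (hperf : ⁅K, K⁆ = K)
    (hne : K ≠ ⊥)
    (hmin : ∀ N : Subgroup G, N.Normal → N ≤ K → N ≠ K → N ≤ Subgroup.center G) (z : S)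
    (hz : z ∈ Subgroup.center S) : (z : G) ∈ Subgroup.center G := by
  have hKn : K.Normal := inferInstance
  set Z : Subgroup G := K ⊓ Subgroup.centralizer (K : Set G) with hZ
  have hZn : Z.Normal := by
    refine ⟨fun n hn g => ?_⟩
    refine ⟨hKn.conj_mem n hn.1 g, ?_⟩
    have hn2 := Subgroup.mem_centralizer_iff.1 hn.2
    apply Subgroup.mem_centralizer_iff.2
    intro k hk
    have h1 := hn2 (g⁻¹ * k * g) (by
      have := hKn.conj_mem k hk g⁻¹
      rwa [inv_inv] at this)
    calc k * (g * n * g⁻¹) = g * ((g⁻¹ * k * g) * n) * g⁻¹ := by group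
      _ = g * (n * (g⁻¹ * k * g)) * g⁻¹ := by rw [h1]
      _ = g * n * g⁻¹ * k := by group
  have hZne : Z ≠ K := by
    intro he
    apply hne
    rw [← hperf, Subgroup.commutator_eq_bot_iff_le_centralizer]
    intro x hx
    rw [← he] at hx
    exact hx.2
  have hZc := hmin Z hZn inf_le_left hZne
  apply hZc
  refine ⟨h.le z.2, ?_⟩
  apply Subgroup.mem_centralizer_iff.2
  have hle : K ≤ Subgroup.centralizer {(z : G)} := by
    rw [← h.gen]
    refine iSup_le fun g => ?_
    intro x hx
    apply Subgroup.mem_centralizer_iff.2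
    intro y hy
    rw [Set.mem_singleton_iff] at hy
    rw [hy]
    by_cases hg : cj g S = S
    · rw [hg] at hx
      exact (congrArg Subtype.val (Subgroup.mem_center_iff.1 hz ⟨x, hx⟩)).symm
    · exact (h.comm g hg x hx z z.2).symm
  intro k hk
  exact ((Subgroup.mem_centralizer_iff.1 (hle hk)) z (Set.mem_singleton _)).symm

lemma not_dvd_center {p : ℕ} [Fact p.Prime] (K S : Subgroup G) [K.Normal] (h : Comp K S)
    (hperf : ⁅K, K⁆ = K) (hne : K ≠ ⊥)
    (hmin : ∀ N : Subgroup G, N.Normal → N ≤ K → N ≠ K → N ≤ Subgroup.center G)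
    (hz : ¬ p ∣ Nat.card (Subgroup.center G)) : ¬ p ∣ Nat.card (Subgroup.center S) := by
  intro hd
  apply hz
  let f : Subgroup.center S →* Subgroup.center G :=
    { toFun := fun z => ⟨(z.1 : G), center_S_le K S h hperf hne hmin z.1 z.2⟩
      map_one' := rfl
      map_mul' := fun _ _ => rfl }
  have hf : Function.Injective f := by
    intro a b hab
    have h1 : ((f a : Subgroup.center G) : G) = ((f b : Subgroup.center G) : G) := by rw [hab]
    exact Subtype.ext (Subtype.ext h1)
  exact hd.trans (Subgroup.card_dvd_of_injective f hf)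

private lemma comp4_two {p : ℕ} [Fact p.Prime] {L : Type} [Group L] [Finite L]
    (A B : Subgroup L) [B.Normal] (hA : ¬ p ∣ Nat.card A) (hB : ¬ p ∣ Nat.card B) :
    ¬ p ∣ Nat.card (A ⊔ B : Subgroup L) := by
  have hp : p.Prime := Fact.out
  intro hd
  have h1 : B.relIndex (A ⊔ B) * Nat.card B = Nat.card (A ⊔ B : Subgroup L) := by
    have h2 := (B.subgroupOf (A ⊔ B)).index_mul_card
    rw [Nat.card_congr (Subgroup.subgroupOfEquivOfLe (le_sup_right : B ≤ A ⊔ B)).toEquiv] at h2
    exact h2
  rw [← h1, Subgroup.relIndex_sup_right] at hd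
  rcases (Nat.Prime.dvd_mul hp).1 hd with h3 | h3
  · exact hA (h3.trans (B.relIndex_dvd_card A))
  · exact hB h3

private lemma comp4_fin {p : ℕ} [Fact p.Prime] {L ι : Type} [Group L] [Finite L]
    (N : ι → Subgroup L) (hN : ∀ i, (N i).Normal) (h : ∀ i, ¬ p ∣ Nat.card (N i))
    (T : Finset ι) : ¬ p ∣ Nat.card (T.sup N : Subgroup L) := by
  classical
  have hp : p.Prime := Fact.out
  induction T using Finset.induction_on with
  | empty =>
    rw [Finset.sup_empty, Subgroup.card_bot]
    intro h1
    exact hp.one_lt.ne' (Nat.dvd_one.1 h1)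
  | insert a T _ ih =>
    rw [Finset.sup_insert, sup_comm]
    haveI := hN a
    exact comp4_two _ _ ih (h a)

lemma dvd_card {p : ℕ} [Fact p.Prime] (K S : Subgroup G) [K.Normal] (h : Comp K S)
    (hpK : p ∣ Nat.card K) : p ∣ Nat.card S := by
  classical
  have hKn : K.Normal := inferInstance
  by_contra hS
  have := Fintype.ofFinite G
  have hle : ∀ g, cj g S ≤ K := fun g => by
    rw [← cj_normal g K]
    exact cj_mono g h.le
  have hnorm : ∀ g, ((cj g S).subgroupOf K).Normal := by
    intro g
    refine ⟨fun n hn k => ?_⟩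
    rw [Subgroup.mem_subgroupOf] at hn ⊢
    rw [mem_cj] at hn ⊢
    have hk' : g⁻¹ * (k : G) * g ∈ K := by
      have := hKn.conj_mem k k.2 g⁻¹
      rwa [inv_inv] at this
    have h1 := h.norm _ hk'
    rw [← h1, mem_cj]
    have h2 : (g⁻¹ * (k : G) * g)⁻¹ * (g⁻¹ * ((k * n * k⁻¹ : K) : G) * g) *
        (g⁻¹ * (k : G) * g) = g⁻¹ * (n : G) * g := by
      push_cast
      group
    rw [h2]
    exact hn
  have hcard : ∀ g, ¬ p ∣ Nat.card ((cj g S).subgroupOf K) := by
    intro g
    rw [Nat.card_congr (Subgroup.subgroupOfEquivOfLe (hle g)).toEquiv]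
    have h1 : Nat.card (cj g S) = Nat.card S :=
      (Nat.card_congr (S.equivMapOfInjective (MulAut.conj g).toMonoidHom
        (MulAut.conj g).injective).toEquiv).symm
    rw [h1]
    exact hS
  have h1 := comp4_fin (p := p) (fun g => (cj g S).subgroupOf K) hnorm hcard Finset.univ
  apply h1
  have h2 : (Finset.univ.sup fun g => (cj g S).subgroupOf K) = (⊤ : Subgroup K) := by
    rw [eq_top_iff]
    have h3 : K ≤ (Finset.univ.sup fun g => (cj g S).subgroupOf K).map K.subtype := by
      nth_rewrite 1 [← h.gen]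
      refine iSup_le fun g => ?_
      intro x hx
      refine ⟨⟨x, hle g hx⟩, ?_, rfl⟩
      have h4 : (cj g S).subgroupOf K ≤ Finset.univ.sup fun g => (cj g S).subgroupOf K :=
        Finset.le_sup (f := fun g => (cj g S).subgroupOf K) (Finset.mem_univ g)
      exact h4 (Subgroup.mem_subgroupOf.2 hx)
    intro x _
    obtain ⟨y, hy, hyx⟩ := h3 x.2
    have : y = x := Subtype.ext hyx
    rw [← this]
    exact hy
  rw [h2, Subgroup.card_top]
  exact hpK

end Pool.Agent.Helper7.MK
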