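import Pool.Agent.Helper7.MK.Stage3
import Pool.Agent.Helper7.MK.Comp1
import Pool.Agent.Helper7.MK.Comp2
import Pool.Agent.Helper7.MK.Comp3
import Pool.Agent.Helper7.MK.Comp4

/-!
# Output of sections 1, 6, 7 (perfect case)
-/

namespace Pool.Agent.Helper7.MK

open Pool.Agent.Helper42.INC

theorem stage3 {G : Type} [Group G] [Finite G] {p : ℕ} [Fact p.Prime] (K : Subgroup G)
    [K.Normal] (hperf : ⁅K, K⁆ = K) (hne : K ≠ ⊥)
    (hmin : ∀ N : Subgroup G, N.Normal → N ≤ K → N ≠ K → N ≤ Subgroup.center G)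
    (hz : ¬ p ∣ Nat.card (Subgroup.center G)) (hpK : p ∣ Nat.card K)
    (hgood : ∀ S : Subgroup G, S ≤ K → ⁅S, S⁆ = S → IsSimpleGroup (S ⧸ Subgroup.center S) →
      ¬ p ∣ Nat.card (Subgroup.center S) → p ∣ Nat.card S → Good p S) (P : Sylow p G) :
    ∃ L : Subgroup G, L ≠ ⊤ ∧ Subgroup.normalizer (P : Set G) ≤ L ∧
      ∀ s : ZMod p, s ≠ 0 → cnt p G s = cnt p L s := by
  obtain ⟨S, h1, h2, h3, h4⟩ := exists_min K hperf hne
  have hgen := gen_of_min K hmin S h1 h3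
  have hp := perf_of_min K hperf hne S h1 h2 hgen h4
  have hc : Comp K S := ⟨h1, h2, hp, hgen, comm_of_min K S h1 h2 hp h4⟩
  have hS : S ≠ ⊥ := by
    rintro rfl
    exact h3 bot_le
  exact comp_step K S hc (hgood S h1 hp (simple_of_min K S hc hS h4)
    (not_dvd_center K S hc hperf hne hmin hz) (dvd_card K S hc hpK)) P

end Pool.Agent.Helper7.MK
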