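import Pool.Agent.Helper42.INC.Red3

/-!
# Components and matched characters (MP_5ecade_al): definitions

`Good p K` is the inductive McKay condition of Isaacs, Malle and Navarro for the group `K` and the
prime `p`, together with the congruence of the degrees up to sign.
-/

namespace Pool.Agent.Helper7.MK

open Pool.Agent.Helper42.INC

/-- `f` is the character of a finite dimensional complex representation -/
def IsChar {G : Type} [Group G] (f : G → ℂ) : Prop :=
  ∃ (V : Type) (_ : AddCommGroup V) (_ : Module ℂ V) (_ : FiniteDimensional ℂ V)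
    (ρ : Representation ℂ G V), f = ρ.character

/-- the automorphisms of `K` which map `T` onto itself and fix the function `θ` -/
def AutTh {K : Type} [Group K] (T : Subgroup K) (θ : K → ℂ) : Subgroup (MulAut K) where
  carrier := {α | (∀ x, α x ∈ T ↔ x ∈ T) ∧ ∀ x, θ (α x) = θ x}
  one_mem' := ⟨fun _ => Iff.rfl, fun _ => rfl⟩
  mul_mem' := by
    rintro a b ⟨ha, ha'⟩ ⟨hb, hb'⟩
    refine ⟨fun x => ?_, fun x => ?_⟩
    · rw [MulAut.mul_apply, ha, hb]
    · rw [MulAut.mul_apply, ha', hb']
  inv_mem' := by
    rintro a ⟨ha, ha'⟩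
    refine ⟨fun x => ?_, fun x => ?_⟩
    · rw [← ha, MulAut.apply_inv_self]
    · rw [← ha', MulAut.apply_inv_self]

/-- The characters `θ` of `K` and `φ` of `T` are matched: there is a representation `D` of `K × T`
with character `θ(k) φ(t⁻¹)` and a representation `R`, on the same space, of the group of all
automorphisms of `K` which stabilize `T` and `θ`, such that `R α` implements the action of `α` on
`K × T`, and `R α = D (t, t)` if `α` is conjugation with `t ∈ T`. (In other words: the Clifford
theories of `θ` and of `φ` are the same.) -/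
def MatchedAut {K : Type} [Group K] (T : Subgroup K) (θ : K → ℂ) (φ : T → ℂ) : Prop :=
  ∃ (d : ℕ) (D : K × T →* Matrix (Fin d) (Fin d) ℂ)
    (R : AutTh T θ →* Matrix (Fin d) (Fin d) ℂ),
    (∀ k t, (D (k, t)).trace = θ k * φ t⁻¹) ∧
    (∀ (α : AutTh T θ) (k : K) (t t' : T), (t' : K) = α.1 t →
      R α * D (k, t) = D (α.1 k, t') * R α) ∧
    (∀ (α : AutTh T θ) (t : T), α.1 = MulAut.conj (t : K) → R α = D (t, t))

/-- The inductive McKay condition with degrees congruent up to sign modulo `p`: for every Sylow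
subgroup `Q` of `K` there are a proper subgroup `T` containing the normalizer of `Q`, stable under
all automorphisms which stabilize `Q`, and a bijection from the irreducible characters of `K` of
degree prime to `p` onto those of `T`, equivariant under the automorphisms which stabilize `T`,
preserving degrees up to sign modulo `p`, such that corresponding characters are matched. -/
def Good (p : ℕ) (K : Type) [Group K] : Prop :=
  ∀ Q : Sylow p K, ∃ T : Subgroup K, Subgroup.normalizer (Q : Set K) ≤ T ∧ T ≠ ⊤ ∧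
    (∀ α : MulAut K, (∀ x, α x ∈ Q ↔ x ∈ Q) → ∀ x, α x ∈ T ↔ x ∈ T) ∧
    ∃ F : IrrP p K ≃ IrrP p T,
      (∀ α : MulAut K, (∀ x, α x ∈ T ↔ x ∈ T) → ∀ θ θ' : IrrP p K,
        (∀ x, θ'.1 x = θ.1 (α x)) → ∀ t t' : T, (t' : K) = α t → (F θ').1 t = (F θ).1 t') ∧
      (∀ θ, (deg (F θ).1 : ZMod p) ^ 2 = (deg θ.1 : ZMod p) ^ 2) ∧
      ∀ θ, MatchedAut T θ.1 (F θ).1

section inG

variable {G : Type} [Group G]

/-- the normal subgroup `K ∩ L` of `L`, as a subgroup of `K` -/
def npInter (K L : Subgroup G) [hK : K.Normal] : NP (L.subgroupOf K) L where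
  ι := 
    { toFun := fun x => ⟨x.1.1, x.2⟩
      map_one' := rfl
      map_mul' := fun _ _ => rfl }
  inj := by
    intro x y h
    apply Subtype.ext
    apply Subtype.ext
    exact congrArg (fun t : L => (t : G)) h
  α := 
    { toFun := fun l =>
        { toFun := fun x => ⟨⟨l * x.1.1 * (l : G)⁻¹, hK.conj_mem _ x.1.2 _⟩,
            L.mul_mem (L.mul_mem l.2 x.2) (L.inv_mem l.2)⟩
          invFun := fun x => ⟨⟨(l : G)⁻¹ * x.1.1 * (l : G), by
              simpa using hK.conj_mem _ x.1.2 (l : G)⁻¹⟩,
            L.mul_mem (L.mul_mem (L.inv_mem l.2) x.2) l.2⟩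
          left_inv := fun x => by
            apply Subtype.ext; apply Subtype.ext
            change (l : G)⁻¹ * (l * x.1.1 * (l : G)⁻¹) * l = x.1.1
            group
          right_inv := fun x => by
            apply Subtype.ext; apply Subtype.ext
            change (l : G) * ((l : G)⁻¹ * x.1.1 * l) * (l : G)⁻¹ = x.1.1
            group
          map_mul' := fun x y => by
            apply Subtype.ext; apply Subtype.ext
            change (l : G) * (x.1.1 * y.1.1) * (l : G)⁻¹ =
              (l * x.1.1 * (l : G)⁻¹) * (l * y.1.1 * (l : G)⁻¹)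
            group }
      map_one' := by
        ext x
        change ((1 : L) : G) * x.1.1 * ((1 : L) : G)⁻¹ = x.1.1
        simp
      map_mul' := fun a b => by
        ext x
        change ((a * b : L) : G) * x.1.1 * ((a * b : L) : G)⁻¹ =
          a * (b * x.1.1 * (b : G)⁻¹) * (a : G)⁻¹
        rw [Subgroup.coe_mul]
        group }
  compat g m := rfl

/-- the stabilizer in `L` of the function `θ` on the normal subgroup `K` -/
def stL (K L : Subgroup G) [K.Normal] (θ : K → ℂ) : Subgroup L where
  carrier := {l | ∀ k, θ (MulAut.conjNormal (l : G) k) = θ k}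
  one_mem' := by
    intro k
    simp
  mul_mem' := by
    intro a b ha hb k
    rw [Subgroup.coe_mul, map_mul, MulAut.mul_apply, ha, hb]
  inv_mem' := by
    intro a ha k
    have h := ha (MulAut.conjNormal ((a : G)⁻¹) k)
    rw [← MulAut.mul_apply, ← map_mul, mul_inv_cancel, map_one, MulAut.one_apply] at h
    exact h.symm

/-- matched characters of the normal subgroup `K` and of `K ∩ L` -/
def MatchedG (K L : Subgroup G) [K.Normal] (θ : K → ℂ) (φ : L.subgroupOf K → ℂ) : Prop :=
  ∃ (n : Type) (_ : Fintype n) (_ : DecidableEq n)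
    (D : K × (L.subgroupOf K) →* Matrix n n ℂ) (R : stL K L θ →* Matrix n n ℂ),
    (∀ k t, (D (k, t)).trace = θ k * φ t⁻¹) ∧
    (∀ (u : stL K L θ) (k : K) (t : L.subgroupOf K),
      R u * D (k, t) = D (MulAut.conjNormal ((u : L) : G) k, (npInter K L).α (u : L) t) * R u) ∧
    (∀ (u : stL K L θ) (t : L.subgroupOf K), ((u : L) : G) = ((t : K) : G) → R u = D (t, t))

end inG

/-- A kernel between `(G, K, θ)` and `(L, M, φ)`: a group `Δ` with homomorphisms onto the
stabilizers of `θ` and `φ`, with kernels `M` and `K`, and a character of `Δ` whose restrictions to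
`K` and `M` are `φ(1) θ` and `θ(1) φ̄`. -/
structure Kernel {G K L M : Type} [Group G] [Group K] [Group L] [Group M]
    [Finite G] [Finite K] [Finite L] [Finite M] (DK : NP K G) (DM : NP M L) (θ : IrrX DK) (φ : IrrX DM) (Δ : Type) [Group Δ] where
  p1 : Δ →* G
  p2 : Δ →* L
  j1 : K →* Δ
  j2 : M →* Δ
  p1j1 : ∀ k, p1 (j1 k) = DK.ι k
  p2j1 : ∀ k, p2 (j1 k) = 1
  p1j2 : ∀ m, p1 (j2 m) = 1
  p2j2 : ∀ m, p2 (j2 m) = DM.ι m
  ker1 : p1.ker = j2.range
  ker2 : p2.ker = j1.range
  range1 : p1.range = MulAction.stabilizer G θ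
  range2 : p2.range = MulAction.stabilizer L φ
  ind : (MulAction.stabilizer G θ).index = (MulAction.stabilizer L φ).index
  κ : Δ → ℂ
  char : IsChar κ
  κ1 : ∀ k, κ (j1 k) = θ.chi k * φ.chi 1
  κ2 : ∀ m, κ (j2 m) = θ.chi 1 * φ.chi m⁻¹

end Pool.Agent.Helper7.MK
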