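import Pool.Agent.Helper7.MK.Defs

/-!
# MK-03: degree formula of Clifford theory

For `χ ∈ Irr G` lying over `θ ∈ Irr K`, `K` normal in `G`: `χ(1) = |G : G_θ| θ(1) [χ_K, θ]`; and
two characters of `K` below the same `χ` are conjugate.

Proof (`clifford_degree`): `INC.exists_cliff D θ.rep hχ` (with `θ.char_rep`) gives `ψ ∈ Irr (Gam D θ.rep)`
with `InvM`, `ScInv` and `χ = cliff D θ.rep ψ`. `INC.cliff_deg` gives
`deg χ = index of (gamProj D θ.rep).range * (finrank * deg ψ)`, `INC.range_gamProj` identifies the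
range with the stabilizer, `finrank ℂ θ.V = θ.chi 1` (`char_rep`, `Representation.char_one`), and
`B (fun k => χ (D.ι k)) θ.chi = resHat D θ.rep χ 1 = ψ 1 = deg ψ` by `INC.resHat_one`,
`INC.resHat_cliff_self` and `INC.deg_cast`.
Proof (`clifford_orbit`): as in the proof of `INC.cnt_clifford`: write `χ = cliff D θ'.rep ψ'`
(`exists_cliff`); if `θ` is not conjugate to `θ'` then `INC.resHat_cliff_ne` gives
`resHat D θ.rep χ = 0`, and `resHat_one` gives `B (χ ∘ ι) θ.chi = 0`.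
-/

namespace Pool.Agent.Helper7.MK

open Pool.Agent.Helper42.INC

variable {G K : Type} [Group G] [Group K] [Finite G] [Finite K] (D : NP K G)

lemma clifford_degree (θ : IrrX D) {χ : G → ℂ} (hχ : χ ∈ Irr G)
    (h : B (fun k => χ (D.ι k)) θ.chi ≠ 0) :
    χ 1 = ((MulAction.stabilizer G θ).index : ℂ) * θ.chi 1 * B (fun k => χ (D.ι k)) θ.chi := by
  obtain ⟨ψ, hψ, hI, hS, hψχ⟩ := exists_cliff D θ.rep hχ (by rw [IrrX.char_rep]; exact h)
  have h1 : B (fun k => χ (D.ι k)) θ.chi = (deg ψ : ℂ) := by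
    rw [← IrrX.char_rep, ← resHat_one, hψχ, resHat_cliff_self D _ hI (Irr.isClass hψ) hS,
      deg_cast hψ]
  have h2 : θ.chi 1 = (Module.finrank ℂ θ.V : ℂ) := by
    rw [← IrrX.char_rep]
    exact Representation.char_one θ.rep
  rw [h1, h2, ← deg_cast hχ]
  have h3 : deg χ = (MulAction.stabilizer G θ).index * (Module.finrank ℂ θ.V * deg ψ) := by
    rw [hψχ, cliff_deg D θ.rep hψ hS, range_gamProj]
  rw [h3]
  push_cast
  ring

lemma clifford_orbit (θ θ' : IrrX D) {χ : G → ℂ} (hχ : χ ∈ Irr G)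
    (h : B (fun k => χ (D.ι k)) θ.chi ≠ 0) (h' : B (fun k => χ (D.ι k)) θ'.chi ≠ 0) :
    ∃ x : G, θ = x • θ' := by
  obtain ⟨ψ, hψ, hI, hS, hψχ⟩ := exists_cliff D θ'.rep hχ (by rw [IrrX.char_rep]; exact h')
  by_contra hcon
  push Not at hcon
  have h3 : resHat D θ.rep χ = 0 := by
    rw [hψχ]
    apply resHat_cliff_ne D θ.rep θ'.rep hI
    intro x hx
    apply hcon x⁻¹
    apply IrrX.ext'
    rw [IrrX.char_rep] at hx
    rw [hx]
    ext m
    rw [IrrX.smul_chi, inv_inv, ← IrrX.char_rep]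
    rfl
  apply h
  rw [← IrrX.char_rep, ← resHat_one, h3]
  rfl

end Pool.Agent.Helper7.MK
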