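import Pool.Agent.Helper7.MK.Tuple

/-!
# MK-19: Schur's lemma for matrices, and descending along a surjection

* `scalar_of_irr`: let `ρ` be the representation of `H` on `n → ℂ` given by `D`
  (`Matrix.toLinAlgEquiv'`), with character `χ h = trace (D h)`. By `B_irr_self` and the formula
  in the proof of `INC.B_char` (`Representation.card_inv_mul_sum_char_mul_char_eq_finrank`) the
  space of intertwining maps `ρ → ρ` has dimension 1; it contains the identity (nonzero, since
  `n` is nonempty as `χ 1 ≠ 0`) and `D z` (`z` central), so `D z = c • 1`; the trace gives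
  `χ z = c * χ 1`.
* `exists_descend`: choose a preimage `s b` of each `b` and put `W' b = W (s b)`; if `μ a = b` then
  `a = (a (s b)⁻¹) s b` with `a (s b)⁻¹` in the kernel.
-/

namespace Pool.Agent.Helper7.MK

open Pool.Agent.Helper42.INC

/-- the representation on column vectors given by a matrix representation -/
private noncomputable def h86scRep {H n : Type} [Group H] [Fintype n] [DecidableEq n]
    (D : H →* Matrix n n ℂ) : Representation ℂ H (n → ℂ) :=
  (Matrix.toLinAlgEquiv' (R := ℂ) (n := n)).toMulEquiv.toMonoidHom.comp D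

private lemma h86sc_apply {H n : Type} [Group H] [Fintype n] [DecidableEq n]
    (D : H →* Matrix n n ℂ) (h : H) : h86scRep D h = Matrix.toLin' (D h) := rfl

private lemma h86sc_char {H n : Type} [Group H] [Fintype n] [DecidableEq n]
    (D : H →* Matrix n n ℂ) : (h86scRep D).character = fun h => (D h).trace := by
  funext h
  rw [Representation.character, h86sc_apply, Matrix.trace_toLin'_eq]

lemma scalar_of_irr {H n : Type} [Group H] [Finite H] [Fintype n] [DecidableEq n]
    (D : H →* Matrix n n ℂ) (hD : (fun h => (D h).trace) ∈ Irr H) {z : H}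
    (hz : z ∈ Subgroup.center H) :
    D z = ((D z).trace / (D 1).trace) • (1 : Matrix n n ℂ) := by
  classical
  have := Fintype.ofFinite H
  have hne : (D 1).trace ≠ 0 := by
    obtain ⟨m, hm0, hm⟩ := irr_one hD
    rw [hm]
    exact_mod_cast hm0.ne'
  have h1 : B (h86scRep D).character (h86scRep D).character = 1 := by
    rw [h86sc_char]
    exact B_irr_self hD
  rw [B_eq, Representation.card_inv_mul_sum_char_mul_char_eq_finrank] at h1
  have h2 : Module.finrank ℂ (Representation.IntertwiningMap (h86scRep D) (h86scRep D)) = 1 := by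
    exact_mod_cast h1
  have hid : Representation.IntertwiningMap.id (h86scRep D) ≠ 0 := by
    intro h0
    have h3 : (LinearMap.id : (n → ℂ) →ₗ[ℂ] (n → ℂ)) = 0 :=
      congrArg (fun f => f.toLinearMap) h0
    apply hne
    rw [map_one, Matrix.trace_one]
    have h4 : IsEmpty n := by
      by_contra hcon
      rw [not_isEmpty_iff] at hcon
      obtain ⟨i⟩ := hcon
      have h5 := congrFun (LinearMap.congr_fun h3 (fun _ => (1 : ℂ))) i
      simp at h5
    simp
  have hcz : ∀ g, Matrix.toLin' (D z) ∘ₗ h86scRep D g = h86scRep D g ∘ₗ Matrix.toLin' (D z) := by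
    intro g
    rw [h86sc_apply, ← Matrix.toLin'_mul, ← Matrix.toLin'_mul, ← map_mul, ← map_mul,
      Subgroup.mem_center_iff.1 hz g]
  obtain ⟨c, hc⟩ := (finrank_eq_one_iff_of_nonzero' _ hid).1 h2
    ⟨Matrix.toLin' (D z), hcz⟩
  have h6 : c • (LinearMap.id : (n → ℂ) →ₗ[ℂ] (n → ℂ)) = Matrix.toLin' (D z) :=
    congrArg (fun f => f.toLinearMap) hc
  have h7 : D z = c • (1 : Matrix n n ℂ) := by
    apply Matrix.toLin'.injective
    rw [← h6, map_smul, Matrix.toLin'_one]
  have h8 : (D z).trace = c * (D 1).trace := by
    rw [h7, Matrix.trace_smul, map_one, smul_eq_mul]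
  rw [h8, mul_div_assoc, div_self hne, mul_one]
  exact h7

lemma exists_descend {A B M : Type} [Group A] [Group B] [Monoid M] (μ : A →* B)
    (hμ : Function.Surjective μ) (W : A →* M) (hW : ∀ a, μ a = 1 → W a = 1) :
    ∃ W' : B →* M, ∀ a, W' (μ a) = W a := by
  have key : ∀ a a', μ a = μ a' → W a = W a' := by
    intro a a' h
    have h1 : μ (a * a'⁻¹) = 1 := by rw [map_mul, map_inv, h, mul_inv_cancel]
    have h2 : a = (a * a'⁻¹) * a' := by group
    rw [h2, map_mul, hW _ h1, one_mul]
  choose s hs using hμ
  refine ⟨{ toFun := fun b => W (s b), map_one' := ?_, map_mul' := ?_ }, ?_⟩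
  · exact hW _ (hs 1)
  · intro x y
    rw [← map_mul]
    apply key
    rw [hs, map_mul, hs, hs]
  · intro a
    exact key _ _ (hs (μ a))

end Pool.Agent.Helper7.MK
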