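import Pool.Agent.Helper7.MK.Defs

/-!
# MK-13: matched characters have the same central character

If `θ` and `φ` are matched and `z ∈ T` is central in `K` then `θ(z) φ(1) = θ(1) φ(z)`.
Proof. Conjugation with `z` is the identity automorphism, so `D (z, z) = R 1 = 1` (third property).
So `D (z, 1) = D (z, z) * D (1, z⁻¹) = D (1, z⁻¹)` and
`θ(z) φ(1) = trace (D (z, 1)) = trace (D (1, z⁻¹)) = θ(1) φ(z)`.
-/

namespace Pool.Agent.Helper7.MK

open Pool.Agent.Helper42.INC

lemma MatchedAut.central {K : Type} [Group K] {T : Subgroup K} {θ : K → ℂ} {φ : T → ℂ}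
    (h : MatchedAut T θ φ) (z : T) (hz : (z : K) ∈ Subgroup.center K) :
    θ z * φ 1 = θ 1 * φ z := by
  obtain ⟨d, D, R, h1, -, h3⟩ := h
  have hc : ((1 : AutTh T θ) : MulAut K) = MulAut.conj (z : K) := by
    apply MulEquiv.ext
    intro x
    change x = (z : K) * x * (z : K)⁻¹
    rw [← Subgroup.mem_center_iff.1 hz x, mul_inv_cancel_right]
  have h4 : D ((z : K), z) = 1 := by
    rw [← h3 1 z hc, map_one]
  have h5 : D ((z : K), 1) = D ((1 : K), z⁻¹) := by
    have h6 : (((z : K), 1) : K × T) = ((z : K), z) * ((1 : K), z⁻¹) := by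
      rw [Prod.mk_mul_mk, mul_one, mul_inv_cancel]
    rw [h6, map_mul, h4, one_mul]
  have h7 := congrArg Matrix.trace h5
  rw [h1, h1, inv_one, inv_inv] at h7
  exact h7

end Pool.Agent.Helper7.MK
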