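import Pool.Agent.Helper7.MK.PSBasic

/-!
# Components of a minimal noncentral normal subgroup: definitions
-/

namespace Pool.Agent.Helper7.MK

variable {G : Type} [Group G]

/-- the conjugate `g S g⁻¹` -/
def cj (g : G) (S : Subgroup G) : Subgroup G := S.map (MulAut.conj g).toMonoidHom

lemma mem_cj {g x : G} {S : Subgroup G} : x ∈ cj g S ↔ g⁻¹ * x * g ∈ S := by
  constructor
  · rintro ⟨y, hy, rfl⟩
    change g⁻¹ * (g * y * g⁻¹) * g ∈ S
    have : g⁻¹ * (g * y * g⁻¹) * g = y := by group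
    rwa [this]
  · intro h
    refine ⟨_, h, ?_⟩
    change g * (g⁻¹ * x * g) * g⁻¹ = x
    group

lemma cj_one (S : Subgroup G) : cj 1 S = S := by
  ext x; rw [mem_cj]; simp

lemma cj_mul (g h : G) (S : Subgroup G) : cj (g * h) S = cj g (cj h S) := by
  ext x
  rw [mem_cj, mem_cj, mem_cj, mul_inv_rev]
  have : h⁻¹ * g⁻¹ * x * (g * h) = h⁻¹ * (g⁻¹ * x * g) * h := by group
  rw [this]

lemma cj_mono (g : G) {S T : Subgroup G} (h : S ≤ T) : cj g S ≤ cj g T := by
  intro x hx
  rw [mem_cj] at hx ⊢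
  exact h hx

lemma cj_normal (g : G) (K : Subgroup G) [hK : K.Normal] : cj g K = K := by
  ext x
  rw [mem_cj]
  constructor
  · intro h
    have h2 := hK.conj_mem _ h g
    have : g * (g⁻¹ * x * g) * g⁻¹ = x := by group
    rwa [this] at h2
  · intro h
    simpa using hK.conj_mem _ h g⁻¹

/-- `S` is a component of the normal subgroup `K`: perfect, normal in `K`, the conjugates of `S` in
`G` generate `K` and those different from `S` commute with `S` -/
structure Comp (K S : Subgroup G) : Prop where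
  le : S ≤ K
  norm : ∀ k ∈ K, cj k S = S
  perf : ⁅S, S⁆ = S
  gen : ⨆ g : G, cj g S = K
  comm : ∀ g, cj g S ≠ S → ∀ x ∈ cj g S, ∀ y ∈ S, x * y = y * x

end Pool.Agent.Helper7.MK
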