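import Mathlib

/-!
# MK-04: nonnegative integer matrices which are permutation matrices

Let `A : Y → X → ℕ`, `f : X → ℕ`, `e : Y → ℕ` be positive with `A f = e` and `Aᵀ e = f`. Then `A` is
a permutation matrix; in particular there is a bijection `σ : X ≃ Y` with `e (σ x) = f x`.

Proof. For `x` we have `f x = ∑ y, A y x * e y = ∑ y, A y x * ∑ x', A y x' * f x'
= ∑ x', (∑ y, A y x * A y x') * f x'`. The coefficient `∑ y, (A y x)^2` of `f x` is at least 1,
since `f x > 0` forces some `A y x ≠ 0`. So all other terms vanish and `∑ y, (A y x)^2 = 1`: there is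
exactly one `y = σ x` with `A y x = 1` and all other `A y x` are 0, and for `x' ≠ x` we have
`A y x * A y x' = 0` for all `y`. Hence `σ` is injective. It is surjective: for `y` we have
`0 < e y = ∑ x, A y x * f x`, so some `A y x ≠ 0`, so `y = σ x`. Finally
`f x = ∑ y, A y x * e y = e (σ x)`.
-/

namespace Pool.Agent.Helper7.MK

lemma exists_perm {X Y : Type} [Fintype X] [Fintype Y] (A : Y → X → ℕ) (f : X → ℕ) (e : Y → ℕ)
    (hf : ∀ x, 0 < f x) (he : ∀ y, 0 < e y) (h1 : ∀ y, ∑ x, A y x * f x = e y)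
    (h2 : ∀ x, ∑ y, A y x * e y = f x) : ∃ σ : X ≃ Y, ∀ x, e (σ x) = f x := by
  classical
  have hB : ∀ x, ∑ x', (∑ y, A y x * A y x') * f x' = f x := by
    intro x
    calc ∑ x', (∑ y, A y x * A y x') * f x' = ∑ x', ∑ y, A y x * (A y x' * f x') := by
          refine Finset.sum_congr rfl fun x' _ => ?_
          rw [Finset.sum_mul]
          refine Finset.sum_congr rfl fun y _ => ?_
          ring
      _ = ∑ y, ∑ x', A y x * (A y x' * f x') := Finset.sum_comm
      _ = ∑ y, A y x * e y := by
          refine Finset.sum_congr rfl fun y _ => ?_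
          rw [← Finset.mul_sum, h1]
      _ = f x := h2 x
  have hex : ∀ x, ∃ y, A y x ≠ 0 := by
    intro x
    by_contra hcon
    push Not at hcon
    have h := h2 x
    rw [Finset.sum_eq_zero (fun y _ => by rw [hcon y, zero_mul])] at h
    exact absurd h (hf x).ne
  choose σ hσ using hex
  have hdiag : ∀ x, 1 ≤ ∑ y, A y x * A y x := by
    intro x
    have h3 : A (σ x) x * A (σ x) x ≤ ∑ y, A y x * A y x :=
      Finset.single_le_sum (f := fun y => A y x * A y x) (fun y _ => Nat.zero_le _)
        (Finset.mem_univ (σ x))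
    have h4 : 0 < A (σ x) x * A (σ x) x := Nat.mul_pos (Nat.pos_of_ne_zero (hσ x))
      (Nat.pos_of_ne_zero (hσ x))
    omega
  have hoff : ∀ x x', x' ≠ x → ∑ y, A y x * A y x' = 0 := by
    intro x x' hne
    by_contra hcon
    have h3 := hB x
    have h4 : (∑ y, A y x * A y x) * f x + (∑ y, A y x * A y x') * f x' ≤
        ∑ x'', (∑ y, A y x * A y x'') * f x'' := by
      rw [← Finset.add_sum_erase _ _ (Finset.mem_univ x)]
      refine Nat.add_le_add_left ?_ _
      exact Finset.single_le_sum (f := fun x'' => (∑ y, A y x * A y x'') * f x'')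
        (fun _ _ => Nat.zero_le _) (Finset.mem_erase.2 ⟨hne, Finset.mem_univ _⟩)
    have h5 : f x ≤ (∑ y, A y x * A y x) * f x := Nat.le_mul_of_pos_left _ (hdiag x)
    have h6 : 0 < (∑ y, A y x * A y x') * f x' := Nat.mul_pos (Nat.pos_of_ne_zero hcon) (hf x')
    omega
  have hdiag1 : ∀ x, ∑ y, A y x * A y x = 1 := by
    intro x
    have h3 := hB x
    have h4 : (∑ y, A y x * A y x) * f x ≤ ∑ x'', (∑ y, A y x * A y x'') * f x'' :=
      Finset.single_le_sum (f := fun x'' => (∑ y, A y x * A y x'') * f x'')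
        (fun _ _ => Nat.zero_le _) (Finset.mem_univ x)
    rw [h3] at h4
    have h5 := hdiag x
    have h6 : ∑ y, A y x * A y x ≤ 1 := by
      by_contra hcon
      have h7 : 2 * f x ≤ (∑ y, A y x * A y x) * f x := Nat.mul_le_mul_right _ (by omega)
      have := hf x
      omega
    omega
  have hval : ∀ x, A (σ x) x = 1 ∧ ∀ y, y ≠ σ x → A y x = 0 := by
    intro x
    have h3 := hdiag1 x
    rw [← Finset.add_sum_erase _ _ (Finset.mem_univ (σ x))] at h3
    have h4 : 1 ≤ A (σ x) x := Nat.pos_of_ne_zero (hσ x)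
    have h5 : A (σ x) x ≤ A (σ x) x * A (σ x) x := Nat.le_mul_of_pos_left _ h4
    refine ⟨by omega, ?_⟩
    intro y hy
    have h6 : ∑ y ∈ Finset.univ.erase (σ x), A y x * A y x = 0 := by omega
    have h7 := Finset.sum_eq_zero_iff.1 h6 y (Finset.mem_erase.2 ⟨hy, Finset.mem_univ _⟩)
    exact mul_self_eq_zero.1 h7
  have hinj : Function.Injective σ := by
    intro x x' hxx
    by_contra hne
    have h3 := Finset.sum_eq_zero_iff.1 (hoff x x' (Ne.symm hne)) (σ x) (Finset.mem_univ _)
    rw [(hval x).1, hxx, (hval x').1] at h3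
    omega
  have hsurj : Function.Surjective σ := by
    intro y
    by_contra hcon
    push Not at hcon
    have h3 := h1 y
    rw [Finset.sum_eq_zero (fun x _ => by rw [(hval x).2 y (Ne.symm (hcon x)), zero_mul])] at h3
    exact absurd h3 (he y).ne
  refine ⟨Equiv.ofBijective σ ⟨hinj, hsurj⟩, ?_⟩
  intro x
  rw [Equiv.ofBijective_apply]
  have h3 := h2 x
  rw [Finset.sum_eq_single (σ x) (fun y _ hy => by rw [(hval x).2 y hy, zero_mul])
    (fun h => absurd (Finset.mem_univ _) h), (hval x).1, one_mul] at h3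
  exact h3

end Pool.Agent.Helper7.MK
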