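import Pool.Agent.Helper7.MK.Row
import Pool.Agent.Helper7.MK.Perm

/-!
# MK-06: the bijection between the characters over `θ` and over `φ`

`Kernel.swap`: exchange the two sides; the new character is `κ'(d) = κ(d⁻¹)` (`IsChar.inv`); check
`κ'(j2 m) = κ(j2 m⁻¹) = θ(1) φ(m) = φ(m) θ(1)` and `κ'(j1 k) = κ(j1 k⁻¹) = θ(k⁻¹) φ(1)`.
`swap_a`: `N.swap.a χ ψ = N.a ψ χ`: substitute `d ↦ d⁻¹` in the sum defining `B` (`B_symm`).
`fiber_equiv`: apply `exists_perm` to `X = {χ : Irr G // f χ ≠ 0}`, `Y = {ψ : Irr L // e ψ ≠ 0}` and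
the natural numbers `A y x = a y x`, `f x`, `e y` (`Kernel.a_nat`, `B` of characters is a natural
number: `IsChar.nat`, `IsChar.comp`). `h1` is `Kernel.row` (terms with `f χ = 0` contribute 0), `h2`
is `Kernel.row` for `N.swap` together with `swap_a`. If `f x = c₀ = e (σ x)` then
`deg χ = index * c₀ * deg θ` and `deg ψ = index * c₀ * deg φ` by `clifford_degree` and `N.ind`
(`deg_cast` to pass to complex numbers, `θ.mem : θ.chi ∈ Irr K`). So `c = index * c₀`.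
-/

namespace Pool.Agent.Helper7.MK

open Pool.Agent.Helper42.INC

variable {G K L M Δ : Type} [Group G] [Group K] [Group L] [Group M] [Group Δ]
  [Finite G] [Finite K] [Finite L] [Finite M] [Finite Δ]
  {DK : NP K G} {DM : NP M L} {θ : IrrX DK} {φ : IrrX DM}

/-- exchange the two sides -/
def Kernel.swap (N : Kernel DK DM θ φ Δ) : Kernel DM DK φ θ Δ where
  p1 := N.p2
  p2 := N.p1
  j1 := N.j2
  j2 := N.j1
  p1j1 := N.p2j2
  p2j1 := N.p1j2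
  p1j2 := N.p2j1
  p2j2 := N.p1j1
  ker1 := N.ker2
  ker2 := N.ker1
  range1 := N.range2
  range2 := N.range1
  ind := N.ind.symm
  κ := fun d => N.κ d⁻¹
  char := N.char.inv
  κ1 := fun m => by
    rw [← map_inv, N.κ2, inv_inv, mul_comm]
  κ2 := fun k => by
    rw [← map_inv, N.κ1, mul_comm]

lemma Kernel.swap_a (N : Kernel DK DM θ φ Δ) (ψ : L → ℂ) (χ : G → ℂ) :
    N.swap.a χ ψ = N.a ψ χ := by
  have := Fintype.ofFinite Δ
  unfold Kernel.a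
  rw [B_eq, B_eq]
  congr 1
  rw [← Equiv.sum_comp (Equiv.inv Δ)]
  refine Finset.sum_congr rfl fun d _ => ?_
  change N.κ (d⁻¹)⁻¹ * χ (N.p1 d⁻¹) * ψ (N.p2 (d⁻¹)⁻¹) = N.κ d * ψ (N.p2 d) * χ (N.p1 d⁻¹)
  rw [inv_inv]
  ring

private lemma fib_nat {G K : Type} [Group G] [Group K] [Finite G] [Finite K] {DK : NP K G}
    (θ : IrrX DK) {χ : G → ℂ} (hχ : χ ∈ Irr G) :
    ∃ n : ℕ, B (fun k => χ (DK.ι k)) θ.chi = n :=
  ((IsChar.of_irr hχ).comp DK.ι).nat (IsChar.of_irr θ.mem)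

private lemma fib_row (N : Kernel DK DM θ φ Δ) [Fintype (Irr G)]
    [Fintype {χ : Irr G // B (fun k => χ.1 (DK.ι k)) θ.chi ≠ 0}] {ψ : L → ℂ} (hψ : ψ ∈ Irr L) :
    ∑ χ : {χ : Irr G // B (fun k => χ.1 (DK.ι k)) θ.chi ≠ 0},
      N.a ψ χ.1.1 * B (fun k => χ.1.1 (DK.ι k)) θ.chi = B (fun m => ψ (DM.ι m)) φ.chi := by
  classical
  rw [← N.row hψ]
  have h1 : ∑ χ : Irr G, N.a ψ χ.1 * B (fun k => χ.1 (DK.ι k)) θ.chi =
      ∑ χ ∈ Finset.univ.filter (fun χ : Irr G => B (fun k => χ.1 (DK.ι k)) θ.chi ≠ 0),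
        N.a ψ χ.1 * B (fun k => χ.1 (DK.ι k)) θ.chi := by
    symm
    refine Finset.sum_filter_of_ne fun χ _ h => ?_
    exact right_ne_zero_of_mul h
  rw [h1]
  symm
  refine Finset.sum_subtype _ ?_ (fun χ : Irr G => N.a ψ χ.1 * B (fun k => χ.1 (DK.ι k)) θ.chi)
  intro x
  simp

theorem fiber_equiv (N : Kernel DK DM θ φ Δ) :
    ∃ e : {χ : Irr G // B (fun k => χ.1 (DK.ι k)) θ.chi ≠ 0} ≃
      {ψ : Irr L // B (fun m => ψ.1 (DM.ι m)) φ.chi ≠ 0},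
      ∀ χ, ∃ c : ℕ, deg χ.1.1 = c * deg θ.chi ∧ deg (e χ).1.1 = c * deg φ.chi := by
  classical
  have iG : Fintype (Irr G) := Fintype.ofFinite _
  have iL : Fintype (Irr L) := Fintype.ofFinite _
  have iX : Fintype {χ : Irr G // B (fun k => χ.1 (DK.ι k)) θ.chi ≠ 0} := Fintype.ofFinite _
  have iY : Fintype {ψ : Irr L // B (fun m => ψ.1 (DM.ι m)) φ.chi ≠ 0} := Fintype.ofFinite _
  choose f hf using fun χ : {χ : Irr G // B (fun k => χ.1 (DK.ι k)) θ.chi ≠ 0} =>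
    fib_nat θ χ.1.2
  choose e he using fun ψ : {ψ : Irr L // B (fun m => ψ.1 (DM.ι m)) φ.chi ≠ 0} =>
    fib_nat φ ψ.1.2
  choose A hA using fun (ψ : {ψ : Irr L // B (fun m => ψ.1 (DM.ι m)) φ.chi ≠ 0})
    (χ : {χ : Irr G // B (fun k => χ.1 (DK.ι k)) θ.chi ≠ 0}) => N.a_nat ψ.1.2 χ.1.2
  have hfpos : ∀ χ, 0 < f χ := by
    intro χ
    refine Nat.pos_of_ne_zero fun h => χ.2 ?_
    rw [hf, h, Nat.cast_zero]
  have hepos : ∀ ψ, 0 < e ψ := by
    intro ψ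
    refine Nat.pos_of_ne_zero fun h => ψ.2 ?_
    rw [he, h, Nat.cast_zero]
  have h1 : ∀ ψ, ∑ χ, A ψ χ * f χ = e ψ := by
    intro ψ
    have h := fib_row N ψ.1.2
    rw [he] at h
    have h2 : ((∑ χ, A ψ χ * f χ : ℕ) : ℂ) = (e ψ : ℂ) := by
      rw [← h, Nat.cast_sum]
      refine Finset.sum_congr rfl fun χ _ => ?_
      rw [Nat.cast_mul, hA, hf]
    exact_mod_cast h2
  have h2 : ∀ χ, ∑ ψ, A ψ χ * e ψ = f χ := by
    intro χ
    have h := fib_row N.swap χ.1.2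
    rw [hf] at h
    have h2 : ((∑ ψ, A ψ χ * e ψ : ℕ) : ℂ) = (f χ : ℂ) := by
      rw [← h, Nat.cast_sum]
      refine Finset.sum_congr rfl fun ψ _ => ?_
      rw [Nat.cast_mul, ← hA, ← he, N.swap_a]
    exact_mod_cast h2
  obtain ⟨σ, hσ⟩ := exists_perm A f e hfpos hepos h1 h2
  refine ⟨σ, fun χ => ⟨(MulAction.stabilizer G θ).index * f χ, ?_, ?_⟩⟩
  · have h3 := clifford_degree DK θ χ.1.2 χ.2
    rw [hf, ← deg_cast χ.1.2, ← deg_cast θ.mem] at h3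
    have h4 : ((deg χ.1.1 : ℕ) : ℂ) =
        (((MulAction.stabilizer G θ).index * f χ * deg θ.chi : ℕ) : ℂ) := by
      rw [h3]
      push_cast
      ring
    exact_mod_cast h4
  · have h3 := clifford_degree DM φ (σ χ).1.2 (σ χ).2
    rw [he, hσ, ← deg_cast (σ χ).1.2, ← deg_cast φ.mem, ← N.ind] at h3
    have h4 : ((deg (σ χ).1.1 : ℕ) : ℂ) =
        (((MulAction.stabilizer G θ).index * f χ * deg φ.chi : ℕ) : ℂ) := by
      rw [h3]
      push_cast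
      ring
    exact_mod_cast h4

end Pool.Agent.Helper7.MK
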