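import Mathlib

/-!
# MK-10: Kronecker product of a finite family of matrices

`(piKron A) f g = ∏ i, A i (f i) (g i)`. Everything follows from `Finset.prod_univ_sum`
(`∏ i, ∑ j, F i j = ∑ f ∈ Fintype.piFinset .., ∏ i, F i (f i)`, with `Fintype.piFinset_univ`).
`piKron_one`: the product of `if f i = g i then 1 else 0` is 1 if `f = g` and 0 otherwise.
-/

namespace Pool.Agent.Helper7.MK

/-- the Kronecker product of a family of matrices -/
def piKron {ι : Type} [Fintype ι] {m : ι → Type} (A : ∀ i, Matrix (m i) (m i) ℂ) :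
    Matrix (∀ i, m i) (∀ i, m i) ℂ := fun f g => ∏ i, A i (f i) (g i)

variable {ι : Type} [Fintype ι] [DecidableEq ι] {m : ι → Type}

lemma piKron_mul [∀ i, Fintype (m i)] (A B : ∀ i, Matrix (m i) (m i) ℂ) :
    piKron A * piKron B = piKron (fun i => A i * B i) := by
  ext f g
  simp only [Matrix.mul_apply, piKron]
  rw [Finset.prod_univ_sum, Fintype.piFinset_univ]
  apply Finset.sum_congr rfl
  intro h _
  rw [← Finset.prod_mul_distrib]

lemma piKron_one [∀ i, DecidableEq (m i)] :
    piKron (fun i => (1 : Matrix (m i) (m i) ℂ)) = 1 := by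
  ext f g
  simp only [piKron, Matrix.one_apply]
  by_cases hfg : f = g
  · subst hfg
    simp
  · rw [if_neg hfg]
    obtain ⟨i, hi⟩ := Function.ne_iff.mp hfg
    exact Finset.prod_eq_zero (Finset.mem_univ i) (if_neg hi)

lemma trace_piKron [∀ i, Fintype (m i)] (A : ∀ i, Matrix (m i) (m i) ℂ) :
    (piKron A).trace = ∏ i, (A i).trace := by
  simp only [Matrix.trace, Matrix.diag, piKron]
  rw [Finset.prod_univ_sum, Fintype.piFinset_univ]

/-- Kronecker product as a homomorphism -/
def piKronHom [∀ i, Fintype (m i)] [∀ i, DecidableEq (m i)] {G : Type} [Group G]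
    (R : ∀ i, G →* Matrix (m i) (m i) ℂ) : G →* Matrix (∀ i, m i) (∀ i, m i) ℂ where
  toFun g := piKron (fun i => R i g)
  map_one' := by
    simp only [map_one]
    exact piKron_one
  map_mul' a b := by
    rw [piKron_mul]
    simp only [map_mul]

end Pool.Agent.Helper7.MK
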