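import Pool.Agent.Helper7.MK.CompDefs

/-!
# MK-28: the product setting of a component

Let `S` be a component of `K` (normal in `G`), `N ≤ G` with `K N = G`, `I = G ⧸ N_G(S)`.

Proof. `K ≤ N_G(S)` (`h.norm`; `mem_cj`, `Subgroup.mem_normalizer_iff`). Each coset `i` has a
representative `rep i ∈ N`: take any representative `g`; by `hN` and normality of `K` write `g = n k`
with `n ∈ N`, `k ∈ K ≤ N_G(S)`. `κ i x = rep i * x * (rep i)⁻¹`. For `g : G` and `i : I` put
`m = (rep (g • i))⁻¹ * g * rep i`; it is in `N_G(S)` since `g * rep i` and `rep (g • i)` represent the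
same coset (`MulAction.Quotient.smul_mk`, `QuotientGroup.eq`). `α g i` = conjugation with `m` on `S`
(`MulAut` of `↥S`). Then `κ (g • i) (α g i x) = rep (g•i) m x m⁻¹ (rep (g•i))⁻¹ = g (rep i x (rep i)⁻¹) g⁻¹`.
`comm`: `κ i` and `κ j` have images `cj (rep i) S`, `cj (rep j) S`; for `i ≠ j` we have
`cj ((rep i)⁻¹ * rep j) S ≠ S` (else `(rep i)⁻¹ * rep j ∈ N_G(S)`, so `i = j`), and `h.comm`
conjugated by `rep i`. `triv`: `κ i x ∈ K`, and `K` acts trivially on `G ⧸ N_G(S)`:
`k • gN_G(S) = g (g⁻¹ k g) N_G(S)`. `P.K = K`: the range of `μ` contains all `cj (rep i) S`, i.e. all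
conjugates of `S` (`cj g S` depends only on the coset of `g`), which generate `K` (`h.gen`); and it is
contained in `K` (`MonoidHom.noncommPiCoprod_range` or `Subgroup` closure arguments).
-/

namespace Pool.Agent.Helper7.MK

theorem exists_PS {G : Type} [Group G] [Finite G] (K S N : Subgroup G) [K.Normal]
    (h : Comp K S) (hN : K ⊔ N = ⊤) [Fintype (G ⧸ Subgroup.normalizer (S : Set G))] :
    ∃ (P : PS G S (G ⧸ Subgroup.normalizer (S : Set G)))
      (rep : G ⧸ Subgroup.normalizer (S : Set G) → G),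
      (∀ i, rep i ∈ N) ∧ (∀ i (x : S), P.κ i x = rep i * x * (rep i)⁻¹) ∧
      (∀ g i, (rep (g • i))⁻¹ * g * rep i ∈ Subgroup.normalizer (S : Set G)) ∧
      (∀ g i (x : S), (P.α g i x : G) =
        ((rep (g • i))⁻¹ * g * rep i) * x * ((rep (g • i))⁻¹ * g * rep i)⁻¹) ∧
      P.K = K := by
  have hKn : K.Normal := inferInstance
  have hmem : ∀ m : G, m ∈ Subgroup.normalizer (S : Set G) ↔ cj m S = S := by
    intro m
    rw [Subgroup.mem_normalizer_iff (H := S)]
    constructor
    · intro h1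
      ext x
      rw [mem_cj, h1 (m⁻¹ * x * m)]
      have : m * (m⁻¹ * x * m) * m⁻¹ = x := by group
      rw [this]
    · intro h1 x
      have h2 : m * x * m⁻¹ ∈ cj m S ↔ x ∈ S := by
        rw [mem_cj]
        have : m⁻¹ * (m * x * m⁻¹) * m = x := by group
        rw [this]
      rw [h1] at h2
      exact h2.symm
  have hK : K ≤ Subgroup.normalizer (S : Set G) := fun k hk => (hmem k).2 (h.norm k hk)
  -- representatives
  have hrep : ∀ i : G ⧸ Subgroup.normalizer (S : Set G), ∃ n ∈ N,
      (QuotientGroup.mk n : G ⧸ Subgroup.normalizer (S : Set G)) = i := by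
    intro i
    obtain ⟨g, rfl⟩ := QuotientGroup.mk_surjective i
    have h1 : g ∈ ((N ⊔ K : Subgroup G) : Set G) := by
      rw [sup_comm, hN]; exact Set.mem_univ _
    rw [Subgroup.mul_normal] at h1
    obtain ⟨n, hn, k, hk, hnk⟩ := Set.mem_mul.1 h1
    refine ⟨n, hn, ?_⟩
    rw [QuotientGroup.eq, ← hnk, inv_mul_cancel_left]
    exact hK hk
  choose rep hrepN hrepE using hrep
  have hm : ∀ (g : G) (i : G ⧸ Subgroup.normalizer (S : Set G)),
      (rep (g • i))⁻¹ * g * rep i ∈ Subgroup.normalizer (S : Set G) := by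
    intro g i
    have h1 : (QuotientGroup.mk (rep (g • i)) : G ⧸ Subgroup.normalizer (S : Set G)) =
        QuotientGroup.mk (g * rep i) := by
      rw [hrepE]
      nth_rewrite 1 [← hrepE i]
      rfl
    rw [QuotientGroup.eq] at h1
    rw [mul_assoc]
    exact h1
  have hcomm : Pairwise fun i j : G ⧸ Subgroup.normalizer (S : Set G) =>
      ∀ x y : S, Commute (((MulAut.conj (rep i)).toMonoidHom.comp S.subtype) x)
        (((MulAut.conj (rep j)).toMonoidHom.comp S.subtype) y) := by
    intro i j hij x y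
    have hne : cj ((rep i)⁻¹ * rep j) S ≠ S := by
      intro h1
      have h2 := (hmem _).2 h1
      rw [← QuotientGroup.eq, hrepE, hrepE] at h2
      exact hij h2
    have hX : (rep i)⁻¹ * (rep j * y * (rep j)⁻¹) * rep i ∈ cj ((rep i)⁻¹ * rep j) S := by
      rw [mem_cj]
      have : ((rep i)⁻¹ * rep j)⁻¹ * ((rep i)⁻¹ * (rep j * y * (rep j)⁻¹) * rep i) *
          ((rep i)⁻¹ * rep j) = (y : G) := by group
      rw [this]
      exact y.2
    have h3 := h.comm _ hne _ hX x x.2
    change (rep i * x * (rep i)⁻¹) * (rep j * y * (rep j)⁻¹) =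
      (rep j * y * (rep j)⁻¹) * (rep i * x * (rep i)⁻¹)
    calc (rep i * x * (rep i)⁻¹) * (rep j * y * (rep j)⁻¹) =
        rep i * (x * ((rep i)⁻¹ * (rep j * y * (rep j)⁻¹) * rep i)) * (rep i)⁻¹ := by group
      _ = rep i * ((rep i)⁻¹ * (rep j * y * (rep j)⁻¹) * rep i * x) * (rep i)⁻¹ := by rw [h3]
      _ = (rep j * y * (rep j)⁻¹) * (rep i * x * (rep i)⁻¹) := by group
  let P : PS G S (G ⧸ Subgroup.normalizer (S : Set G)) :=
    { κ := fun i => (MulAut.conj (rep i)).toMonoidHom.comp S.subtype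
      inj := fun i x y hxy => by
        have h1 := (MulAut.conj (rep i)).injective hxy
        exact Subtype.ext h1
      comm := hcomm
      α := fun g i => S.normalizerMonoidHom ⟨(rep (g • i))⁻¹ * g * rep i, hm g i⟩
      hα := fun g i x => by
        change rep (g • i) * (((rep (g • i))⁻¹ * g * rep i) * x *
          ((rep (g • i))⁻¹ * g * rep i)⁻¹) * (rep (g • i))⁻¹ =
          g * (rep i * x * (rep i)⁻¹) * g⁻¹
        group
      triv := fun i x j => by
        obtain ⟨b, rfl⟩ := QuotientGroup.mk_surjective j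
        change (QuotientGroup.mk ((rep i * x * (rep i)⁻¹) * b) :
          G ⧸ Subgroup.normalizer (S : Set G)) = QuotientGroup.mk b
        rw [QuotientGroup.eq]
        apply hK
        have h1 : rep i * (x : G) * (rep i)⁻¹ ∈ K := hKn.conj_mem _ (h.le x.2) _
        have h2 := hKn.conj_mem _ (K.inv_mem h1) b⁻¹
        rw [inv_inv] at h2
        have h3 : (rep i * (x : G) * (rep i)⁻¹ * b)⁻¹ * b =
            b⁻¹ * (rep i * (x : G) * (rep i)⁻¹)⁻¹ * b := by group
        rw [h3]
        exact h2 }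
  refine ⟨P, rep, hrepN, fun i x => rfl, hm, fun g i x => rfl, ?_⟩
  have hK1 : P.K = ⨆ i, (P.κ i).range := by
    change (MonoidHom.noncommPiCoprod P.κ P.comm).range = _
    exact MonoidHom.noncommPiCoprod_range _
  have hK2 : ∀ i, (P.κ i).range = cj (rep i) S := by
    intro i
    ext x
    rw [mem_cj]
    constructor
    · rintro ⟨y, rfl⟩
      change (rep i)⁻¹ * (rep i * (y : G) * (rep i)⁻¹) * rep i ∈ S
      have : (rep i)⁻¹ * (rep i * (y : G) * (rep i)⁻¹) * rep i = y := by group
      rw [this]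
      exact y.2
    · intro hx
      refine ⟨⟨_, hx⟩, ?_⟩
      change rep i * ((rep i)⁻¹ * x * rep i) * (rep i)⁻¹ = x
      group
  rw [hK1]
  simp only [hK2]
  rw [← h.gen]
  apply le_antisymm
  · exact iSup_le fun i => le_iSup (fun g => cj g S) (rep i)
  · refine iSup_le fun g => ?_
    have h1 : (QuotientGroup.mk (rep (QuotientGroup.mk g)) :
        G ⧸ Subgroup.normalizer (S : Set G)) = QuotientGroup.mk g := hrepE _
    rw [QuotientGroup.eq] at h1
    have h2 : cj g S = cj (rep (QuotientGroup.mk g)) S := by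
      have h3 : g = rep (QuotientGroup.mk g) * ((rep (QuotientGroup.mk g))⁻¹ * g) := by group
      nth_rewrite 1 [h3]
      rw [cj_mul, (hmem _).1 h1]
    rw [h2]
    exact le_iSup (fun i => cj (rep i) S) (QuotientGroup.mk g)

end Pool.Agent.Helper7.MK
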