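import Pool.Agent.Helper7.MK.Char

/-!
# MK-08: the kernel defined by a matched pair

`Δ = {(g, u) ∈ G × L : u ∈ stL K L θ, g u⁻¹ ∈ K}`, `p1 (g, u) = g`, `p2 (g, u) = u`,
`j1 k = (k, 1)`, `j2 t = (1, t)`. With `D`, `R` from `MatchedG` the map
`W (g, u) = D (g u⁻¹, 1) * R u` is a homomorphism `Δ →* Matrix n n ℂ`:
`D (g u⁻¹,1) R u D (g' u'⁻¹, 1) R u' = D (g u⁻¹, 1) D (u g' u'⁻¹ u⁻¹, 1) R u R u'
= D (g g' (u u')⁻¹, 1) R (u u')` (second property of `MatchedG` with `t = 1`). Put
`κ (g, u) = trace (W (g, u))` (`isChar_matrix`).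
`κ (k, 1) = trace (D (k, 1)) = θ(k) φ(1)`. `κ (1, t) = trace (D (t⁻¹, 1) * R t) =
trace (D (t⁻¹, 1) * D (t, t)) = trace (D (1, t)) = θ(1) φ(t⁻¹)` (third property).
`ker p1 = {(1, u) : u ∈ K ∩ L}` = range of `j2` (elements of `K ∩ L` lie in `stL` since `θ` is a
class function, `Irr.isClass`), `ker p2 = {(g, 1) : g ∈ K}` = range of `j1`.
`range p1 = {g : ∃ u ∈ stL, g u⁻¹ ∈ K}` is the stabilizer of `θ` in `G`: `K` fixes `θ`; conversely
write `g = k l` with `k ∈ K`, `l ∈ L` (`hKL`), `l` fixes `θ` if `g` does (and `g • θ = θ` iff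
`θ (g⁻¹ k g) = θ k` for all `k`). `range p2 = stL` = stabilizer of `φ` in `L` by `hst`. `ind`: the
stabilizer of `θ` in `G` is `K stL`, and `|G : K stL| = |L : stL|`, because `G = K L` and
`K ∩ L ≤ stL` (the action of `L` on the orbit of `θ` under `G` is transitive as `K` acts trivially;
orbit-stabilizer: the orbit of `θ` under `G` equals its orbit under `L`; or
`Subgroup.relIndex`/`index` computations).
-/

namespace Pool.Agent.Helper7.MK

open Pool.Agent.Helper42.INC

/-- a character of `K` as an element of `IrrX` -/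
def toX {G K : Type} [Group G] [Group K] [Finite G] [Finite K] (D : NP K G) {p : ℕ}
    (θ : IrrP p K) : IrrX D := ⟨θ.1, θ.2.1⟩

private theorem mk8_stab {G K : Type} [Group G] [Group K] [Finite G] [Finite K] (D : NP K G)
    {p : ℕ} (θ : IrrP p K) (g : G) :
    g ∈ MulAction.stabilizer G (toX D θ) ↔ ∀ k, θ.1 (D.α g k) = θ.1 k := by
  constructor
  · intro h k
    have h1 : g⁻¹ ∈ MulAction.stabilizer G (toX D θ) := inv_mem h
    have h2 : g⁻¹ • toX D θ = toX D θ := h1
    have h3 := congrArg (fun x : IrrX D => x.chi k) h2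
    simp only [IrrX.smul_chi, inv_inv] at h3
    exact h3
  · intro h
    have h1 : g⁻¹ ∈ MulAction.stabilizer G (toX D θ) := by
      rw [MulAction.mem_stabilizer_iff]
      apply IrrX.ext'
      funext k
      rw [IrrX.smul_chi, inv_inv]
      exact h k
    have h2 := inv_mem h1
    rwa [inv_inv] at h2

section

variable {G : Type} [Group G] (K L : Subgroup G) [hK : K.Normal] (θ : K → ℂ)

/-- the group of the kernel -/
private def mk8Δ : Subgroup (G × stL K L θ) where
  carrier := {x | x.1 * ((x.2 : L) : G)⁻¹ ∈ K}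
  one_mem' := by
    change (1 : G) * ((((1 : stL K L θ) : L) : G))⁻¹ ∈ K
    simp
  mul_mem' := by
    rintro a b ha hb
    change a.1 * b.1 * (((a.2 * b.2 : stL K L θ) : L) : G)⁻¹ ∈ K
    have e : a.1 * b.1 * (((a.2 * b.2 : stL K L θ) : L) : G)⁻¹ =
        (a.1 * (b.1 * ((b.2 : L) : G)⁻¹) * a.1⁻¹) * (a.1 * ((a.2 : L) : G)⁻¹) := by
      rw [Subgroup.coe_mul, Subgroup.coe_mul]
      group
    rw [e]
    exact K.mul_mem (hK.conj_mem _ hb _) ha
  inv_mem' := by
    rintro a ha
    change a.1⁻¹ * (((a.2⁻¹ : stL K L θ) : L) : G)⁻¹ ∈ K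
    have e : a.1⁻¹ * (((a.2⁻¹ : stL K L θ) : L) : G)⁻¹ =
        a.1⁻¹ * (a.1 * ((a.2 : L) : G)⁻¹)⁻¹ * a.1 := by
      rw [Subgroup.coe_inv, Subgroup.coe_inv]
      group
    rw [e]
    have := hK.conj_mem _ (K.inv_mem ha) a.1⁻¹
    rwa [inv_inv] at this

/-- the difference -/
private def mk8d (x : mk8Δ K L θ) : K := ⟨x.1.1 * ((x.1.2 : L) : G)⁻¹, x.2⟩

private theorem mk8d_coe (x : mk8Δ K L θ) : (mk8d K L θ x : G) = x.1.1 * ((x.1.2 : L) : G)⁻¹ := rfl

private theorem mk8d_mul (x y : mk8Δ K L θ) : mk8d K L θ (x * y) =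
    mk8d K L θ x * MulAut.conjNormal ((x.1.2 : L) : G) (mk8d K L θ y) := by
  apply Subtype.ext
  rw [Subgroup.coe_mul, MulAut.conjNormal_apply, mk8d_coe, mk8d_coe, mk8d_coe]
  change x.1.1 * y.1.1 * (((x.1.2 * y.1.2 : stL K L θ) : L) : G)⁻¹ = _
  rw [Subgroup.coe_mul, Subgroup.coe_mul]
  group

private theorem mk8_mem (hθ : IsClass θ) (t : L.subgroupOf K) :
    (npInter K L).ι t ∈ stL K L θ := by
  intro k
  have e : MulAut.conjNormal (((npInter K L).ι t : L) : G) k = (t : K) * k * (t : K)⁻¹ := by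
    apply Subtype.ext
    rw [MulAut.conjNormal_apply]
    rfl
  rw [e, hθ]

end

theorem exists_kernel {G : Type} [Group G] [Finite G] {p : ℕ} (K L : Subgroup G) [K.Normal]
    (hKL : K ⊔ L = ⊤) (θ : IrrP p K) (φ : IrrP p (L.subgroupOf K))
    (hst : ∀ l : L, (∀ k : K, θ.1 (MulAut.conjNormal (l : G) k) = θ.1 k) ↔
      (∀ t : L.subgroupOf K, φ.1 ((npInter K L).α l t) = φ.1 t))
    (h : MatchedG K L θ.1 φ.1) :
    ∃ (Δ : Type) (_ : Group Δ) (_ : Finite Δ),
      Nonempty (Kernel (NP.ofNormal K) (npInter K L) (toX _ θ) (toX _ φ) Δ) := by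
  classical
  obtain ⟨n, _, _, D, R, hD, hRD, hR⟩ := h
  have hcl : IsClass θ.1 := Irr.isClass θ.2.1
  have hstG : ∀ g : G, g ∈ MulAction.stabilizer G (toX (NP.ofNormal K) θ) ↔
      ∀ k, θ.1 (MulAut.conjNormal g k) = θ.1 k := fun g => mk8_stab (NP.ofNormal K) θ g
  have hstL : ∀ l : L, l ∈ MulAction.stabilizer L (toX (npInter K L) φ) ↔ l ∈ stL K L θ.1 := by
    intro l
    rw [mk8_stab, ← hst]
    rfl
  have hKst : ∀ k : K, (k : G) ∈ MulAction.stabilizer G (toX (NP.ofNormal K) θ) := by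
    intro k
    rw [hstG]
    intro k'
    have e : MulAut.conjNormal (k : G) k' = k * k' * k⁻¹ := by
      apply Subtype.ext
      rw [MulAut.conjNormal_apply]
      rfl
    rw [e, hcl]
  -- decomposition
  have hdec : ∀ g : G, ∃ k : K, ∃ l : L, g = k * l := by
    intro g
    have hg : g ∈ K ⊔ L := by rw [hKL]; trivial
    obtain ⟨k, hk, l, hl, rfl⟩ := Subgroup.mem_sup_of_normal_left.1 hg
    exact ⟨⟨k, hk⟩, ⟨l, hl⟩, rfl⟩
  let W : mk8Δ K L θ.1 →* Matrix n n ℂ :=
    { toFun := fun x => D (mk8d K L θ.1 x, 1) * R x.1.2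
      map_one' := by
        have e : mk8d K L θ.1 1 = 1 := by
          apply Subtype.ext
          change (1 : G) * ((((1 : stL K L θ.1) : L) : G))⁻¹ = 1
          simp
        rw [e]
        change D 1 * R 1 = 1
        rw [map_one, map_one, mul_one]
      map_mul' := by
        intro x y
        have e1 : R x.1.2 * D (mk8d K L θ.1 y, 1) =
            D (MulAut.conjNormal ((x.1.2 : L) : G) (mk8d K L θ.1 y), 1) * R x.1.2 := by
          rw [hRD, map_one]
        have e3 : ((mk8d K L θ.1 (x * y), (1 : L.subgroupOf K)) : K × (L.subgroupOf K)) =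
            (mk8d K L θ.1 x, 1) *
            (MulAut.conjNormal ((x.1.2 : L) : G) (mk8d K L θ.1 y), 1) := by
          rw [Prod.mk_mul_mk, mul_one, mk8d_mul]
        have e4 : R (x * y).1.2 = R x.1.2 * R y.1.2 := by
          rw [← map_mul]; rfl
        rw [e3, map_mul, e4]
        calc _ = D (mk8d K L θ.1 x, 1) *
              (D (MulAut.conjNormal ((x.1.2 : L) : G) (mk8d K L θ.1 y), 1) *
              R x.1.2) * R y.1.2 := by simp only [mul_assoc]
          _ = D (mk8d K L θ.1 x, 1) *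
              (R x.1.2 * D (mk8d K L θ.1 y, 1)) * R y.1.2 := by rw [e1]
          _ = _ := by simp only [mul_assoc] }
  refine ⟨mk8Δ K L θ.1, inferInstance, inferInstance, ⟨{
    p1 := (MonoidHom.fst _ _).comp (mk8Δ K L θ.1).subtype
    p2 := (stL K L θ.1).subtype.comp ((MonoidHom.snd _ _).comp (mk8Δ K L θ.1).subtype)
    j1 := 
      { toFun := fun k => ⟨(k, 1), by
          change (k : G) * ((((1 : stL K L θ.1) : L) : G))⁻¹ ∈ K
          simp⟩
        map_one' := rfl
        map_mul' := fun a b => by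
          apply Subtype.ext
          apply Prod.ext
          · rfl
          · exact (mul_one _).symm }
    j2 := 
      { toFun := fun t => ⟨(1, ⟨(npInter K L).ι t, mk8_mem K L θ.1 hcl t⟩), by
          change (1 : G) * (((npInter K L).ι t : L) : G)⁻¹ ∈ K
          rw [one_mul]
          exact K.inv_mem t.1.2⟩
        map_one' := rfl
        map_mul' := fun a b => by
          apply Subtype.ext
          apply Prod.ext
          · exact (mul_one _).symm
          · rfl }
    p1j1 := fun k => rfl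
    p2j1 := fun k => rfl
    p1j2 := fun k => rfl
    p2j2 := fun k => rfl
    ker1 := ?_
    ker2 := ?_
    range1 := ?_
    range2 := ?_
    ind := ?_
    κ := fun x => (W x).trace
    char := isChar_matrix W
    κ1 := ?_
    κ2 := ?_ }⟩⟩
  · ext x
    constructor
    · intro hx
      have hx1 : x.1.1 = 1 := hx
      have hx2 := x.2
      change x.1.1 * ((x.1.2 : L) : G)⁻¹ ∈ K at hx2
      rw [hx1, one_mul] at hx2
      have hx3 : ((x.1.2 : L) : G) ∈ K := by
        have := K.inv_mem hx2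
        rwa [inv_inv] at this
      refine ⟨⟨⟨((x.1.2 : L) : G), hx3⟩, (x.1.2 : L).2⟩, ?_⟩
      apply Subtype.ext
      apply Prod.ext
      · exact hx1.symm
      · rfl
    · rintro ⟨t, rfl⟩
      rfl
  · ext x
    constructor
    · intro hx
      have hx1 : (x.1.2 : L) = 1 := hx
      have hx2 := x.2
      change x.1.1 * ((x.1.2 : L) : G)⁻¹ ∈ K at hx2
      rw [hx1] at hx2
      have hx3 : x.1.1 ∈ K := by simpa using hx2
      refine ⟨⟨x.1.1, hx3⟩, ?_⟩
      apply Subtype.ext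
      apply Prod.ext
      · rfl
      · exact (Subtype.ext hx1).symm
    · rintro ⟨t, rfl⟩
      rfl
  · ext g
    constructor
    · rintro ⟨x, rfl⟩
      change x.1.1 ∈ _
      have e : x.1.1 = (x.1.1 * ((x.1.2 : L) : G)⁻¹) * ((x.1.2 : L) : G) := by group
      rw [e]
      refine mul_mem (hKst ⟨_, x.2⟩) ?_
      rw [hstG]
      exact x.1.2.2
    · intro hg
      obtain ⟨k, l, rfl⟩ := hdec g
      have hl : (l : G) ∈ MulAction.stabilizer G (toX (NP.ofNormal K) θ) := by
        have := mul_mem (inv_mem (hKst k)) hg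
        simpa using this
      rw [hstG] at hl
      refine ⟨⟨(k * l, ⟨l, hl⟩), ?_⟩, rfl⟩
      change (k : G) * l * (l : G)⁻¹ ∈ K
      simp
  · ext l
    rw [hstL]
    constructor
    · rintro ⟨x, rfl⟩
      exact x.1.2.2
    · intro hl
      refine ⟨⟨((l : G), ⟨l, hl⟩), ?_⟩, rfl⟩
      change (l : G) * (l : G)⁻¹ ∈ K
      simp
  · have e1 : MulAction.stabilizer L (toX (npInter K L) φ) =
        MulAction.stabilizer L (toX (NP.ofNormal K) θ) := by
      ext l
      rw [hstL]
      have e2 : l ∈ MulAction.stabilizer L (toX (NP.ofNormal K) θ) ↔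
        (l : G) ∈ MulAction.stabilizer G (toX (NP.ofNormal K) θ) := Iff.rfl
      rw [e2, hstG]
      rfl
    rw [e1, MulAction.index_stabilizer, MulAction.index_stabilizer]
    congr 1
    ext y
    constructor
    · rintro ⟨g, rfl⟩
      obtain ⟨k, l, hkl⟩ := hdec g⁻¹
      have e3 : g = (l : G)⁻¹ * (k : G)⁻¹ := by
        rw [← mul_inv_rev, ← hkl, inv_inv]
      refine ⟨l⁻¹, ?_⟩
      change ((l⁻¹ : L) : G) • toX (NP.ofNormal K) θ = g • toX (NP.ofNormal K) θ
      rw [e3, mul_smul]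
      have h5 : (k : G)⁻¹ • toX (NP.ofNormal K) θ = toX (NP.ofNormal K) θ := inv_mem (hKst k)
      rw [h5]
      rfl
    · rintro ⟨l, rfl⟩
      exact ⟨(l : G), rfl⟩
  · intro k
    change (D (mk8d K L θ.1 _, 1) * R 1).trace = _
    rw [map_one, mul_one, hD, inv_one]
    have e : mk8d K L θ.1 ⟨(k, 1), by
          change (k : G) * ((((1 : stL K L θ.1) : L) : G))⁻¹ ∈ K
          simp⟩ = k := by
      apply Subtype.ext
      rw [mk8d_coe]
      change (k : G) * ((((1 : stL K L θ.1) : L) : G))⁻¹ = k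
      simp
    exact congrArg (fun z => θ.1 z * φ.1 1) e
  · intro t
    change (D (mk8d K L θ.1 _, 1) * R _).trace = _
    rw [hR _ t rfl, ← map_mul, Prod.mk_mul_mk, hD]
    have e : mk8d K L θ.1 ⟨(1, ⟨(npInter K L).ι t, mk8_mem K L θ.1 hcl t⟩), by
          change (1 : G) * (((npInter K L).ι t : L) : G)⁻¹ ∈ K
          rw [one_mul]
          exact K.inv_mem t.1.2⟩ * (t : K) = 1 := by
      apply Subtype.ext
      rw [Subgroup.coe_mul, mk8d_coe]
      change (1 : G) * (t.1.1)⁻¹ * t.1.1 = 1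
      group
    have e' : (1 * t)⁻¹ = t⁻¹ := by rw [one_mul]
    rw [e']
    exact congrArg (fun z => θ.1 z * φ.1 t⁻¹) e

end Pool.Agent.Helper7.MK
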