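import Mathlib

/-!
# MK-18: representatives of orbits

Proof: `o i = (Quotient.mk (MulAction.orbitRel U I) i).out`, `Quotient.mk_out`/`orbitRel_apply`
gives `o i ∈ orbit U i`, hence `i ∈ orbit U (o i)`, choose `t i`. `o (u • i) = o i` since the
classes of `u • i` and `i` are equal.
-/

namespace Pool.Agent.Helper7.MK

lemma exists_orbRep (U I : Type) [Group U] [MulAction U I] :
    ∃ (o : I → I) (t : I → U), (∀ i, t i • o i = i) ∧ ∀ (u : U) (i : I), o (u • i) = o i := by
  let o : I → I := fun i => (Quotient.mk (MulAction.orbitRel U I) i).out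
  have h1 : ∀ i, ∃ t : U, t • o i = i := by
    intro i
    have h2 : (MulAction.orbitRel U I) (o i) i := Quotient.mk_out (s := MulAction.orbitRel U I) i
    rw [MulAction.orbitRel_apply] at h2
    obtain ⟨g, hg⟩ := h2
    refine ⟨g⁻¹, ?_⟩
    rw [← hg]
    exact inv_smul_smul g i
  choose t ht using h1
  refine ⟨o, t, ht, fun u i => ?_⟩
  have h3 : Quotient.mk (MulAction.orbitRel U I) (u • i) = Quotient.mk (MulAction.orbitRel U I) i :=
    Quotient.sound (MulAction.orbitRel_apply.2 ⟨u, rfl⟩)
  change (Quotient.mk (MulAction.orbitRel U I) (u • i)).out = _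
  rw [h3]

end Pool.Agent.Helper7.MK
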