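import Pool.Agent.Helper7.MK.Cliff

/-!
# MK-07: counting over representatives of orbits

Proof: as in `INC.cnt_clifford`, but with the set of `χ ∈ Irr G` lying over `θ` instead of `FibG`.
The map `(r, χ) ↦ χ` from `Σ r, {χ : Irr G // B (χ∘ι) (lam r) ≠ 0 ∧ (deg χ)² = s}` to
`{χ : Irr G // (deg χ)² = s}` is a bijection (then `Nat.card_sigma`):
injective: if the same `χ` lies over `lam r` and `lam r'` then `lam r = x • lam r'`
(`clifford_orbit`), so `r = r'` by `h1`. Surjective: by `INC.exists_theta` there is `θ` with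
`B (χ∘ι) θ ≠ 0`; `deg θ` is not divisible by `p`, because
`χ(1) = index * θ(1) * B (χ∘ι) θ` (`clifford_degree`; `B` is a natural number by `INC.B_char`, all
natural numbers) and `(deg χ)² = s ≠ 0` in `ZMod p`; so `θ = x • lam r` by `h2` and `χ` lies over
`lam r` by `INC.B_smul_chi`.
-/

namespace Pool.Agent.Helper7.MK

open Pool.Agent.Helper42.INC

private lemma h86orb_nat {G K : Type} [Group G] [Group K] [Finite G] [Finite K] (D : NP K G)
    (θ : IrrX D) {χ : G → ℂ} (hχ : χ ∈ Irr G) :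
    ∃ n : ℕ, B (fun k => χ (D.ι k)) θ.chi = n := by
  obtain ⟨V, _, _, _, ρ, hρ, rfl⟩ := hχ
  obtain ⟨n, hn⟩ := B_char (ρ.comp D.ι) θ.rep
  refine ⟨n, ?_⟩
  rw [← hn, IrrX.char_rep]
  rfl

private lemma h86orb_deg {G K : Type} [Group G] [Group K] [Finite G] [Finite K] (D : NP K G)
    {p : ℕ} [Fact p.Prime] (θ : IrrX D) {χ : G → ℂ} (hχ : χ ∈ Irr G)
    (h : B (fun k => χ (D.ι k)) θ.chi ≠ 0) {s : ZMod p} (hs : s ≠ 0)
    (hd : (deg χ : ZMod p) ^ 2 = s) : ¬ p ∣ deg θ.chi := by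
  intro hp
  obtain ⟨n, hn⟩ := h86orb_nat D θ hχ
  have h1 := clifford_degree D θ hχ h
  rw [hn, ← deg_cast hχ, ← deg_cast θ.mem] at h1
  have h2 : deg χ = (MulAction.stabilizer G θ).index * deg θ.chi * n := by exact_mod_cast h1
  apply hs
  rw [← hd]
  have h3 : (deg χ : ZMod p) = 0 := by
    rw [ZMod.natCast_eq_zero_iff, h2]
    exact Dvd.dvd.mul_right (Dvd.dvd.mul_left hp _) _
  rw [h3]
  simp

lemma cnt_eq_sum {G K : Type} [Group G] [Group K] [Finite G] [Finite K] (D : NP K G) {p : ℕ}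
    [Fact p.Prime] (R : Type) [Fintype R] (lam : R → IrrX D)
    (h1 : ∀ r r' (x : G), lam r = x • lam r' → r = r')
    (h2 : ∀ θ : IrrX D, ¬ p ∣ deg θ.chi → ∃ r, ∃ x : G, θ = x • lam r)
    (s : ZMod p) (hs : s ≠ 0) :
    cnt p G s = ∑ r, Nat.card {χ : Irr G // B (fun k => χ.1 (D.ι k)) (lam r).chi ≠ 0 ∧
      (deg χ.1 : ZMod p) ^ 2 = s} := by
  rw [← Nat.card_sigma]
  unfold cnt
  symm
  refine Nat.card_congr (Equiv.ofBijective
    (fun y : (Σ r, {χ : Irr G // B (fun k => χ.1 (D.ι k)) (lam r).chi ≠ 0 ∧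
      (deg χ.1 : ZMod p) ^ 2 = s}) => (⟨y.2.1, y.2.2.2⟩ :
        {χ : Irr G // (deg χ.1 : ZMod p) ^ 2 = s})) ⟨?_, ?_⟩)
  · rintro ⟨r, ψ⟩ ⟨r', ψ'⟩ he
    have he' : ψ.1 = ψ'.1 :=
      congrArg (fun t : {χ : Irr G // (deg χ.1 : ZMod p) ^ 2 = s} => t.1) he
    have hr : r = r' := by
      obtain ⟨x, hx⟩ := clifford_orbit D (lam r) (lam r') ψ.1.2 ψ.2.1 (by
        rw [he']; exact ψ'.2.1)
      exact h1 r r' x hx
    subst hr
    congr 1
    exact Subtype.ext he'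
  · rintro ⟨χ, hdeg⟩
    obtain ⟨θ, hθ⟩ := exists_theta (D := D) χ.2
    obtain ⟨r, x, hx⟩ := h2 θ (h86orb_deg D θ χ.2 hθ hs hdeg)
    refine ⟨⟨r, ⟨χ, ?_, hdeg⟩⟩, rfl⟩
    rw [← B_smul_chi (Irr.isClass χ.2) x, ← hx]
    exact hθ

end Pool.Agent.Helper7.MK
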