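import Pool.Agent.Helper7.MK.Defs

/-!
# The product setting: commuting copies of a group `K0`, permuted by `G`
-/

namespace Pool.Agent.Helper7.MK

open Pool.Agent.Helper42.INC

/-- The product setting: `G` acts on the finite set `I`, there are injective homomorphisms
`κ i : K0 → G` with pairwise commuting images, permuted by `G` according to the action on `I`
through automorphisms `α g i` of `K0`; the images of the `κ i` act trivially on `I`. -/
structure PS (G : Type) [Group G] (K0 I : Type) [Group K0] [MulAction G I] where
  κ : I → K0 →* G
  inj : ∀ i, Function.Injective (κ i)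
  comm : Pairwise fun i j => ∀ x y, Commute (κ i x) (κ j y)
  α : G → I → MulAut K0
  hα : ∀ g i x, κ (g • i) (α g i x) = g * κ i x * g⁻¹
  triv : ∀ i x (j : I), κ i x • j = j

variable {G : Type} [Group G] {K0 I : Type} [Group K0] [MulAction G I] [Fintype I]

/-- the multiplication map -/
noncomputable def PS.μ (S : PS G K0 I) : (I → K0) →* G := MonoidHom.noncommPiCoprod S.κ S.comm

/-- the product of the copies -/
noncomputable def PS.K (S : PS G K0 I) : Subgroup G := S.μ.range

/-- the stabilizer of the family of copies of `T0` -/
def PS.L (S : PS G K0 I) (T0 : Subgroup K0) : Subgroup G where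
  carrier := {g | ∀ i x, S.α g i x ∈ T0 ↔ x ∈ T0}
  one_mem' := by
    intro i x
    have h : S.α 1 i x = x := by
      apply S.inj i
      have h2 := S.hα 1 i x
      rw [one_mul, inv_one, mul_one] at h2
      simpa only [one_smul] using h2
    rw [h]
  mul_mem' := by
    intro a b ha hb i x
    have h : S.α (a * b) i x = S.α a (b • i) (S.α b i x) := by
      apply S.inj ((a * b) • i)
      have h2 := S.hα (a * b) i x
      have h3 := S.hα a (b • i) (S.α b i x)
      rw [S.hα b i x] at h3
      rw [h2, mul_smul, h3]
      group
    rw [h, ha, hb]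
  inv_mem' := by
    intro a ha i x
    have h : S.α a (a⁻¹ • i) (S.α a⁻¹ i x) = x := by
      apply S.inj i
      have h2 := S.hα a (a⁻¹ • i) (S.α a⁻¹ i x)
      rw [S.hα a⁻¹ i x] at h2
      have h3 : a • a⁻¹ • i = i := smul_inv_smul a i
      rw [h3] at h2
      rw [h2]
      group
    rw [← ha (a⁻¹ • i), h]

end Pool.Agent.Helper7.MK
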