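import Pool.Agent.Helper7.MK.PS

/-!
# MK-14: basic facts about the product setting

* `μ_single`: `MonoidHom.noncommPiCoprod_mulSingle`.
* `α_mul`, `α_one`: injectivity of `κ` and `hα` (see the proofs in `PS.L`).
* `act_smul`: `g⁻¹ • g • i = i` (rewrite; `S.act g k (g • i)` unfolds to
  `S.α g (g⁻¹ • g • i) (k (g⁻¹ • g • i))`; use `inv_smul_smul` with `congr`/`rw` under a `show`).
* `conj_μ`: both sides are homomorphisms of `k : I → K0` (the right one because `S.α g i` are
  automorphisms: `act g (k k') = act g k * act g k'`); check on `Pi.mulSingle i x`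
  (`MonoidHom.pi_ext`): `act g (mulSingle i x) = mulSingle (g • i) (α g i x)`, and `hα`.
* `μ_smul`: the set of `k` with `μ k • j = j` for all `j` is a subgroup containing all
  `mulSingle i x` (`triv`); or induction over the product (`Subgroup.closure`/`pi_induction`:
  every `k` is a product of `mulSingle`s; the kernel of `(MulAction.toPermHom G I).comp S.μ` is
  everything by `MonoidHom.pi_ext`).
* `conj_κ`: `μ k κ_i(x) (μ k)⁻¹ = κ_i(k_i x k_i⁻¹)`: from `conj_μ` or: both sides are
  multiplicative in `k`, and for `k = mulSingle j y` use `comm` if `j ≠ i`. (Induction as above: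
  consider the homomorphism `k ↦ MulAut.conj (μ k)` restricted ... ; or write
  `μ k = μ (mulSingle i (k i)) * μ (k with i-th component 1)` and use
  `MonoidHom.commute_noncommPiCoprod`-type lemma.)
* `α_μ`: `κ_i (α (μ k) i x) = μ k κ_i(x) (μ k)⁻¹ = κ_i (k_i x k_i⁻¹)` by `hα`, `μ_smul`, `conj_κ`;
  injectivity of `κ i`. (Careful: `κ (μ k • i)`; rewrite `μ_smul` first.)
* `normal`: `conj_μ`.
* `ker_central`: `α_μ` with `μ k = 1` and `α_one`.
* `μ_mem_L`: by `α_μ`, `μ k ∈ L T0` iff `∀ i x, k_i x k_i⁻¹ ∈ T0 ↔ x ∈ T0`.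
-/

namespace Pool.Agent.Helper7.MK

open Pool.Agent.Helper42.INC

variable {G : Type} [Group G] {K0 I : Type} [Group K0] [MulAction G I] [Fintype I]
  (S : PS G K0 I)

/-- the action of `G` on tuples -/
def PS.act (g : G) (k : I → K0) : I → K0 := fun j => S.α g (g⁻¹ • j) (k (g⁻¹ • j))

lemma PS.μ_single [DecidableEq I] (i : I) (x : K0) : S.μ (Pi.mulSingle i x) = S.κ i x := by
  unfold PS.μ
  exact MonoidHom.noncommPiCoprod_mulSingle _ _ _

lemma PS.α_mul (a b : G) (i : I) (x : K0) :
    S.α (a * b) i x = S.α a (b • i) (S.α b i x) := by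
  apply S.inj ((a * b) • i)
  have h2 := S.hα (a * b) i x
  have h3 := S.hα a (b • i) (S.α b i x)
  rw [S.hα b i x] at h3
  rw [h2, mul_smul, h3]
  group

lemma PS.α_one (i : I) (x : K0) : S.α 1 i x = x := by
  apply S.inj i
  have h2 := S.hα 1 i x
  rw [one_mul, inv_one, mul_one] at h2
  simpa only [one_smul] using h2

lemma PS.act_smul (g : G) (k : I → K0) (i : I) : S.act g k (g • i) = S.α g i (k i) := by
  simp only [PS.act, inv_smul_smul]

/-- the action as a homomorphism -/
def PS.actHom (g : G) : (I → K0) →* (I → K0) where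
  toFun := S.act g
  map_one' := by
    funext j
    simp [PS.act]
  map_mul' a b := by
    funext j
    simp [PS.act]

lemma PS.act_mulSingle [DecidableEq I] (g : G) (i : I) (x : K0) :
    S.act g (Pi.mulSingle i x) = Pi.mulSingle (g • i) (S.α g i x) := by
  funext j
  by_cases h : j = g • i
  · subst h
    rw [S.act_smul, Pi.mulSingle_eq_same, Pi.mulSingle_eq_same]
  · have h' : g⁻¹ • j ≠ i := by
      intro h0
      apply h
      rw [← h0, smul_inv_smul]
    rw [Pi.mulSingle_eq_of_ne h]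
    unfold PS.act
    rw [Pi.mulSingle_eq_of_ne h', map_one]

lemma PS.conj_μ (g : G) (k : I → K0) : g * S.μ k * g⁻¹ = S.μ (S.act g k) := by
  classical
  have h : (MulAut.conj g).toMonoidHom.comp S.μ = S.μ.comp (S.actHom g) := by
    apply MonoidHom.pi_ext
    intro i x
    change g * S.μ (Pi.mulSingle i x) * g⁻¹ = S.μ (S.act g (Pi.mulSingle i x))
    rw [S.act_mulSingle, S.μ_single, S.μ_single, S.hα]
  exact DFunLike.congr_fun h k

lemma PS.μ_smul (k : I → K0) (i : I) : S.μ k • i = i := by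
  classical
  have h : (MulAction.toPermHom G I).comp S.μ = 1 := by
    apply MonoidHom.pi_ext
    intro j x
    apply Equiv.ext
    intro l
    change S.μ (Pi.mulSingle j x) • l = l
    rw [S.μ_single, S.triv]
  have h2 := DFunLike.congr_fun h k
  exact Equiv.congr_fun h2 i

lemma PS.conj_κ (k : I → K0) (i : I) (x : K0) :
    S.μ k * S.κ i x * (S.μ k)⁻¹ = S.κ i (k i * x * (k i)⁻¹) := by
  classical
  rw [← S.μ_single, ← S.μ_single, ← map_mul, ← map_inv, ← map_mul]
  congr 1
  funext j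
  by_cases h : j = i
  · subst h
    simp
  · simp [Pi.mulSingle_eq_of_ne h]

lemma PS.α_μ (k : I → K0) (i : I) (x : K0) : S.α (S.μ k) i x = k i * x * (k i)⁻¹ := by
  apply S.inj i
  have h := S.hα (S.μ k) i x
  rw [S.μ_smul, S.conj_κ] at h
  exact h

instance PS.normal : S.K.Normal := by
  constructor
  rintro _ ⟨k, rfl⟩ g
  exact ⟨S.act g k, (S.conj_μ g k).symm⟩

lemma PS.ker_central (k : I → K0) (h : S.μ k = 1) (i : I) : k i ∈ Subgroup.center K0 := by
  rw [Subgroup.mem_center_iff]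
  intro x
  have h1 := S.α_μ k i x
  rw [h, S.α_one] at h1
  rw [eq_mul_inv_iff_mul_eq] at h1
  exact h1

lemma PS.μ_mem_of (T0 : Subgroup K0) (k : I → K0) (h : ∀ i, k i ∈ T0) : S.μ k ∈ S.L T0 := by
  intro i x
  rw [S.α_μ]
  constructor
  · intro hx
    have h1 := T0.mul_mem (T0.mul_mem (T0.inv_mem (h i)) hx) (h i)
    have h2 : (k i)⁻¹ * (k i * x * (k i)⁻¹) * k i = x := by group
    rwa [h2] at h1
  · intro hx
    exact T0.mul_mem (T0.mul_mem (h i) hx) (T0.inv_mem (h i))

lemma PS.μ_mem_L (T0 : Subgroup K0)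
    (hT : ∀ x : K0, (∀ y, x * y * x⁻¹ ∈ T0 ↔ y ∈ T0) → x ∈ T0) (k : I → K0) :
    S.μ k ∈ S.L T0 ↔ ∀ i, k i ∈ T0 := by
  constructor
  · intro h i
    apply hT
    intro y
    have h1 := h i y
    rwa [S.α_μ] at h1
  · exact S.μ_mem_of T0 k

/-- the multiplication map onto `K` -/
noncomputable def PS.μK : (I → K0) →* S.K := S.μ.rangeRestrict

lemma PS.μK_coe (k : I → K0) : (S.μK k : G) = S.μ k := rfl

lemma PS.μK_surjective : Function.Surjective S.μK := S.μ.rangeRestrict_surjective

/-- the multiplication map onto `K ∩ L` -/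
noncomputable def PS.μT (T0 : Subgroup K0) : (I → T0) →* (S.L T0).subgroupOf S.K where
  toFun t := ⟨S.μK (fun i => (t i : K0)), S.μ_mem_of T0 _ (fun i => (t i).2)⟩
  map_one' := by
    apply Subtype.ext
    exact map_one S.μK
  map_mul' a b := by
    apply Subtype.ext
    exact map_mul S.μK (fun i => (a i : K0)) (fun i => (b i : K0))

lemma PS.μT_coe (T0 : Subgroup K0) (t : I → T0) :
    ((S.μT T0 t : S.K) : G) = S.μ (fun i => (t i : K0)) := rfl

lemma PS.μT_surjective (T0 : Subgroup K0)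
    (hT : ∀ x : K0, (∀ y, x * y * x⁻¹ ∈ T0 ↔ y ∈ T0) → x ∈ T0) :
    Function.Surjective (S.μT T0) := by
  rintro ⟨⟨_, k, rfl⟩, h⟩
  have h1 := (S.μ_mem_L T0 hT k).1 h
  exact ⟨fun i => ⟨k i, h1 i⟩, rfl⟩

end Pool.Agent.Helper7.MK
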