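import Pool.Agent.Helper7.MK.PiIrr

/-!
# MK-12: characters of a quotient of a power by a central subgroup

Let `μ : (I → H) →* X` be surjective.
* `exists_tuple`: `χ ∘ μ ∈ Irr (I → H)` (`INC.irr_infl`), so it is a product `∏ θ i`
  (`prod_surjective`); `χ(1) = ∏ θ_i(1)` is prime to `p`, so each `θ i` is in `IrrP p H` (degrees
  are natural numbers, `irrP_iff` or the definition). (Take `x = 1`.)
* `tuple_unique`: `prod_injective`.
* `exists_of_tuple`: `η x = ∏ θ_i(x_i)` is irreducible (`irr_prod`). For `z` in the kernel (central)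
  `η (z x) η 1 = η z η x`: componentwise `θ (z x) θ 1 = θ z θ x` for central `z`
  (`INC.exists_central` applied to the inclusion of the center, or `central_mul` below), so
  `η (z x) = η x` by `hc` and `η 1 ≠ 0`. So `η` comes from `X` (`INC.inflEquiv` or `INC.irr_defl`);
  its degree `∏ θ_i(1)` is prime to `p` (`Prime.dvd_finset_prod_iff`).
-/

namespace Pool.Agent.Helper7.MK

open Pool.Agent.Helper42.INC

/-- central elements act by scalars -/
lemma central_mul {H : Type} [Group H] [Finite H] {χ : H → ℂ} (hχ : χ ∈ Irr H) {z : H}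
    (hz : z ∈ Subgroup.center H) (x : H) : χ (z * x) * χ 1 = χ z * χ x := by
  letI : CommGroup (Subgroup.center H) :=
    { (inferInstance : Group (Subgroup.center H)) with
      mul_comm := fun a b => Subtype.ext (Subgroup.mem_center_iff.1 b.2 a) }
  obtain ⟨ν, hν⟩ := exists_central (C := Subgroup.center H) (Subgroup.center H).subtype
    (fun c => c.2) hχ
  have h1 : χ (z * x) = (ν ⟨z, hz⟩ : ℂ) * χ x := hν ⟨z, hz⟩ x
  have h2 : χ z = (ν ⟨z, hz⟩ : ℂ) * χ 1 := by
    have := hν ⟨z, hz⟩ 1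
    rwa [mul_one] at this
  rw [h1, h2]
  ring

variable {I H X : Type} [Fintype I] [Group H] [Finite H] [Group X] [Finite X] {p : ℕ}
  [Fact p.Prime]

lemma exists_tuple (μ : (I → H) →* X) (hμ : Function.Surjective μ) (χ : IrrP p X) :
    ∃ θ : I → IrrP p H, ∀ x, χ.1 (μ x) = ∏ i, (θ i).1 (x i) := by
  obtain ⟨θ, hθ⟩ := prod_surjective _ (irr_infl μ hμ χ.2.1)
  obtain ⟨n, hn, hpn⟩ := χ.2.2
  have hprod : (n : ℂ) = ((∏ i, deg (θ i).1 : ℕ) : ℂ) := by
    rw [← hn]
    have h1 := hθ 1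
    rw [map_one] at h1
    rw [h1]
    push_cast
    apply Finset.prod_congr rfl
    intro i _
    rw [deg_cast (θ i).2]
    rfl
  have hprod' : n = ∏ i, deg (θ i).1 := by exact_mod_cast hprod
  refine ⟨fun i => ⟨(θ i).1, (θ i).2, deg (θ i).1, (deg_cast (θ i).2).symm, ?_⟩, hθ⟩
  intro hdvd
  apply hpn
  rw [hprod']
  exact hdvd.trans (Finset.dvd_prod_of_mem _ (Finset.mem_univ i))

lemma tuple_unique (θ θ' : I → IrrP p H)
    (h : ∀ x : I → H, ∏ i, (θ i).1 (x i) = ∏ i, (θ' i).1 (x i)) : θ = θ' := by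
  have h1 := prod_injective (fun i => (⟨(θ i).1, (θ i).2.1⟩ : Irr H))
    (fun i => (⟨(θ' i).1, (θ' i).2.1⟩ : Irr H)) h
  funext i
  apply Subtype.ext
  have h2 := congrFun h1 i
  exact congrArg (fun t : Irr H => t.1) h2

lemma exists_of_tuple (μ : (I → H) →* X) (hμ : Function.Surjective μ)
    (hz : ∀ z, μ z = 1 → ∀ i, z i ∈ Subgroup.center H) (θ : I → IrrP p H)
    (hc : ∀ z, μ z = 1 → ∏ i, (θ i).1 (z i) = ∏ i, (θ i).1 1) :
    ∃ χ : IrrP p X, ∀ x, χ.1 (μ x) = ∏ i, (θ i).1 (x i) := by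
  have hη : (fun x : I → H => ∏ i, (θ i).1 (x i)) ∈ Irr (I → H) :=
    irr_prod (fun i => (⟨(θ i).1, (θ i).2.1⟩ : Irr H))
  have hne : ∀ i, (θ i).1 1 ≠ 0 := by
    intro i
    obtain ⟨n, hn0, hn⟩ := irr_one (θ i).2.1
    rw [hn]
    exact_mod_cast hn0.ne'
  have hker : ∀ k ∈ μ.ker, ∀ x : I → H,
      (∏ i, (θ i).1 ((k * x) i)) = ∏ i, (θ i).1 (x i) := by
    intro k hk x
    have hk' : μ k = 1 := hk
    have h1 : (∏ i, (θ i).1 ((k * x) i)) * ∏ i, (θ i).1 1 =
        (∏ i, (θ i).1 (k i)) * ∏ i, (θ i).1 (x i) := by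
      rw [← Finset.prod_mul_distrib, ← Finset.prod_mul_distrib]
      apply Finset.prod_congr rfl
      intro i _
      exact central_mul (θ i).2.1 (hz k hk' i) (x i)
    rw [hc k hk', mul_comm (∏ i, (θ i).1 1)] at h1
    exact mul_right_cancel₀ (Finset.prod_ne_zero_iff.2 (fun i _ => hne i)) h1
  obtain ⟨χ, hχ⟩ := (inflEquiv μ hμ).surjective ⟨⟨_, hη⟩, hker⟩
  have h1 : (fun x => χ.1 (μ x)) = fun x : I → H => ∏ i, (θ i).1 (x i) :=
    congrArg (fun t => t.1.1) hχ
  choose n hn hpn using fun i => (θ i).2.2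
  refine ⟨⟨χ.1, χ.2, ∏ i, n i, ?_, ?_⟩, fun x => congrFun h1 x⟩
  · have h2 := congrFun h1 1
    simp only [map_one, Pi.one_apply] at h2
    rw [h2]
    push_cast
    exact Finset.prod_congr rfl (fun i _ => hn i)
  · intro hdvd
    obtain ⟨i, _, hi⟩ := (Prime.dvd_finsetProd_iff (Fact.out : p.Prime).prime _).1 hdvd
    exact hpn i hi

end Pool.Agent.Helper7.MK
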