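import Pool.Agent.Helper7.MK.PSBasic
import Pool.Agent.Helper7.MK.Tuple

/-!
# MK-15: the bijection of characters for products

Proof. For `θ : IrrP p S.K` let `τ θ : I → IrrP p K0` be its tuple (`exists_tuple S.μK`, unique by
`tuple_unique`). For `z` with `S.μK z = 1` we have `∏ (τ_i)(z_i) = θ 1 = ∏ (τ_i)(1)`. The tuple
`F0 ∘ τ` satisfies the same condition for `S.μT`: let `w : I → T0` with `S.μT T0 w = 1`; then
`z = (w i : K0)` has `S.μ z = 1`, so `z_i` is central in `K0` (`PS.ker_central`), and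
`∏ τ_i(z_i) ∏ (F0 τ_i)(1) = ∏ τ_i(1) ∏ (F0 τ_i)(w_i)` by `hF0`; as `∏ τ_i(z_i) = ∏ τ_i(1) ≠ 0`
(`irr_one`) we get `∏ (F0 τ_i)(w_i) = ∏ (F0 τ_i)(1)`. So `exists_of_tuple (S.μT T0)` gives `F θ`
(`w_i` is central in `T0`). Inverse: same with `F0.symm` (if `μK z = 1` then `z_i ∈ center K0 ≤ T0`
by `hZ`, so `z` comes from `w : I → T0` with `S.μT T0 w = 1`). Both composites are the identity by
`tuple_unique` and surjectivity of `S.μK`, `S.μT T0` (`PS.μT_surjective`, `hT`).
Finite `S.K` etc.: `G` is finite.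
-/

namespace Pool.Agent.Helper7.MK

open Pool.Agent.Helper42.INC

theorem PS.exists_bij {G : Type} [Group G] [Finite G] {K0 I : Type} [Group K0] [Finite K0]
    [MulAction G I] [Fintype I] (S : PS G K0 I) (T0 : Subgroup K0)
    (hT : ∀ x : K0, (∀ y, x * y * x⁻¹ ∈ T0 ↔ y ∈ T0) → x ∈ T0)
    (hZ : Subgroup.center K0 ≤ T0) {p : ℕ} [Fact p.Prime] (F0 : IrrP p K0 ≃ IrrP p T0)
    (hF0 : ∀ (θ : IrrP p K0) (z : T0), (z : K0) ∈ Subgroup.center K0 →
      θ.1 z * (F0 θ).1 1 = θ.1 1 * (F0 θ).1 z) :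
    ∃ F : IrrP p S.K ≃ IrrP p ((S.L T0).subgroupOf S.K),
      ∀ (θ : IrrP p S.K) (τ : I → IrrP p K0), (∀ x, θ.1 (S.μK x) = ∏ i, (τ i).1 (x i)) →
        ∀ t : I → T0, (F θ).1 (S.μT T0 t) = ∏ i, (F0 (τ i)).1 (t i) := by
  have hKs := S.μK_surjective
  have hTs := S.μT_surjective T0 hT
  have hne : ∀ {H : Type} [Group H] [Finite H] (θ : I → IrrP p H), (∏ i, (θ i).1 1) ≠ 0 := by
    intro H _ _ θ
    rw [Finset.prod_ne_zero_iff]
    intro i _
    obtain ⟨n, hn0, hn⟩ := irr_one (θ i).2.1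
    rw [hn]
    exact_mod_cast hn0.ne'
  have hprod : ∀ (τ : I → IrrP p K0) (w : I → T0),
      (∀ i, ((w i : T0) : K0) ∈ Subgroup.center K0) →
      (∏ i, (τ i).1 (w i : K0)) * ∏ i, (F0 (τ i)).1 1 =
        (∏ i, (τ i).1 1) * ∏ i, (F0 (τ i)).1 (w i) := by
    intro τ w hw
    rw [← Finset.prod_mul_distrib, ← Finset.prod_mul_distrib]
    exact Finset.prod_congr rfl (fun i _ => hF0 (τ i) (w i) (hw i))
  choose tau htau using fun θ : IrrP p S.K => exists_tuple S.μK hKs θ
  choose sig hsig using fun φ : IrrP p ((S.L T0).subgroupOf S.K) =>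
    exists_tuple (S.μT T0) hTs φ
  have hf : ∀ θ : IrrP p S.K, ∃ φ : IrrP p ((S.L T0).subgroupOf S.K),
      ∀ t, φ.1 (S.μT T0 t) = ∏ i, (F0 (tau θ i)).1 (t i) := by
    intro θ
    have hcen : ∀ z : I → T0, S.μT T0 z = 1 → ∀ i, ((z i : T0) : K0) ∈ Subgroup.center K0 := by
      intro z hz i
      refine S.ker_central (fun i => ((z i : T0) : K0)) ?_ i
      rw [← S.μT_coe T0 z, hz]
      rfl
    refine exists_of_tuple (S.μT T0) hTs ?_ (fun i => F0 (tau θ i)) ?_
    · intro z hz i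
      have h1 := hcen z hz i
      rw [Subgroup.mem_center_iff] at h1 ⊢
      intro g
      exact Subtype.ext (h1 g)
    · intro z hz
      have h1 := hprod (tau θ) z (hcen z hz)
      have h2 : (∏ i, (tau θ i).1 ((z i : T0) : K0)) = ∏ i, (tau θ i).1 1 := by
        rw [← htau θ (fun i => ((z i : T0) : K0))]
        have h3 := htau θ 1
        simp only [Pi.one_apply] at h3
        rw [← h3]
        have h4 : S.μK (fun i => ((z i : T0) : K0)) = 1 := by
          have := congrArg (fun t : (S.L T0).subgroupOf S.K => (t : S.K)) hz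
          exact this
        rw [h4, map_one]
      rw [h2] at h1
      exact (mul_left_cancel₀ (hne (tau θ)) h1).symm
  have hg : ∀ φ : IrrP p ((S.L T0).subgroupOf S.K), ∃ θ : IrrP p S.K,
      ∀ x, θ.1 (S.μK x) = ∏ i, (F0.symm (sig φ i)).1 (x i) := by
    intro φ
    have hcen : ∀ z : I → K0, S.μK z = 1 → ∀ i, z i ∈ Subgroup.center K0 := by
      intro z hz i
      refine S.ker_central z ?_ i
      rw [← S.μK_coe z, hz]
      rfl
    refine exists_of_tuple S.μK hKs hcen (fun i => F0.symm (sig φ i)) ?_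
    intro z hz
    obtain ⟨w, hw⟩ : ∃ w : I → T0, ∀ i, ((w i : T0) : K0) = z i :=
      ⟨fun i => ⟨z i, hZ (hcen z hz i)⟩, fun i => rfl⟩
    have h1 := hprod (fun i => F0.symm (sig φ i)) w
      (fun i => by rw [hw]; exact hcen z hz i)
    simp only [Equiv.apply_symm_apply] at h1
    have h2 : (∏ i, (sig φ i).1 (w i)) = ∏ i, (sig φ i).1 1 := by
      rw [← hsig φ w]
      have h3 := hsig φ 1
      simp only [Pi.one_apply] at h3
      rw [← h3]
      have h5 : S.μT T0 w = S.μT T0 1 := by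
        rw [map_one]
        apply Subtype.ext
        have h4 : (fun i => ((w i : T0) : K0)) = z := funext hw
        show S.μK (fun i => ((w i : T0) : K0)) = 1
        rw [h4, hz]
      rw [h5]
    rw [h2] at h1
    simp only [hw] at h1
    exact mul_right_cancel₀ (hne (sig φ)) h1
  choose f hfs using hf
  choose g hgs using hg
  have hfg : ∀ φ, f (g φ) = φ := by
    intro φ
    have h1 : tau (g φ) = fun i => F0.symm (sig φ i) := by
      apply tuple_unique
      intro x
      rw [← htau (g φ) x, hgs φ x]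
    apply Subtype.ext
    funext y
    obtain ⟨t, rfl⟩ := hTs y
    rw [hfs, hsig φ t, h1]
    simp
  have hgf : ∀ θ, g (f θ) = θ := by
    intro θ
    have h1 : sig (f θ) = fun i => F0 (tau θ i) := by
      apply tuple_unique
      intro x
      rw [← hsig (f θ) x, hfs θ x]
    apply Subtype.ext
    funext y
    obtain ⟨x, rfl⟩ := hKs y
    rw [hgs, htau θ x, h1]
    simp
  refine ⟨⟨f, g, hgf, hfg⟩, ?_⟩
  intro θ τ hτ t
  have h1 : tau θ = τ := by
    apply tuple_unique
    intro x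
    rw [← htau θ x, hτ x]
  show (f θ).1 (S.μT T0 t) = _
  rw [hfs, h1]

end Pool.Agent.Helper7.MK
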