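import Pool.Agent.Helper7.MK.PSBasic
import Pool.Agent.Helper7.MK.Tuple

/-!
# MK-16: equivariance and degrees for the product bijection

* `tuple_conj`: let `θ' = θ ∘ conj l` and let `τ, τ'` be the tuples of `θ, θ'`. Then
  `τ'_i(x) = τ_{l•i}(α l i x)`. Proof: `θ'(μK x) = θ(l μK(x) l⁻¹) = θ(μK (act l x))` (`conj_μ`)
  `= ∏_j τ_j((act l x)_j) = ∏_i τ_{l•i}((act l x)_{l•i}) = ∏_i τ_{l•i}(α l i (x i))`
  (reindex by the permutation `i ↦ l • i`: `Equiv.prod_comp (MulAction.toPerm l)`, `act_smul`).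
  The functions `x ↦ τ_{l•i}(α l i x)` are in `IrrP p K0` (`INC.irr_comp`, degree unchanged), so
  `tuple_unique` applies.
* `equivariant`: for `t : I → T0`: `(F θ')(μT t) = ∏ (F0 τ'_i)(t_i) = ∏ (F0 τ_{l•i})(α l i t_i)` by
  `hE0` (with `α = S.α l i`, which stabilizes `T0` as `l ∈ L`), `= ∏_j (F0 τ_j)((act l t)_j)
  = (F θ)(μT (act l t)) = (F θ)(l μT(t) l⁻¹)`; `act l t` has components in `T0`. Every element of
  `L ∩ K` is `μT t` (`PS.μT_surjective`). Tuples exist by `exists_tuple S.μK S.μK_surjective`.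
* `degree`: take `x = 1` resp. `t = 1`: `deg θ = ∏ deg τ_i`, `deg (F θ) = ∏ deg (F0 τ_i)`
  (`deg_cast` and `Nat.cast_injective`); then `Finset.prod_pow`, `map_prod`/`Nat.cast_prod`, `hD0`.
-/

namespace Pool.Agent.Helper7.MK

open Pool.Agent.Helper42.INC

variable {G : Type} [Group G] [Finite G] {K0 I : Type} [Group K0] [Finite K0]
    [MulAction G I] [Fintype I] (S : PS G K0 I) (T0 : Subgroup K0) {p : ℕ} [Fact p.Prime]

lemma PS.tuple_conj (g : G) (θ θ' : IrrP p S.K)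
    (h : ∀ k, θ'.1 k = θ.1 (MulAut.conjNormal g k)) (τ τ' : I → IrrP p K0)
    (hτ : ∀ x, θ.1 (S.μK x) = ∏ i, (τ i).1 (x i))
    (hτ' : ∀ x, θ'.1 (S.μK x) = ∏ i, (τ' i).1 (x i)) (i : I) (x : K0) :
    (τ' i).1 x = (τ (g • i)).1 (S.α g i x) := by
  let σ : I → IrrP p K0 := fun i => ⟨fun x => (τ (g • i)).1 (S.α g i x),
    irr_comp (S.α g i) (τ (g • i)).2.1, by
      obtain ⟨n, hn, hpn⟩ := (τ (g • i)).2.2
      refine ⟨n, ?_, hpn⟩
      beta_reduce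
      rw [map_one]
      exact hn⟩
  have hσ : τ' = σ := by
    apply tuple_unique
    intro y
    rw [← hτ' y, h (S.μK y)]
    have h1 : MulAut.conjNormal g (S.μK y) = S.μK (S.act g y) := by
      apply Subtype.ext
      rw [MulAut.conjNormal_apply]
      exact S.conj_μ g y
    rw [h1, hτ]
    have h2 : ∏ j, (τ j).1 (S.act g y j) = ∏ j, (τ (g • j)).1 (S.act g y (g • j)) :=
      (Equiv.prod_comp (MulAction.toPerm g) (fun j => (τ j).1 (S.act g y j))).symm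
    rw [h2]
    refine Finset.prod_congr rfl fun j _ => ?_
    rw [S.act_smul]
  rw [hσ]

lemma PS.equivariant (hT : ∀ x : K0, (∀ y, x * y * x⁻¹ ∈ T0 ↔ y ∈ T0) → x ∈ T0)
    (F0 : IrrP p K0 ≃ IrrP p T0)
    (hE0 : ∀ α : MulAut K0, (∀ x, α x ∈ T0 ↔ x ∈ T0) → ∀ θ θ' : IrrP p K0,
        (∀ x, θ'.1 x = θ.1 (α x)) → ∀ t t' : T0, (t' : K0) = α t → (F0 θ').1 t = (F0 θ).1 t')
    (F : IrrP p S.K ≃ IrrP p ((S.L T0).subgroupOf S.K))
    (hF : ∀ (θ : IrrP p S.K) (τ : I → IrrP p K0),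
      (∀ x, θ.1 (S.μK x) = ∏ i, (τ i).1 (x i)) →
        ∀ t : I → T0, (F θ).1 (S.μT T0 t) = ∏ i, (F0 (τ i)).1 (t i))
    (l : S.L T0) (θ θ' : IrrP p S.K) (h : ∀ k, θ'.1 k = θ.1 (MulAut.conjNormal (l : G) k))
    (t : (S.L T0).subgroupOf S.K) :
    (F θ').1 t = (F θ).1 ((npInter S.K (S.L T0)).α l t) := by
  obtain ⟨τ, hτ⟩ := exists_tuple S.μK S.μK_surjective θ
  obtain ⟨τ', hτ'⟩ := exists_tuple S.μK S.μK_surjective θ'
  obtain ⟨t0, rfl⟩ := S.μT_surjective T0 hT t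
  have hmem : ∀ j, S.act (l : G) (fun i => (t0 i : K0)) j ∈ T0 := by
    intro j
    exact (l.2 ((l : G)⁻¹ • j) _).2 (t0 ((l : G)⁻¹ • j)).2
  let t1 : I → T0 := fun j => ⟨S.act (l : G) (fun i => (t0 i : K0)) j, hmem j⟩
  have h1 : ∀ i, (F0 (τ' i)).1 (t0 i) = (F0 (τ ((l : G) • i))).1 (t1 ((l : G) • i)) := by
    intro i
    refine hE0 (S.α (l : G) i) (l.2 i) (τ ((l : G) • i)) (τ' i) (fun x => ?_) (t0 i)
      (t1 ((l : G) • i)) ?_
    · exact S.tuple_conj (l : G) θ θ' h τ τ' hτ hτ' i x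
    · exact S.act_smul (l : G) (fun i => (t0 i : K0)) i
  have h2 : (npInter S.K (S.L T0)).α l (S.μT T0 t0) = S.μT T0 t1 := by
    apply Subtype.ext
    apply Subtype.ext
    exact S.conj_μ (l : G) (fun i => (t0 i : K0))
  rw [h2, hF θ' τ' hτ' t0, hF θ τ hτ t1, Finset.prod_congr rfl (fun i _ => h1 i)]
  exact Equiv.prod_comp (MulAction.toPerm (l : G)) (fun j => (F0 (τ j)).1 (t1 j))

lemma PS.degree (F0 : IrrP p K0 ≃ IrrP p T0)
    (hD0 : ∀ θ, (deg (F0 θ).1 : ZMod p) ^ 2 = (deg θ.1 : ZMod p) ^ 2)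
    (F : IrrP p S.K ≃ IrrP p ((S.L T0).subgroupOf S.K))
    (hF : ∀ (θ : IrrP p S.K) (τ : I → IrrP p K0),
      (∀ x, θ.1 (S.μK x) = ∏ i, (τ i).1 (x i)) →
        ∀ t : I → T0, (F θ).1 (S.μT T0 t) = ∏ i, (F0 (τ i)).1 (t i)) (θ : IrrP p S.K) :
    (deg (F θ).1 : ZMod p) ^ 2 = (deg θ.1 : ZMod p) ^ 2 := by
  obtain ⟨τ, hτ⟩ := exists_tuple S.μK S.μK_surjective θ
  have h1 : deg θ.1 = ∏ i, deg (τ i).1 := by
    apply deg_eq
    have h2 := hτ 1
    rw [map_one] at h2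
    rw [h2]
    push_cast
    exact Finset.prod_congr rfl fun i _ => (deg_cast (τ i).2.1).symm
  have h3 : deg (F θ).1 = ∏ i, deg (F0 (τ i)).1 := by
    apply deg_eq
    have h2 := hF θ τ hτ 1
    rw [map_one] at h2
    rw [h2]
    push_cast
    exact Finset.prod_congr rfl fun i _ => (deg_cast (F0 (τ i)).2.1).symm
  rw [h1, h3]
  push_cast
  rw [← Finset.prod_pow, ← Finset.prod_pow]
  exact Finset.prod_congr rfl fun i _ => hD0 (τ i)

end Pool.Agent.Helper7.MK
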