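import Pool.Agent.Helper7.MK.Fiber
import Pool.Agent.Helper7.MK.Orbits
import Pool.Agent.Helper7.MK.OfMatched

/-!
# MK-09: the comparison theorem (T1)

Proof. Let `R` be the set of orbits of `L` on `IrrP p K`, i.e. the quotient by the relation
`θ' ~ θ :⇔ ∃ l : L, ∀ k, θ'(k) = θ (l k l⁻¹)` (an equivalence relation), finite, and `out : R → IrrP p K`
representatives. Apply `cnt_eq_sum` to `G`, `NP.ofNormal K`, `lam r = toX _ (out r)`, and to `L`,
`npInter K L`, `lam' r = toX _ (F (out r))`.
For `G`: `(h1)` if `lam r = x • lam r'` with `x ∈ G`, write `x = k l` with `k ∈ K`, `l ∈ L`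
(`hKL`, `Subgroup.mul_normal`/`Subgroup.mem_sup`), `k` acts trivially because characters are class
functions; so `out r ~ out r'`. `(h2)` clear (`IrrP` is `Irr` and degree prime to `p`; `irrP_iff`).
For `L`: `(h1)` if `F (out r) = l • F (out r')` then `F (out r) = F θ''` with
`θ'' (k) = out r' (l⁻¹ k l)` by `hequi` (`θ''` is in `IrrP p K`: `irr_comp`), so `out r = θ''`, `r = r'`.
`(h2)`: `φ` of degree prime to `p` is `F θ` and `θ ~ out r`, use `hequi` again.
The summands agree: by `exists_kernel` (with `hst` deduced from `hequi` and injectivity of `F`: `l`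
fixes `θ` iff `l` fixes `F θ`) and `fiber_equiv` there is a bijection `e` between the characters over
`out r` and those over `F (out r)` with `deg χ = c deg θ`, `deg (e χ) = c deg (F θ)`, so
`(deg χ)² = (deg (e χ))²` in `ZMod p` by `hdeg`; restrict `e` to the subtypes
(`Equiv.subtypeEquiv`, `Equiv.subtypeSubtypeEquivSubtypeInter`).
-/

namespace Pool.Agent.Helper7.MK

open Pool.Agent.Helper42.INC

theorem comparison {G : Type} [Group G] [Finite G] {p : ℕ} [Fact p.Prime] (K L : Subgroup G)
    [K.Normal] (hKL : K ⊔ L = ⊤) (F : IrrP p K ≃ IrrP p (L.subgroupOf K))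
    (hequi : ∀ (l : L) (θ θ' : IrrP p K), (∀ k, θ'.1 k = θ.1 (MulAut.conjNormal (l : G) k)) →
      ∀ t, (F θ').1 t = (F θ).1 ((npInter K L).α l t))
    (hdeg : ∀ θ, (deg (F θ).1 : ZMod p) ^ 2 = (deg θ.1 : ZMod p) ^ 2)
    (hmat : ∀ θ, MatchedG K L θ.1 (F θ).1) (s : ZMod p) (hs : s ≠ 0) :
    cnt p G s = cnt p L s := by
  classical
  have hcomp : ∀ (l : L) (θ : IrrP p K),
      (fun k => θ.1 (MulAut.conjNormal (l : G) k)) ∈ IrrP p K := by
    intro l θ
    refine ⟨irr_comp (MulAut.conjNormal (l : G)) θ.2.1, ?_⟩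
    obtain ⟨n, hn, hd⟩ := θ.2.2
    refine ⟨n, ?_, hd⟩
    change θ.1 (MulAut.conjNormal (l : G) 1) = n
    rw [map_one, hn]
  let act : L → IrrP p K → IrrP p K := fun l θ => ⟨_, hcomp l θ⟩
  have hact : ∀ (l : L) (θ : IrrP p K) (k : K),
      (act l θ).1 k = θ.1 (MulAut.conjNormal (l : G) k) := fun _ _ _ => rfl
  have hF : ∀ (l : L) (θ : IrrP p K) (t : L.subgroupOf K),
      (F (act l θ)).1 t = (F θ).1 ((npInter K L).α l t) := fun l θ t =>
    hequi l θ (act l θ) (fun _ => rfl) t
  let rel : Setoid (IrrP p K) :=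
    { r := fun θ' θ => ∃ l : L, θ' = act l θ
      iseqv := by
        refine ⟨fun θ => ⟨1, ?_⟩, ?_, ?_⟩
        · apply Subtype.ext
          funext k
          rw [hact]
          simp
        · rintro θ' θ ⟨l, rfl⟩
          refine ⟨l⁻¹, ?_⟩
          apply Subtype.ext
          funext k
          rw [hact, hact, ← MulAut.mul_apply, ← map_mul]
          simp
        · rintro θ₁ θ₂ θ₃ ⟨l, rfl⟩ ⟨l', rfl⟩
          refine ⟨l' * l, ?_⟩
          apply Subtype.ext
          funext k
          rw [hact, hact, hact, ← MulAut.mul_apply, ← map_mul]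
          rfl }
  have hfinI : Finite (IrrP p K) :=
    Finite.of_injective (fun χ : IrrP p K => (⟨χ.1, χ.2.1⟩ : Irr K)) (fun a b h => by
      apply Subtype.ext
      exact congrArg (fun t : Irr K => t.1) h)
  have hfinR : Finite (Quotient rel) := Quotient.finite _
  have : Fintype (Quotient rel) := Fintype.ofFinite _
  have hout : ∀ θ : IrrP p K, ∃ l : L, θ = act l (Quotient.out (Quotient.mk rel θ)) := fun θ =>
    rel.symm (Quotient.mk_out (s := rel) θ)
  have hsame : ∀ (r r' : Quotient rel) (l : L), Quotient.out r = act l (Quotient.out r') →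
      r = r' := by
    intro r r' l h
    rw [← Quotient.out_eq r, ← Quotient.out_eq r']
    exact Quotient.sound ⟨l, h⟩
  have hG := cnt_eq_sum (NP.ofNormal K) (p := p) (Quotient rel)
    (fun r => toX (NP.ofNormal K) (Quotient.out r)) ?_ ?_ s hs
  · have hL := cnt_eq_sum (npInter K L) (p := p) (Quotient rel)
      (fun r => toX (npInter K L) (F (Quotient.out r))) ?_ ?_ s hs
    · rw [hG, hL]
      refine Finset.sum_congr rfl fun r _ => ?_
      obtain ⟨Δ, _, _, ⟨N⟩⟩ := exists_kernel K L hKL (Quotient.out r) (F (Quotient.out r)) (by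
        intro l
        constructor
        · intro h t
          rw [← hF]
          have : act l (Quotient.out r) = Quotient.out r := by
            apply Subtype.ext
            funext k
            exact h k
          rw [this]
        · intro h k
          have h2 : F (act l (Quotient.out r)) = F (Quotient.out r) := by
            apply Subtype.ext
            funext t
            rw [hF, h]
          have h3 := F.injective h2
          rw [← hact, h3]) (hmat (Quotient.out r))
      obtain ⟨e, he⟩ := fiber_equiv N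
      refine Nat.card_congr ((Equiv.subtypeSubtypeEquivSubtypeInter
        (fun χ : Irr G => B (fun k => χ.1 ((NP.ofNormal K).ι k))
          (toX (NP.ofNormal K) (Quotient.out r)).chi ≠ 0)
        (fun χ : Irr G => (deg χ.1 : ZMod p) ^ 2 = s)).symm.trans
        ((e.subtypeEquiv ?_).trans (Equiv.subtypeSubtypeEquivSubtypeInter
        (fun χ : Irr L => B (fun k => χ.1 ((npInter K L).ι k))
          (toX (npInter K L) (F (Quotient.out r))).chi ≠ 0)
        (fun χ : Irr L => (deg χ.1 : ZMod p) ^ 2 = s))))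
      intro χ
      obtain ⟨c, hc1, hc2⟩ := he χ
      have h4 : (deg χ.1.1 : ZMod p) ^ 2 = (deg (e χ).1.1 : ZMod p) ^ 2 := by
        rw [hc1, hc2, Nat.cast_mul, Nat.cast_mul, mul_pow, mul_pow]
        have h5 := hdeg (Quotient.out r)
        have h6 : (deg (toX (NP.ofNormal K) (Quotient.out r)).chi : ZMod p) ^ 2 =
            (deg (toX (npInter K L) (F (Quotient.out r))).chi : ZMod p) ^ 2 := h5.symm
        rw [h6]
      rw [h4]
    · intro r r' x h
      refine hsame r r' x⁻¹ ?_
      apply F.injective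
      apply Subtype.ext
      funext t
      rw [hF]
      have h1 := congrArg (fun ξ : IrrX (npInter K L) => ξ.chi t) h
      exact h1
    · intro φ hφ
      have hφ' : φ.chi ∈ IrrP p (L.subgroupOf K) :=
        ⟨φ.mem, deg φ.chi, (deg_cast φ.mem).symm, hφ⟩
      obtain ⟨l, hl⟩ := hout (F.symm ⟨φ.chi, hφ'⟩)
      refine ⟨Quotient.mk rel (F.symm ⟨φ.chi, hφ'⟩), l⁻¹, ?_⟩
      apply IrrX.ext'
      funext t
      have h1 := congrArg (fun ξ : IrrP p K => (F ξ).1 t) hl
      simp only [Equiv.apply_symm_apply] at h1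
      rw [hF] at h1
      rw [IrrX.smul_chi, inv_inv]
      exact h1
  · intro r r' x h
    have hx : x ∈ ((K ⊔ L : Subgroup G) : Set G) := by
      rw [hKL]
      trivial
    rw [Subgroup.normal_mul] at hx
    obtain ⟨k, hk, l, hl, rfl⟩ := hx
    refine hsame r r' (⟨l, hl⟩ : L)⁻¹ ?_
    apply Subtype.ext
    funext m
    have h1 := congrArg (fun ξ : IrrX (NP.ofNormal K) => ξ.chi m) h
    have h2 : (Quotient.out r).1 m =
        (Quotient.out r').1 (MulAut.conjNormal ((k * l)⁻¹) m) := h1
    rw [h2, mul_inv_rev, map_mul, MulAut.mul_apply]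
    have h3 := Irr.isClass (act (⟨l, hl⟩ : L)⁻¹ (Quotient.out r')).2.1 (⟨k, hk⟩ : K)⁻¹ m
    rw [hact] at h3
    rw [← h3, hact]
    congr 2
  · intro θ hθ
    have hθ' : θ.chi ∈ IrrP p K := ⟨θ.mem, deg θ.chi, (deg_cast θ.mem).symm, hθ⟩
    obtain ⟨l, hl⟩ := hout ⟨θ.chi, hθ'⟩
    refine ⟨Quotient.mk rel ⟨θ.chi, hθ'⟩, (l : G)⁻¹, ?_⟩
    apply IrrX.ext'
    funext k
    rw [IrrX.smul_chi, inv_inv]
    have h1 := congrArg (fun ξ : IrrP p K => ξ.1 k) hl
    exact h1

end Pool.Agent.Helper7.MK
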