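import Pool.Agent.Helper7.MK.PSMatched
import Pool.Agent.Helper7.MK.PSBij
import Pool.Agent.Helper7.MK.Central
import Pool.Agent.Helper7.MK.TOne

/-!
# The comparison theorem in the product setting
-/

namespace Pool.Agent.Helper7.MK

open Pool.Agent.Helper42.INC

theorem PS.main {G : Type} [Group G] [Finite G] {K0 I : Type} [Group K0] [Finite K0]
    [MulAction G I] [Fintype I] (S : PS G K0 I) (T0 : Subgroup K0)
    (hT : ∀ x : K0, (∀ y, x * y * x⁻¹ ∈ T0 ↔ y ∈ T0) → x ∈ T0)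
    (hZ : Subgroup.center K0 ≤ T0) (hKL : S.K ⊔ S.L T0 = ⊤) {p : ℕ} [Fact p.Prime]
    (F0 : IrrP p K0 ≃ IrrP p T0)
    (hE0 : ∀ α : MulAut K0, (∀ x, α x ∈ T0 ↔ x ∈ T0) → ∀ θ θ' : IrrP p K0,
        (∀ x, θ'.1 x = θ.1 (α x)) → ∀ t t' : T0, (t' : K0) = α t → (F0 θ').1 t = (F0 θ).1 t')
    (hD0 : ∀ θ, (deg (F0 θ).1 : ZMod p) ^ 2 = (deg θ.1 : ZMod p) ^ 2)
    (hM0 : ∀ θ, MatchedAut T0 θ.1 (F0 θ).1) (s : ZMod p) (hs : s ≠ 0) :
    cnt p G s = cnt p (S.L T0) s := by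
  obtain ⟨F, hF⟩ := S.exists_bij T0 hT hZ F0 (fun θ z hz => (hM0 θ).central z hz)
  exact comparison S.K (S.L T0) hKL F (fun l θ θ' h t => S.equivariant T0 hT F0 hE0 F hF l θ θ' h t)
    (S.degree T0 F0 hD0 F hF) (S.matched T0 hT F0 hE0 hM0 F hF) s hs

end Pool.Agent.Helper7.MK
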