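import Pool.Agent.Helper7.MK.PSTensor

/-!
# MK-23: products of matched characters are matched

Proof. Let `τ` be the tuple of `θ` (`exists_tuple S.μK S.μK_surjective`), `φ = F θ`, so
`φ (S.μT T0 t) = ∏ (F0 τ_i)(t_i)` (`hF`). Take `N, W, X` from `PS.tensor`. Let
`Φ : (I → K0) × (I → T0) → S.K × (L ∩ K)`, `Φ (k, t) = (S.μK k, S.μT T0 t)`, surjective
(`PS.μK_surjective`, `PS.μT_surjective`), and `W₁ (k, t) = W (fun i => (k i, t i))`. If
`Φ (k, t) = 1` then all `k i` and `t i` are central in `K0` (`PS.ker_central`; for `t` apply it to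
`fun i => (t i : K0)`), so by (iv) `W₁ (k, t)` is the scalar
`(∏ τ_i(k_i) ∏ (F0 τ_i)(t_i⁻¹)) / (∏ τ_i(1) ∏ (F0 τ_i)(1)) = (θ(1) φ(1)) / (θ(1) φ(1)) = 1`
(`∏ τ_i(k_i) = θ(μK k) = θ(1)`, `∏ (F0 τ_i)(t_i⁻¹) = φ(μT t⁻¹) = φ(1)`; both nonzero by `irr_one`). So
`exists_descend` gives `D : S.K × (L ∩ K) →* Matrix N N ℂ` with `D (Φ x) = W₁ x`. Take `R = X`.
Trace: (i). Second property of `MatchedG`: for `u ∈ stL`, `k = μK x`, `t = μT y` we have
`u k u⁻¹ = μK (act u x)` and `u t u⁻¹ = μT (act u y)` (`PS.conj_μ`), and (ii) applies with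
`h = (x, y)`, `h' = (act u x, act u y)` (`PS.act_smul`). Third property: `t = μT y`, `u = t` in `G`:
(iii) gives `X u = W (y, y) = D (μK y, μT y)`.
-/

namespace Pool.Agent.Helper7.MK

open Pool.Agent.Helper42.INC

theorem PS.matched {G : Type} [Group G] [Finite G] {K0 I : Type} [Group K0] [Finite K0]
    [MulAction G I] [Fintype I] (S : PS G K0 I) (T0 : Subgroup K0)
    (hT : ∀ x : K0, (∀ y, x * y * x⁻¹ ∈ T0 ↔ y ∈ T0) → x ∈ T0) {p : ℕ} [Fact p.Prime]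
    (F0 : IrrP p K0 ≃ IrrP p T0)
    (hE0 : ∀ α : MulAut K0, (∀ x, α x ∈ T0 ↔ x ∈ T0) → ∀ θ θ' : IrrP p K0,
        (∀ x, θ'.1 x = θ.1 (α x)) → ∀ t t' : T0, (t' : K0) = α t → (F0 θ').1 t = (F0 θ).1 t')
    (hM0 : ∀ θ, MatchedAut T0 θ.1 (F0 θ).1)
    (F : IrrP p S.K ≃ IrrP p ((S.L T0).subgroupOf S.K))
    (hF : ∀ (θ : IrrP p S.K) (τ : I → IrrP p K0),
      (∀ x, θ.1 (S.μK x) = ∏ i, (τ i).1 (x i)) →
        ∀ t : I → T0, (F θ).1 (S.μT T0 t) = ∏ i, (F0 (τ i)).1 (t i)) (θ : IrrP p S.K) :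
    MatchedG S.K (S.L T0) θ.1 (F θ).1 := by
  classical
  obtain ⟨τ, hτ⟩ := exists_tuple S.μK S.μK_surjective θ
  obtain ⟨N, iN1, iN2, W, X, h1, h2, h3, h4⟩ := S.tensor T0 F0 hE0 hM0 θ τ hτ
  have hφ : ∀ t : I → T0, (F θ).1 (S.μT T0 t) = ∏ i, (F0 (τ i)).1 (t i) := hF θ τ hτ
  let Φ : (I → K0) × (I → T0) →* S.K × ((S.L T0).subgroupOf S.K) := S.μK.prodMap (S.μT T0)
  have hΦ : Function.Surjective Φ := S.μK_surjective.prodMap (S.μT_surjective T0 hT)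
  have hΦ' : ∀ x y, Φ (x, y) = (S.μK x, S.μT T0 y) := fun _ _ => rfl
  let ζ : (I → K0) × (I → T0) →* (I → K0 × T0) :=
    { toFun := fun x i => (x.1 i, x.2 i)
      map_one' := rfl
      map_mul' := fun _ _ => rfl }
  have hne1 : (∏ i, (τ i).1 1) ≠ 0 := by
    refine Finset.prod_ne_zero_iff.2 (fun i _ => ?_)
    obtain ⟨n, hn0, hn⟩ := irr_one (τ i).2.1
    rw [hn]
    exact_mod_cast hn0.ne'
  have hne2 : (∏ i, (F0 (τ i)).1 1) ≠ 0 := by
    refine Finset.prod_ne_zero_iff.2 (fun i _ => ?_)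
    obtain ⟨n, hn0, hn⟩ := irr_one (F0 (τ i)).2.1
    rw [hn]
    exact_mod_cast hn0.ne'
  have hW : ∀ a, Φ a = 1 → (W.comp ζ) a = 1 := by
    rintro ⟨k, t⟩ ha
    have hk : S.μK k = 1 := congrArg Prod.fst ha
    have ht : S.μT T0 t = 1 := congrArg Prod.snd ha
    have hk' : S.μ k = 1 := congrArg (fun z : S.K => (z : G)) hk
    have ht' : S.μ (fun i => (t i : K0)) = 1 :=
      congrArg (fun z : (S.L T0).subgroupOf S.K => ((z : S.K) : G)) ht
    have h5 := h4 (ζ (k, t)) (fun i => S.ker_central k hk' i)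
      (fun i => S.ker_central (fun i => (t i : K0)) ht' i)
    have e1 : ∏ i, (τ i).1 (ζ (k, t) i).1 = ∏ i, (τ i).1 1 := by
      have e2 := hτ k
      have e3 := hτ 1
      rw [hk] at e2
      rw [map_one] at e3
      exact e2.symm.trans e3
    have e4 : ∏ i, (F0 (τ i)).1 ((ζ (k, t) i).2)⁻¹ = ∏ i, (F0 (τ i)).1 1 := by
      have e2 := hφ t⁻¹
      have e3 := hφ 1
      rw [map_inv, ht, inv_one] at e2
      rw [map_one] at e3
      exact e2.symm.trans e3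
    rw [e1, e4, div_self (mul_ne_zero hne1 hne2), one_smul] at h5
    exact h5
  obtain ⟨D, hD⟩ := exists_descend Φ hΦ (W.comp ζ) hW
  have hD' : ∀ x y, D (S.μK x, S.μT T0 y) = W (fun i => (x i, y i)) := fun x y => hD (x, y)
  refine ⟨N, iN1, iN2, D, X, ?_, ?_, ?_⟩
  · intro k t
    obtain ⟨x, rfl⟩ := S.μK_surjective k
    obtain ⟨y, rfl⟩ := S.μT_surjective T0 hT t
    rw [hD', h1, hτ, ← map_inv, hφ]
    rfl
  · intro u k t
    obtain ⟨x, rfl⟩ := S.μK_surjective k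
    obtain ⟨y, rfl⟩ := S.μT_surjective T0 hT t
    have hu : ∀ i z, S.α ((u : S.L T0) : G) i z ∈ T0 ↔ z ∈ T0 := (u : S.L T0).2
    let y' : I → T0 := fun j => ⟨S.act ((u : S.L T0) : G) (fun i => (y i : K0)) j,
      (hu _ _).2 (y _).2⟩
    have e1 : MulAut.conjNormal ((u : S.L T0) : G) (S.μK x) =
        S.μK (S.act ((u : S.L T0) : G) x) := by
      apply Subtype.ext
      rw [MulAut.conjNormal_apply, S.μK_coe, S.μK_coe]
      exact S.conj_μ _ _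
    have e2 : (npInter S.K (S.L T0)).α (u : S.L T0) (S.μT T0 y) = S.μT T0 y' := by
      apply Subtype.ext
      apply Subtype.ext
      exact S.conj_μ ((u : S.L T0) : G) (fun i => (y i : K0))
    rw [e1, e2, hD', hD']
    refine h2 u _ _ (fun i => ⟨?_, ?_⟩)
    · exact S.act_smul _ x i
    · exact S.act_smul _ (fun i => (y i : K0)) i
  · intro u t hut
    obtain ⟨y, rfl⟩ := S.μT_surjective T0 hT t
    have e1 := h3 u y hut
    rw [e1]
    exact (hD' (fun i => (y i : K0)) y).symm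

end Pool.Agent.Helper7.MK
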