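import Pool.Agent.Helper7.MK.TInd

/-!
# MK-21: tensor induction, abstract form

`U` acts on the finite set `I`, `o i` is a representative of the orbit of `i`, `t i • o i = i`. A
group `H` sits at every point of `I` and `a u i : H → H` is the transport from `i` to `u • i`. At
each representative `r` we have a matrix representation `D r` of `H` and matrices `R r u` (`u` in
the stabilizer of `r`) implementing the transports. Then there are a representation `W` of `I → H`
(the product of all `D`) and a representation `X` of `U` with the listed properties.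

Proof. For `r : I` let `Ω r = {i // o i = r}` with the action `u • ⟨i, h⟩ = ⟨u • i, _⟩` (`ho`), and
`N = ∀ r : I, (Ω r → n r)`. For `u : U`, `ω : Ω r` put `β = (t (u•ω))⁻¹ * u * t ω`; then `β • r = r`
(`t ω • r = ω` as `o ω = r`). Put `c r u ω = R r β` and `A r h ω = D r (a (t ω)⁻¹ ω (h ω))`.
Cocycle identity: `(t (u•v•ω))⁻¹ u v t ω = ((t (u•v•ω))⁻¹ u t (v•ω)) ((t (v•ω))⁻¹ v t ω)`, use `hR`;
`c r 1 ω = R r 1 = 1`.
`W h = piKron (fun r => piKron (A r h))`, `X u = piKron (fun r => tInd (c r) u)`: homomorphisms by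
`piKron_mul`, `piKron_one`, `tInd_mul`, `tInd_triv` (for `u = 1`).
(i) `trace_piKron` twice and `∏ r, ∏ ω : Ω r, F ω = ∏ i, F i` (`Fintype.prod_sigma'`,
`Equiv.sigmaFiberEquiv o`; note `o ω.1 = r`, substitute).
(ii) `tInd_piKron` with `B ω = D r (a (t ω)⁻¹ ω (h' ω))`: the condition
`R r β * D r (a (t ω)⁻¹ ω (h ω)) = D r (a (t (u•ω))⁻¹ (u•ω) (h' (u•ω))) * R r β` follows from `hRD` and
`a β r (a (t ω)⁻¹ ω x) = a (β * (t ω)⁻¹) ω x = a ((t (u•ω))⁻¹ * u) ω x =
a (t (u•ω))⁻¹ (u•ω) (a u ω x)` (`ha`; `(t ω)⁻¹ • ω = r`). Then `piKron_mul`.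
(iii) `tInd_triv` and the hypothesis. (iv) `piKron (fun i => c i • 1) = (∏ c i) • 1` (entrywise, or
`Finset.prod_mul_distrib` and `piKron_one`).
-/

namespace Pool.Agent.Helper7.MK

private theorem tc_piKron_smul {ι : Type} [Fintype ι] [DecidableEq ι] {m : ι → Type}
    [∀ i, Fintype (m i)] [∀ i, DecidableEq (m i)] (c : ι → ℂ) :
    piKron (fun i => c i • (1 : Matrix (m i) (m i) ℂ)) = (∏ i, c i) • 1 := by
  rw [← piKron_one]
  ext f g
  rw [Matrix.smul_apply, smul_eq_mul]
  simp only [piKron, Matrix.smul_apply, smul_eq_mul]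
  rw [Finset.prod_mul_distrib]

private theorem tc_prod_fiber {I : Type} [Fintype I] [DecidableEq I] (o : I → I)
    (F : I → ℂ) (G : ∀ r : I, {i // o i = r} → ℂ) (h : ∀ i, G (o i) ⟨i, rfl⟩ = F i) :
    ∏ r, ∏ ω : {i // o i = r}, G r ω = ∏ i, F i := by
  rw [← Fintype.prod_fiberwise o F]
  refine Finset.prod_congr rfl fun r _ => Finset.prod_congr rfl fun ω _ => ?_
  obtain ⟨i, rfl⟩ := ω
  exact h i

/-- the action on the fibre -/
@[instance_reducible] private def tcAct {U I : Type} [Group U] [MulAction U I] (o : I → I)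
    (ho : ∀ (u : U) (i : I), o (u • i) = o i) (r : I) : MulAction U {i // o i = r} where
  smul u ω := ⟨u • ω.1, (ho u ω.1).trans ω.2⟩
  one_smul ω := Subtype.ext (one_smul U ω.1)
  mul_smul u v ω := Subtype.ext (mul_smul u v ω.1)

theorem tensor_core {U I H : Type} [Group U] [Group H] [MulAction U I] [Fintype I]
    [DecidableEq I] (a : U → I → H → H)
    (hmul : ∀ u i x y, a u i (x * y) = a u i x * a u i y)
    (ha : ∀ u v i x, a (u * v) i x = a u (v • i) (a v i x)) (ha1 : ∀ i x, a 1 i x = x)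
    (o : I → I) (t : I → U) (ht : ∀ i, t i • o i = i) (ho : ∀ (u : U) (i : I), o (u • i) = o i)
    (n : I → Type) [∀ r, Fintype (n r)] [∀ r, DecidableEq (n r)]
    (D : ∀ r, H →* Matrix (n r) (n r) ℂ) (R : ∀ r, U → Matrix (n r) (n r) ℂ)
    (hR : ∀ r u v, u • r = r → v • r = r → R r (u * v) = R r u * R r v)
    (hR1 : ∀ r, R r 1 = 1)
    (hRD : ∀ r u x, u • r = r → R r u * D r x = D r (a u r x) * R r u) :
    ∃ (N : Type) (_ : Fintype N) (_ : DecidableEq N) (W : (I → H) →* Matrix N N ℂ)
      (X : U →* Matrix N N ℂ),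
      (∀ h, (W h).trace = ∏ i, (D (o i) (a (t i)⁻¹ i (h i))).trace) ∧
      (∀ u h h', (∀ i, h' (u • i) = a u i (h i)) → X u * W h = W h' * X u) ∧
      (∀ u h, (∀ i : I, u • i = i) →
        (∀ i, R (o i) ((t i)⁻¹ * u * t i) = D (o i) (a (t i)⁻¹ i (h i))) → X u = W h) ∧
      (∀ (h : I → H) (c : I → ℂ),
        (∀ i, D (o i) (a (t i)⁻¹ i (h i)) = c i • (1 : Matrix (n (o i)) (n (o i)) ℂ)) →
        W h = (∏ i, c i) • (1 : Matrix N N ℂ)) := by
  classical
  letI act : ∀ r, MulAction U {i // o i = r} := fun r => tcAct o ho r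
  have hsm : ∀ (r : I) (u : U) (ω : {i // o i = r}), (u • ω).1 = u • ω.1 := fun _ _ _ => rfl
  have ht' : ∀ (r : I) (ω : {i // o i = r}), t ω.1 • r = ω.1 := by
    intro r ω
    obtain ⟨i, rfl⟩ := ω
    exact ht i
  have ht'' : ∀ (r : I) (ω : {i // o i = r}), (t ω.1)⁻¹ • ω.1 = r := by
    intro r ω
    rw [inv_smul_eq_iff]
    exact (ht' r ω).symm
  have hbeta : ∀ (r : I) (u : U) (ω : {i // o i = r}),
      ((t (u • ω).1)⁻¹ * u * t ω.1) • r = r := by
    intro r u ω
    rw [mul_smul, mul_smul, ht', ← hsm, ht'']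
  have ha_one : ∀ u i, a u i 1 = 1 := by
    intro u i
    have h1 := hmul u i 1 1
    rw [mul_one] at h1
    exact (mul_eq_left.1 h1.symm)
  let c : ∀ r : I, U → {i // o i = r} → Matrix (n r) (n r) ℂ :=
    fun r u ω => R r ((t (u • ω).1)⁻¹ * u * t ω.1)
  have hc : ∀ (r : I) (u v : U) (ω : {i // o i = r}),
      c r (u * v) ω = c r u (v • ω) * c r v ω := by
    intro r u v ω
    change R r _ = R r _ * R r _
    rw [← hR r _ _ (hbeta r u (v • ω)) (hbeta r v ω)]
    congr 1
    rw [← mul_smul u v ω]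
    group
  let A : ∀ r : I, (I → H) → {i // o i = r} → Matrix (n r) (n r) ℂ :=
    fun r h ω => D r (a (t ω.1)⁻¹ ω.1 (h ω.1))
  let W : (I → H) →* Matrix (∀ r : I, ({i // o i = r} → n r)) (∀ r : I, ({i // o i = r} → n r)) ℂ :=
    { toFun := fun h => piKron (fun r => piKron (A r h))
      map_one' := by
        have e : ∀ r, piKron (A r 1) = 1 := by
          intro r
          have e1 : A r 1 = fun _ => 1 := by
            funext ω
            change D r (a (t ω.1)⁻¹ ω.1 1) = 1
            rw [ha_one, map_one]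
          rw [e1]
          exact piKron_one
        simp only [e]
        exact piKron_one
      map_mul' := by
        intro h h'
        rw [piKron_mul]
        congr 1
        funext r
        rw [piKron_mul]
        congr 1
        funext ω
        change D r (a (t ω.1)⁻¹ ω.1 (h ω.1 * h' ω.1)) = _
        rw [hmul, map_mul] }
  let X : U →* Matrix (∀ r : I, ({i // o i = r} → n r)) (∀ r : I, ({i // o i = r} → n r)) ℂ :=
    { toFun := fun u => piKron (fun r => tInd (c r) u)
      map_one' := by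
        have e : ∀ r, tInd (c r) 1 = 1 := by
          intro r
          rw [tInd_triv (c r) 1 (fun ω => one_smul U ω)]
          have e1 : c r 1 = fun _ => 1 := by
            funext ω
            change R r ((t ((1 : U) • ω).1)⁻¹ * 1 * t ω.1) = 1
            rw [one_smul, mul_one, inv_mul_cancel, hR1]
          rw [e1]
          exact piKron_one
        simp only [e]
        exact piKron_one
      map_mul' := by
        intro u v
        rw [piKron_mul]
        congr 1
        funext r
        exact tInd_mul (c r) (hc r) u v }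
  refine ⟨_, inferInstance, inferInstance, W, X, ?_, ?_, ?_, ?_⟩
  · intro h
    change (piKron (fun r => piKron (A r h))).trace = _
    rw [trace_piKron]
    simp only [trace_piKron]
    exact tc_prod_fiber o _ (fun r ω => (A r h ω).trace) (fun i => rfl)
  · intro u h h' hh
    change piKron (fun r => tInd (c r) u) * piKron (fun r => piKron (A r h)) =
      piKron (fun r => piKron (A r h')) * piKron (fun r => tInd (c r) u)
    rw [piKron_mul, piKron_mul]
    congr 1
    funext r
    refine tInd_piKron (c r) u (A r h) (A r h') ?_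
    intro ω
    change R r _ * D r (a (t ω.1)⁻¹ ω.1 (h ω.1)) =
      D r (a (t (u • ω).1)⁻¹ (u • ω).1 (h' (u • ω).1)) * R r _
    rw [hRD r _ _ (hbeta r u ω)]
    congr 2
    rw [hsm, hh]
    have e1 := ha ((t (u • ω.1))⁻¹ * u * t ω.1) (t ω.1)⁻¹ ω.1 (h ω.1)
    rw [ht''] at e1
    rw [← e1, ← ha]
    congr 1
    group
  · intro u h hu hRu
    change piKron (fun r => tInd (c r) u) = piKron (fun r => piKron (A r h))
    congr 1
    funext r
    have hω : ∀ ω : {i // o i = r}, u • ω = ω := fun ω => Subtype.ext (hu ω.1)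
    rw [tInd_triv (c r) u hω]
    congr 1
    funext ω
    change R r ((t (u • ω).1)⁻¹ * u * t ω.1) = D r (a (t ω.1)⁻¹ ω.1 (h ω.1))
    rw [hω]
    obtain ⟨i, rfl⟩ := ω
    exact hRu i
  · intro h cc hcc
    change piKron (fun r => piKron (A r h)) = _
    have e : ∀ r, piKron (A r h) = (∏ ω : {i // o i = r}, cc ω.1) • 1 := by
      intro r
      rw [← tc_piKron_smul]
      congr 1
      funext ω
      obtain ⟨i, rfl⟩ := ω
      exact hcc i
    simp only [e]
    rw [tc_piKron_smul]
    congr 1
    exact tc_prod_fiber o cc (fun r ω => cc ω.1) (fun i => rfl)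

end Pool.Agent.Helper7.MK
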