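import Pool.Agent.Helper7.MK.Char

/-!
# MK-20: the product of an irreducible character of `A` and the dual of one of `B`

Proof: it is the product of the characters `x ↦ χ x.1` and `x ↦ ψ x.2⁻¹` (`IsChar.comp`,
`IsChar.inv`, `IsChar.mul`), and `B` of it with itself is
`(|A||B|)⁻¹ ∑_{a,b} χ(a) ψ(b⁻¹) χ(a⁻¹) ψ(b) = B χ χ * B ψ ψ = 1` (`Fintype.sum_prod_type`,
`Finset.sum_mul_sum`); `IsChar.irr`.
-/

namespace Pool.Agent.Helper7.MK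

open Pool.Agent.Helper42.INC

lemma irr_two {A B' : Type} [Group A] [Finite A] [Group B'] [Finite B'] {χ : A → ℂ} {ψ : B' → ℂ}
    (hχ : χ ∈ Irr A) (hψ : ψ ∈ Irr B') :
    (fun x : A × B' => χ x.1 * ψ x.2⁻¹) ∈ Irr (A × B') := by
  have h1 : IsChar (fun x : A × B' => χ x.1 * ψ x.2⁻¹) :=
    ((IsChar.of_irr hχ).comp (MonoidHom.fst A B')).mul
      ((IsChar.of_irr hψ).inv.comp (MonoidHom.snd A B'))
  apply h1.irr
  have := Fintype.ofFinite A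
  have := Fintype.ofFinite B'
  have h2 := B_irr_self hχ
  have h3 := B_irr_self hψ
  rw [B_eq] at h2 h3
  rw [B_eq, Fintype.sum_prod_type, Nat.card_prod]
  have h4 : ∑ a : A, ∑ b : B', χ (a, b).1 * ψ (a, b).2⁻¹ *
      (χ (a, b)⁻¹.1 * ψ ((a, b)⁻¹.2)⁻¹) =
      (∑ a : A, χ a * χ a⁻¹) * ∑ b : B', ψ b * ψ b⁻¹ := by
    rw [Finset.sum_mul_sum]
    refine Finset.sum_congr rfl fun a _ => Finset.sum_congr rfl fun b _ => ?_
    change χ a * ψ b⁻¹ * (χ a⁻¹ * ψ (b⁻¹)⁻¹) = χ a * χ a⁻¹ * (ψ b * ψ b⁻¹)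
    rw [inv_inv]
    ring
  rw [h4]
  push_cast
  calc ((Nat.card A : ℂ) * (Nat.card B' : ℂ))⁻¹ *
        ((∑ a : A, χ a * χ a⁻¹) * ∑ b : B', ψ b * ψ b⁻¹)
      = ((Nat.card A : ℂ)⁻¹ * ∑ a : A, χ a * χ a⁻¹) *
        ((Nat.card B' : ℂ)⁻¹ * ∑ b : B', ψ b * ψ b⁻¹) := by
        rw [mul_inv]
        ring
    _ = 1 := by rw [h2, h3, one_mul]

end Pool.Agent.Helper7.MK
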