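import Pool.Agent.Helper7.MK.PSEqui
import Pool.Agent.Helper7.MK.TCore
import Pool.Agent.Helper7.MK.OrbRep
import Pool.Agent.Helper7.MK.Scalar
import Pool.Agent.Helper7.MK.Two

/-!
# MK-22: the tensor induced pair

Let `θ : IrrP p S.K` with tuple `τ`, `L = S.L T0`, `U = stL S.K L θ` (a subgroup of `L`, acting on
`I` through `G`).

Proof. Apply `tensor_core` with `H = K0 × T0`, `a u i (x, y) = (α u i x, α u i y)` (`u ∈ L`
stabilizes `T0`), `o, t` from `exists_orbRep U I`, `n r = Fin (d r)`, `D r`, `R' r` from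
`hM0 (τ r) : MatchedAut T0 (τ r) (F0 (τ r))`, and `R r u = R' r ⟨S.α u r, _⟩` if `u • r = r` and `1`
otherwise. For `u ∈ U` and all `i`: `τ_{u•i}(α u i x) = τ_i(x)` (`PS.tuple_conj` with `θ' = θ` and
`τ' = τ`); so for `u • r = r` the automorphism `α u r` is in `AutTh T0 (τ r)`. `hR` follows from
`PS.α_mul` (`α (u v) r = α u r ∘ α v r`), `hR1` from `PS.α_one`, `hRD` from the second property of
`MatchedAut`; `ha` from `PS.α_mul`, `ha1` from `PS.α_one`.
(i) trace: `trace (D (o i) (α (t i)⁻¹ i x, α (t i)⁻¹ i y)) = τ_{o i}(α (t i)⁻¹ i x) *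
(F0 τ_{o i})((α (t i)⁻¹ i y)⁻¹)`. As `(t i)⁻¹ • i = o i` the first factor is `τ_i(x)`. The second is
`(F0 τ_i)(y⁻¹)`, by `hE0` with `α = S.α (t i)⁻¹ i`, `θ = τ (o i)`, `θ' = τ i`. Then
`Finset.prod_mul_distrib`.
(ii) second property of `tensor_core`.
(iii) let `(u : G) = S.μ t'`, `t' : I → T0`. Then `u • i = i` for all `i` (`PS.μ_smul`), and
`(t i)⁻¹ u (t i) = S.μ (act (t i)⁻¹ t')` (`PS.conj_μ`), so `α ((t i)⁻¹ u t i) (o i)` is conjugation
with `(act (t i)⁻¹ t') (o i) = α (t i)⁻¹ i (t' i)` (`PS.α_μ`, `PS.act_smul`, `(t i)⁻¹ • i = o i`), an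
element of `T0`. By the third property of `MatchedAut`,
`R (o i) ((t i)⁻¹ u t i) = D (o i) (y, y)` with `y = α (t i)⁻¹ i (t' i)`. Third property of
`tensor_core` with `h i = (t' i, t' i)`.
(iv) for central components `D (o i) (x, y)` (`x = α (t i)⁻¹ i (h i).1` etc., central in
`K0 × T0`) is scalar by `scalar_of_irr` and `irr_two` (the character of `D r` is
`θ(k) φ(t⁻¹)`), with scalar `trace (D (x, y)) / trace (D 1)
= τ_i((h i).1) (F0 τ_i)((h i).2⁻¹) / (τ_i(1) (F0 τ_i)(1))` by the computation in (i). Fourth property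
of `tensor_core`, `Finset.prod_div_distrib`, `Finset.prod_mul_distrib`.
-/

namespace Pool.Agent.Helper7.MK

open Pool.Agent.Helper42.INC

private lemma pst_center_map {K0 : Type} [Group K0] (α : MulAut K0) {x : K0}
    (hx : x ∈ Subgroup.center K0) : α x ∈ Subgroup.center K0 := by
  rw [Subgroup.mem_center_iff] at hx ⊢
  intro y
  have h := hx (α⁻¹ y)
  have h2 := congrArg α h
  rw [map_mul, map_mul, MulAut.apply_inv_self] at h2
  exact h2

theorem PS.tensor {G : Type} [Group G] [Finite G] {K0 I : Type} [Group K0] [Finite K0]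
    [MulAction G I] [Fintype I] (S : PS G K0 I) (T0 : Subgroup K0) {p : ℕ} [Fact p.Prime]
    (F0 : IrrP p K0 ≃ IrrP p T0)
    (hE0 : ∀ α : MulAut K0, (∀ x, α x ∈ T0 ↔ x ∈ T0) → ∀ θ θ' : IrrP p K0,
        (∀ x, θ'.1 x = θ.1 (α x)) → ∀ t t' : T0, (t' : K0) = α t → (F0 θ').1 t = (F0 θ).1 t')
    (hM0 : ∀ θ, MatchedAut T0 θ.1 (F0 θ).1)
    (θ : IrrP p S.K) (τ : I → IrrP p K0) (hτ : ∀ x, θ.1 (S.μK x) = ∏ i, (τ i).1 (x i)) :
    ∃ (N : Type) (_ : Fintype N) (_ : DecidableEq N) (W : (I → K0 × T0) →* Matrix N N ℂ)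
      (X : stL S.K (S.L T0) θ.1 →* Matrix N N ℂ),
      (∀ h, (W h).trace = (∏ i, (τ i).1 (h i).1) * ∏ i, (F0 (τ i)).1 ((h i).2)⁻¹) ∧
      (∀ (u : stL S.K (S.L T0) θ.1) (h h' : I → K0 × T0),
        (∀ i, (h' (((u : S.L T0) : G) • i)).1 = S.α ((u : S.L T0) : G) i (h i).1 ∧
          ((h' (((u : S.L T0) : G) • i)).2 : K0) = S.α ((u : S.L T0) : G) i (h i).2) →
        X u * W h = W h' * X u) ∧
      (∀ (u : stL S.K (S.L T0) θ.1) (t : I → T0),
        ((u : S.L T0) : G) = S.μ (fun i => (t i : K0)) → X u = W (fun i => ((t i : K0), t i))) ∧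
      (∀ h : I → K0 × T0, (∀ i, (h i).1 ∈ Subgroup.center K0) →
        (∀ i, ((h i).2 : K0) ∈ Subgroup.center K0) →
        W h = (((∏ i, (τ i).1 (h i).1) * ∏ i, (F0 (τ i)).1 ((h i).2)⁻¹) /
          ((∏ i, (τ i).1 1) * ∏ i, (F0 (τ i)).1 1)) • (1 : Matrix N N ℂ)) := by
  classical
  have key : ∀ (u : stL S.K (S.L T0) θ.1) (i : I) (x : K0),
      (τ i).1 x = (τ (((u : S.L T0) : G) • i)).1 (S.α ((u : S.L T0) : G) i x) := by
    intro u i x
    exact S.tuple_conj ((u : S.L T0) : G) θ θ (fun k => (u.2 k).symm) τ τ hτ hτ i x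
  have hst : ∀ (u : stL S.K (S.L T0) θ.1) (i : I) (x : K0),
      S.α ((u : S.L T0) : G) i x ∈ T0 ↔ x ∈ T0 := fun u i x => (u : S.L T0).2 i x
  obtain ⟨o, t, ht, ho⟩ := exists_orbRep (stL S.K (S.L T0) θ.1) I
  choose d D R' hD hRD hRT using fun r => hM0 (τ r)
  have hmem : ∀ (r : I) (u : stL S.K (S.L T0) θ.1), u • r = r →
      S.α ((u : S.L T0) : G) r ∈ AutTh T0 (τ r).1 := by
    intro r u hu
    refine ⟨fun x => hst u r x, fun x => ?_⟩
    have h1 := key u r x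
    have h2 : ((u : S.L T0) : G) • r = r := hu
    rw [h2] at h1
    exact h1.symm
  let R : ∀ r : I, stL S.K (S.L T0) θ.1 → Matrix (Fin (d r)) (Fin (d r)) ℂ := fun r u =>
    if h : u • r = r then R' r ⟨S.α ((u : S.L T0) : G) r, hmem r u h⟩ else 1
  have hRpos : ∀ (r : I) (u : stL S.K (S.L T0) θ.1) (h : u • r = r),
      R r u = R' r ⟨S.α ((u : S.L T0) : G) r, hmem r u h⟩ := fun r u h => dif_pos h
  let a : stL S.K (S.L T0) θ.1 → I → K0 × T0 → K0 × T0 := fun u i z =>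
    (S.α ((u : S.L T0) : G) i z.1, ⟨S.α ((u : S.L T0) : G) i z.2, (hst u i _).2 z.2.2⟩)
  have hmul : ∀ u i x y, a u i (x * y) = a u i x * a u i y := by
    intro u i x y
    refine Prod.ext ?_ (Subtype.ext ?_)
    · exact map_mul (S.α ((u : S.L T0) : G) i) x.1 y.1
    · exact map_mul (S.α ((u : S.L T0) : G) i) (x.2 : K0) (y.2 : K0)
  have ha : ∀ u v i x, a (u * v) i x = a u (v • i) (a v i x) := by
    intro u v i x
    refine Prod.ext ?_ (Subtype.ext ?_)
    · exact S.α_mul ((u : S.L T0) : G) ((v : S.L T0) : G) i x.1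
    · exact S.α_mul ((u : S.L T0) : G) ((v : S.L T0) : G) i (x.2 : K0)
  have ha1 : ∀ i x, a 1 i x = x := by
    intro i x
    refine Prod.ext ?_ (Subtype.ext ?_)
    · exact S.α_one i x.1
    · exact S.α_one i (x.2 : K0)
  have hR : ∀ r u v, u • r = r → v • r = r → R r (u * v) = R r u * R r v := by
    intro r u v hu hv
    have huv : (u * v) • r = r := by rw [mul_smul, hv, hu]
    rw [hRpos r (u * v) huv, hRpos r u hu, hRpos r v hv, ← map_mul]
    congr 1
    apply Subtype.ext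
    apply MulEquiv.ext
    intro x
    have h1 := S.α_mul ((u : S.L T0) : G) ((v : S.L T0) : G) r x
    have h2 : ((v : S.L T0) : G) • r = r := hv
    rw [h2] at h1
    exact h1
  have hR1 : ∀ r, R r 1 = 1 := by
    intro r
    rw [hRpos r 1 (one_smul _ r), ← map_one (R' r)]
    congr 1
    apply Subtype.ext
    apply MulEquiv.ext
    intro x
    exact S.α_one r x
  have hRD' : ∀ r u x, u • r = r → R r u * D r x = D r (a u r x) * R r u := by
    rintro r u ⟨k, y⟩ hu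
    rw [hRpos r u hu]
    exact hRD r ⟨S.α ((u : S.L T0) : G) r, hmem r u hu⟩ k y (a u r (k, y)).2 rfl
  obtain ⟨N, iN1, iN2, W, X, h1, h2, h3, h4⟩ := tensor_core a hmul ha ha1 o t ht ho
    (fun r => Fin (d r)) D R hR hR1 hRD'
  have hto : ∀ i, (((t i)⁻¹ : stL S.K (S.L T0) θ.1)) • i = o i := by
    intro i
    rw [inv_smul_eq_iff]
    exact (ht i).symm
  have htoG : ∀ i, ((((t i)⁻¹ : stL S.K (S.L T0) θ.1) : S.L T0) : G) • i = o i := hto
  have kA : ∀ i x, (τ i).1 x =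
      (τ (o i)).1 (S.α ((((t i)⁻¹ : stL S.K (S.L T0) θ.1) : S.L T0) : G) i x) := by
    intro i x
    have h5 := key (t i)⁻¹ i x
    rw [htoG i] at h5
    exact h5
  have trD : ∀ i z, (D (o i) (a (t i)⁻¹ i z)).trace =
      (τ i).1 z.1 * (F0 (τ i)).1 (z.2)⁻¹ := by
    intro i z
    have h5 := hD (o i) (a (t i)⁻¹ i z).1 (a (t i)⁻¹ i z).2
    have h6 : (F0 (τ i)).1 (z.2)⁻¹ = (F0 (τ (o i))).1 ((a (t i)⁻¹ i z).2)⁻¹ := by
      refine hE0 (S.α ((((t i)⁻¹ : stL S.K (S.L T0) θ.1) : S.L T0) : G) i) (hst (t i)⁻¹ i)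
        (τ (o i)) (τ i) (kA i) _ _ ?_
      exact (map_inv (S.α ((((t i)⁻¹ : stL S.K (S.L T0) θ.1) : S.L T0) : G) i) (z.2 : K0)).symm
    rw [h6, kA i z.1]
    exact h5
  refine ⟨N, iN1, iN2, W, X, ?_, ?_, ?_, ?_⟩
  · intro h
    rw [h1 h, ← Finset.prod_mul_distrib]
    exact Finset.prod_congr rfl fun i _ => trD i (h i)
  · intro u h h' hh
    exact h2 u h h' fun i => Prod.ext (hh i).1 (Subtype.ext (hh i).2)
  · intro u tt hu
    have hui : ∀ i : I, u • i = i := by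
      intro i
      have h5 : ((u : S.L T0) : G) • i = i := by
        rw [hu]
        exact S.μ_smul _ i
      exact h5
    refine h3 u _ hui ?_
    intro i
    have h6 : ((t i)⁻¹ * u * t i) • o i = o i := by
      rw [mul_smul, mul_smul, ht i, hui i, hto i]
    rw [hRpos (o i) _ h6]
    refine hRT (o i) _ (a (t i)⁻¹ i ((tt i : K0), tt i)).2 ?_
    apply MulEquiv.ext
    intro x
    have e1 : ((((t i)⁻¹ * u * t i : stL S.K (S.L T0) θ.1) : S.L T0) : G) =
        S.μ (S.act ((((t i)⁻¹ : stL S.K (S.L T0) θ.1) : S.L T0) : G) (fun i => (tt i : K0))) := by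
      rw [← S.conj_μ, ← hu]
      have e2 : (t i : stL S.K (S.L T0) θ.1) = ((t i)⁻¹)⁻¹ := (inv_inv _).symm
      conv_lhs => rw [e2]
      rw [inv_inv]
      rfl
    have e3 : S.act ((((t i)⁻¹ : stL S.K (S.L T0) θ.1) : S.L T0) : G) (fun i => (tt i : K0)) (o i)
        = S.α ((((t i)⁻¹ : stL S.K (S.L T0) θ.1) : S.L T0) : G) i (tt i) := by
      have e4 := S.act_smul ((((t i)⁻¹ : stL S.K (S.L T0) θ.1) : S.L T0) : G)
        (fun i => (tt i : K0)) i
      rw [htoG i] at e4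
      exact e4
    change S.α ((((t i)⁻¹ * u * t i : stL S.K (S.L T0) θ.1) : S.L T0) : G) (o i) x = _
    rw [e1, S.α_μ, e3, MulAut.conj_apply]
  · intro h hz1 hz2
    have hc : ∀ i, D (o i) (a (t i)⁻¹ i (h i)) =
        (((τ i).1 (h i).1 * (F0 (τ i)).1 ((h i).2)⁻¹) / ((τ i).1 1 * (F0 (τ i)).1 1)) •
          (1 : Matrix (Fin (d (o i))) (Fin (d (o i))) ℂ) := by
      intro i
      have hirr : (fun z => (D (o i) z).trace) ∈ Irr (K0 × T0) := by
        have h5 : (fun z => (D (o i) z).trace) =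
            fun x : K0 × T0 => (τ (o i)).1 x.1 * (F0 (τ (o i))).1 x.2⁻¹ := by
          funext z
          exact hD (o i) z.1 z.2
        rw [h5]
        exact irr_two (τ (o i)).2.1 (F0 (τ (o i))).2.1
      have hcen : a (t i)⁻¹ i (h i) ∈ Subgroup.center (K0 × T0) := by
        have c1 := pst_center_map
          (S.α ((((t i)⁻¹ : stL S.K (S.L T0) θ.1) : S.L T0) : G) i) (hz1 i)
        have c2 := pst_center_map
          (S.α ((((t i)⁻¹ : stL S.K (S.L T0) θ.1) : S.L T0) : G) i) (hz2 i)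
        rw [Subgroup.mem_center_iff] at c1 c2 ⊢
        intro g
        refine Prod.ext ?_ (Subtype.ext ?_)
        · exact c1 g.1
        · exact c2 (g.2 : K0)
      have h6 := scalar_of_irr (D (o i)) hirr hcen
      have h7 : (D (o i) 1).trace = (τ i).1 1 * (F0 (τ i)).1 1 := by
        have h8 := trD i 1
        have h9 : a (t i)⁻¹ i 1 = 1 := by
          refine Prod.ext ?_ (Subtype.ext ?_)
          · exact map_one (S.α ((((t i)⁻¹ : stL S.K (S.L T0) θ.1) : S.L T0) : G) i)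
          · exact map_one (S.α ((((t i)⁻¹ : stL S.K (S.L T0) θ.1) : S.L T0) : G) i)
        rw [h9] at h8
        rw [h8, Prod.snd_one, Prod.fst_one, inv_one]
      rw [h7, trD i (h i)] at h6
      exact h6
    rw [h4 h _ hc]
    congr 1
    rw [Finset.prod_div_distrib, Finset.prod_mul_distrib, Finset.prod_mul_distrib]

end Pool.Agent.Helper7.MK
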