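import Pool.Agent.Helper7.MK.Char
import Pool.Agent.Helper7.MK.Kron

/-!
# MK-11: irreducible characters of a power `I → H`

* `B_prod`: `B_eq`, `Nat.card (I → H) = Nat.card H ^ |I|`, and
  `∑ x : I → H, ∏ i, (f i (x i) * g i (x i)⁻¹) = ∏ i, ∑ y, f i y * g i y⁻¹`
  (`Finset.prod_univ_sum`, `Fintype.piFinset_univ`).
* `isChar_prod`: choose matrices `R i` for `χ i` (`IsChar.exists_matrix`), compose with the
  projections `Pi.evalMonoidHom` and use `piKronHom`, `trace_piKron`, `isChar_matrix`.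
* `irr_prod`: `IsChar.irr` and `B_prod`, `B_irr_self`.
* `prod_injective`: if the products agree then `B_prod` gives `∏ i, B (χ i) (χ' i) = 1`
  (`B_irr_self` for the product), so each `B (χ i) (χ' i) ≠ 0`, so `χ i = χ' i` (`B_irr`).
* `prod_surjective`: the map `χ ↦ ∏ χ i` from `I → Irr H` to `Irr (I → H)` is injective, and
  `∑_χ (∏ deg (χ i))² = ∏_i ∑_{χ ∈ Irr H} (deg χ)² = |H|^|I| = |I → H| = ∑_{η ∈ Irr (I → H)} (deg η)²`
  (`INC.sum_deg_sq`), all `deg η > 0` (`deg_pos`): so it is surjective. (Or: if `η` is not in the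
  image then the sum over the image is smaller.) `Irr H` is finite (`INC.irr_finite`).
-/

namespace Pool.Agent.Helper7.MK

open Pool.Agent.Helper42.INC

variable {I H : Type} [Fintype I] [Group H] [Finite H]

lemma B_prod (f g : I → H → ℂ) :
    B (fun x : I → H => ∏ i, f i (x i)) (fun x => ∏ i, g i (x i)) = ∏ i, B (f i) (g i) := by
  classical
  have := Fintype.ofFinite H
  rw [B_eq]
  simp_rw [B_eq]
  rw [Finset.prod_mul_distrib, Finset.prod_const, Finset.card_univ]
  congr 1
  · rw [Nat.card_eq_fintype_card, Nat.card_eq_fintype_card, Fintype.card_fun]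
    push_cast
    rw [inv_pow]
  · rw [Finset.prod_univ_sum, Fintype.piFinset_univ]
    apply Finset.sum_congr rfl
    intro x _
    rw [← Finset.prod_mul_distrib]
    rfl

lemma isChar_prod (f : I → H → ℂ) (hf : ∀ i, IsChar (f i)) :
    IsChar (fun x : I → H => ∏ i, f i (x i)) := by
  classical
  choose d R hR using fun i => (hf i).exists_matrix
  have h := isChar_matrix (piKronHom (fun i => (R i).comp (Pi.evalMonoidHom (fun _ : I => H) i)))
  have h2 : (fun x : I → H => ∏ i, f i (x i)) = fun g : I → H =>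
      (piKronHom (fun i => (R i).comp (Pi.evalMonoidHom (fun _ : I => H) i)) g).trace := by
    funext x
    change _ = (piKron (fun i => (R i) (x i))).trace
    rw [trace_piKron]
    exact Finset.prod_congr rfl fun i _ => hR i (x i)
  rw [h2]
  exact h

lemma irr_prod (χ : I → Irr H) : (fun x : I → H => ∏ i, (χ i).1 (x i)) ∈ Irr (I → H) := by
  apply IsChar.irr (isChar_prod (fun i => (χ i).1) fun i => IsChar.of_irr (χ i).2)
  rw [B_prod (fun i => (χ i).1) (fun i => (χ i).1)]
  exact Finset.prod_eq_one fun i _ => B_irr_self (χ i).2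

lemma prod_injective (χ χ' : I → Irr H)
    (h : ∀ x : I → H, ∏ i, (χ i).1 (x i) = ∏ i, (χ' i).1 (x i)) : χ = χ' := by
  classical
  have h1 : ∏ i, B (χ i).1 (χ' i).1 = 1 := by
    rw [← B_prod (fun i => (χ i).1) (fun i => (χ' i).1)]
    have h2 : (fun x : I → H => ∏ i, (χ' i).1 (x i)) = fun x : I → H => ∏ i, (χ i).1 (x i) := by
      funext x
      exact (h x).symm
    rw [h2]
    exact B_irr_self (irr_prod χ)
  funext i
  by_contra hne
  have h3 : B (χ i).1 (χ' i).1 = 0 := B_irr_ne (χ i).2 (χ' i).2 fun h4 => hne (Subtype.ext h4)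
  rw [Finset.prod_eq_zero (Finset.mem_univ i) h3] at h1
  exact zero_ne_one h1

lemma prod_surjective (η : (I → H) → ℂ) (hη : η ∈ Irr (I → H)) :
    ∃ χ : I → Irr H, ∀ x, η x = ∏ i, (χ i).1 (x i) := by
  classical
  have := Fintype.ofFinite H
  have := Fintype.ofFinite (Irr H)
  have := Fintype.ofFinite (Irr (I → H))
  let P : (I → Irr H) → Irr (I → H) := fun χ => ⟨_, irr_prod χ⟩
  have hP : Function.Injective P := by
    intro χ χ' h
    apply prod_injective
    intro x
    exact congrFun (congrArg Subtype.val h) x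
  have hdeg : ∀ χ : I → Irr H, deg (P χ).1 = ∏ i, deg (χ i).1 := by
    intro χ
    apply deg_eq
    push_cast
    change ∏ i, (χ i).1 ((1 : I → H) i) = _
    exact Finset.prod_congr rfl fun i _ => (deg_cast (χ i).2).symm
  have hsum : ∑ χ : I → Irr H, (deg (P χ).1) ^ 2 = Nat.card (I → H) := by
    calc ∑ χ : I → Irr H, (deg (P χ).1) ^ 2 = ∑ χ : I → Irr H, ∏ i, (deg (χ i).1) ^ 2 := by
          apply Finset.sum_congr rfl
          intro χ _
          rw [hdeg, Finset.prod_pow]
      _ = ∏ _i : I, ∑ ψ : Irr H, (deg ψ.1) ^ 2 := by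
          rw [Finset.prod_univ_sum, Fintype.piFinset_univ]
      _ = Nat.card (I → H) := by
          rw [Finset.prod_const, Finset.card_univ, sum_deg_sq, Nat.card_eq_fintype_card,
            Nat.card_eq_fintype_card, Fintype.card_fun]
  have hall := sum_deg_sq (G := I → H)
  by_contra hcon
  push Not at hcon
  have hnot : (⟨η, hη⟩ : Irr (I → H)) ∉ Finset.univ.image P := by
    intro h
    obtain ⟨χ, _, hχ⟩ := Finset.mem_image.1 h
    obtain ⟨x, hx⟩ := hcon χ
    exact hx (congrFun (congrArg Subtype.val hχ) x).symm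
  have h1 : ∑ χ : I → Irr H, (deg (P χ).1) ^ 2 = ∑ ψ ∈ Finset.univ.image P, (deg ψ.1) ^ 2 := by
    rw [Finset.sum_image fun a _ b _ hab => hP hab]
  have h2 : ∑ ψ ∈ insert (⟨η, hη⟩ : Irr (I → H)) (Finset.univ.image P), (deg ψ.1) ^ 2 ≤
      ∑ ψ : Irr (I → H), (deg ψ.1) ^ 2 :=
    Finset.sum_le_sum_of_subset (Finset.subset_univ _)
  rw [Finset.sum_insert hnot, ← h1, hsum, hall] at h2
  have h3 : 0 < (deg η) ^ 2 := pow_pos (deg_pos hη) 2
  simp only at h2
  omega

end Pool.Agent.Helper7.MK
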