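import Pool.Agent.Helper7.MK.Defs

/-!
# MK-02: the value at 1 of a function induced along a homomorphism

Proof: `indHom_eq` with `g = 1`: `x⁻¹ * 1 * x = 1`, so the double sum is
`|G| * ∑ γ, if π γ = 1 then F γ else 0`, and `j` is a bijection from `M` onto `π.ker`.
-/

namespace Pool.Agent.Helper7.MK

open Pool.Agent.Helper42.INC

lemma indHom_one {Γ G M : Type} [Group Γ] [Group G] [Group M] [Finite Γ] [Finite G] [Fintype M]
    (π : Γ →* G) (j : M →* Γ) (hj : Function.Injective j) (hk : π.ker = j.range) (F : Γ → ℂ) :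
    indHom π F 1 = (Nat.card G : ℂ) * (Nat.card Γ : ℂ)⁻¹ * ∑ m : M, F (j m) := by
  classical
  have := Fintype.ofFinite Γ
  have := Fintype.ofFinite G
  rw [indHom_eq]
  have h1 : ∀ x : G, ∑ γ : Γ, (if π γ = x⁻¹ * 1 * x then F γ else 0) = ∑ m : M, F (j m) := by
    intro x
    have hx : x⁻¹ * 1 * x = 1 := by group
    rw [hx, ← Finset.sum_filter]
    symm
    apply Finset.sum_bij (fun m _ => j m)
    · intro m _
      rw [Finset.mem_filter]
      refine ⟨Finset.mem_univ _, ?_⟩
      have : j m ∈ π.ker := by rw [hk]; exact ⟨m, rfl⟩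
      exact this
    · intro a _ b _ hab
      exact hj hab
    · intro γ hγ
      rw [Finset.mem_filter] at hγ
      have : γ ∈ j.range := by rw [← hk]; exact hγ.2
      obtain ⟨m, hm⟩ := this
      exact ⟨m, Finset.mem_univ _, hm⟩
    · intro m _
      rfl
  rw [Finset.sum_congr rfl (fun x _ => h1 x), Finset.sum_const, Finset.card_univ,
    Nat.card_eq_fintype_card (α := G), nsmul_eq_mul]
  ring

end Pool.Agent.Helper7.MK
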