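import Pool.Agent.Helper7.MK.Char
import Pool.Agent.Helper7.MK.Push
import Pool.Agent.Helper7.MK.Cliff

/-!
# MK-05: the row identity

Let `N` be a kernel between `(G, K, θ)` and `(L, M, φ)`. For `ψ ∈ Irr L`, `χ ∈ Irr G` put
`a ψ χ = B (κ · ψ∘p2) (χ∘p1)` (forms on `Δ`), `f χ = B (χ∘ι_K) θ`, `e ψ = B (ψ∘ι_M) φ`.
(1) `a ψ χ` is a natural number (`IsChar.mul`, `IsChar.comp`, `IsChar.of_irr`, `IsChar.nat`).
(2) `a ψ χ ≠ 0` implies `f χ ≠ 0`: by `IsChar.comp_ne_zero` along `j1`,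
  `B ((κ·ψ∘p2)∘j1) (χ∘p1∘j1) ≠ 0`; here `κ (j1 k) ψ (p2 (j1 k)) = θ(k) φ(1) ψ(1)` (`κ1`, `p2j1`) and
  `χ (p1 (j1 k)) = χ (ι k)` (`p1j1`), so this is `φ(1) ψ(1) B θ (χ∘ι) = φ(1) ψ(1) f χ` (`B_symm`).
(3) row identity `∑ χ, a ψ χ * f χ = e ψ`. Proof: by `B_indHom`, `a ψ χ = B (indHom p1 F) χ` with
  `F = κ·ψ∘p2`, so by `INC.expand` (`indHom_isClass`) `∑ χ, a ψ χ • χ = indHom p1 F`. At `1`:
  `∑ χ, a ψ χ * χ 1 = |G| / |Δ| * ∑ m : M, κ (j2 m) ψ (p2 (j2 m))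
    = |G| / |Δ| * θ(1) * ∑ m, φ(m⁻¹) ψ(ι m) = |G| / |Δ| * θ(1) * |M| * e ψ`
  (`indHom_one` with `ker1`; `j2` is injective because `p2 ∘ j2 = ι_M` is). And
  `|Δ| = |ker p1| |range p1| = |M| |stabilizer θ|`, so the right hand side is
  `index(stabilizer θ) * θ(1) * e ψ`. On the left `χ 1 = index * θ(1) * f χ` whenever
  `f χ ≠ 0` (`clifford_degree`), and `a ψ χ = 0` if `f χ = 0` by (2). Divide by
  `index * θ(1) ≠ 0` (`irr_one θ.mem`).
-/

namespace Pool.Agent.Helper7.MK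

open Pool.Agent.Helper42.INC

variable {G K L M Δ : Type} [Group G] [Group K] [Group L] [Group M] [Group Δ]
  [Finite G] [Finite K] [Finite L] [Finite M] [Finite Δ]
  {DK : NP K G} {DM : NP M L} {θ : IrrX DK} {φ : IrrX DM}

/-- the entries of the matrix -/
noncomputable def Kernel.a (N : Kernel DK DM θ φ Δ) (ψ : L → ℂ) (χ : G → ℂ) : ℂ :=
  B (fun d => N.κ d * ψ (N.p2 d)) (fun d => χ (N.p1 d))

lemma Kernel.a_nat (N : Kernel DK DM θ φ Δ) {ψ : L → ℂ} {χ : G → ℂ} (hψ : ψ ∈ Irr L)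
    (hχ : χ ∈ Irr G) : ∃ n : ℕ, N.a ψ χ = n := by
  unfold Kernel.a
  exact IsChar.nat (N.char.mul ((IsChar.of_irr hψ).comp N.p2)) ((IsChar.of_irr hχ).comp N.p1)

lemma Kernel.a_ne_zero (N : Kernel DK DM θ φ Δ) {ψ : L → ℂ} {χ : G → ℂ} (hψ : ψ ∈ Irr L)
    (hχ : χ ∈ Irr G) (h : N.a ψ χ ≠ 0) : B (fun k => χ (DK.ι k)) θ.chi ≠ 0 := by
  unfold Kernel.a at h
  have h1 := IsChar.comp_ne_zero (N.char.mul ((IsChar.of_irr hψ).comp N.p2))
    ((IsChar.of_irr hχ).comp N.p1) N.j1 h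
  have h2 : (fun k => N.κ (N.j1 k) * ψ (N.p2 (N.j1 k))) = (φ.chi 1 * ψ 1) • θ.chi := by
    funext k
    rw [N.κ1, N.p2j1, Pi.smul_apply, smul_eq_mul]
    ring
  have h3 : (fun k => χ (N.p1 (N.j1 k))) = fun k => χ (DK.ι k) := by
    funext k
    rw [N.p1j1]
  intro h0
  apply h1
  rw [h2, h3, B_smul_left, B_symm, h0, mul_zero]

omit [Finite Δ] in
lemma Kernel.j2_inj (N : Kernel DK DM θ φ Δ) : Function.Injective N.j2 := by
  intro m m' h
  apply DM.inj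
  rw [← N.p2j2, ← N.p2j2, h]

lemma Kernel.card_delta (N : Kernel DK DM θ φ Δ) :
    Nat.card Δ = Nat.card (MulAction.stabilizer G θ) * Nat.card M := by
  have h1 := Subgroup.card_eq_card_quotient_mul_card_subgroup N.p1.ker
  have h2 : Nat.card (Δ ⧸ N.p1.ker) = Nat.card (MulAction.stabilizer G θ) := by
    rw [Nat.card_congr (QuotientGroup.quotientKerEquivRange N.p1).toEquiv, N.range1]
  have h3 : Nat.card N.p1.ker = Nat.card M := by
    rw [N.ker1]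
    exact (Nat.card_congr (MonoidHom.ofInjective N.j2_inj).toEquiv).symm
  rw [h1, h2, h3]

lemma Kernel.row (N : Kernel DK DM θ φ Δ) [Fintype (Irr G)] {ψ : L → ℂ} (hψ : ψ ∈ Irr L) :
    ∑ χ : Irr G, N.a ψ χ.1 * B (fun k => χ.1 (DK.ι k)) θ.chi = B (fun m => ψ (DM.ι m)) φ.chi := by
  classical
  have := Fintype.ofFinite M
  set F : Δ → ℂ := fun d => N.κ d * ψ (N.p2 d) with hF
  have hexp := expand (indHom N.p1 F) (indHom_isClass N.p1 F)
  have h1 : indHom N.p1 F 1 = ∑ χ : Irr G, N.a ψ χ.1 * χ.1 1 := by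
    have h := congrFun hexp 1
    rw [Finset.sum_apply] at h
    rw [h]
    apply Finset.sum_congr rfl
    intro χ _
    rw [Pi.smul_apply, smul_eq_mul, B_indHom N.p1 F (Irr.isClass χ.2)]
    rfl
  have h2 := indHom_one N.p1 N.j2 N.j2_inj N.ker1 F
  have h3 : ∑ m : M, F (N.j2 m) = θ.chi 1 * ((Nat.card M : ℂ) * B (fun m => ψ (DM.ι m)) φ.chi) := by
    rw [B_eq, ← mul_assoc (Nat.card M : ℂ), mul_inv_cancel₀ (by exact_mod_cast Nat.card_pos.ne'),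
      one_mul, Finset.mul_sum]
    apply Finset.sum_congr rfl
    intro m _
    rw [hF]
    simp only
    rw [N.κ2, N.p2j2]
    ring
  have hM0 : (Nat.card M : ℂ) ≠ 0 := by exact_mod_cast Nat.card_pos.ne'
  have hS0 : (Nat.card (MulAction.stabilizer G θ) : ℂ) ≠ 0 := by exact_mod_cast Nat.card_pos.ne'
  have hi0 : ((MulAction.stabilizer G θ).index : ℂ) ≠ 0 := by
    exact_mod_cast Subgroup.index_ne_zero_of_finite
  have hθ0 : θ.chi 1 ≠ 0 := by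
    obtain ⟨n, hn, hn'⟩ := irr_one θ.mem
    rw [hn']; exact_mod_cast hn.ne'
  have hG : (Nat.card G : ℂ) = ((MulAction.stabilizer G θ).index : ℂ) *
      (Nat.card (MulAction.stabilizer G θ) : ℂ) := by
    rw [← Subgroup.index_mul_card (MulAction.stabilizer G θ)]; push_cast; ring
  have hD : (Nat.card Δ : ℂ) = (Nat.card (MulAction.stabilizer G θ) : ℂ) * (Nat.card M : ℂ) := by
    rw [N.card_delta]; push_cast; ring
  have h4 : indHom N.p1 F 1 = ((MulAction.stabilizer G θ).index : ℂ) * θ.chi 1 *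
      B (fun m => ψ (DM.ι m)) φ.chi := by
    rw [h2, h3, hG, hD]
    field_simp
  have h5 : ∑ χ : Irr G, N.a ψ χ.1 * χ.1 1 = ((MulAction.stabilizer G θ).index : ℂ) * θ.chi 1 *
      ∑ χ : Irr G, N.a ψ χ.1 * B (fun k => χ.1 (DK.ι k)) θ.chi := by
    rw [Finset.mul_sum]
    apply Finset.sum_congr rfl
    intro χ _
    by_cases h0 : N.a ψ χ.1 = 0
    · rw [h0]; ring
    · rw [clifford_degree DK θ χ.2 (N.a_ne_zero hψ χ.2 h0)]
      ring
  rw [h1, h5] at h4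
  exact mul_left_cancel₀ (mul_ne_zero hi0 hθ0) h4

end Pool.Agent.Helper7.MK
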