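import Pool.Agent.Helper7.MK.CompDefs

/-!
# MK-29: Sylow subgroups of subnormal subgroups; subgroups containing a Sylow normalizer

* `sylow_inter_normal`: for `A` normal in `B` and a Sylow subgroup `P` of `B` the group
  `P.subgroupOf A` is a `p`-group of index prime to `p` in `A`: `|A : A ∩ P| = |P A : P|` divides
  `|B : P|`. (Mathlib may have it: search `Sylow`, `Normal`, `inf`/`subgroupOf`/`comap`.)
* `exists_sylow_inter`: apply it to `K` in `G` and to `S` in `K` (`S` is normal in `K` by `hn`).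
* `self_normalizing`: let `x` normalize `T ≥ N(Q)`. `x Q x⁻¹` and `Q` are Sylow subgroups of `T`, so
  there is `t ∈ T` with `t x Q x⁻¹ t⁻¹ = Q`, so `t x ∈ N(Q) ≤ T` and `x ∈ T`.
* `frattini_inter`: `K ⊔ N_G(P ⊓ K) = ⊤` (`Sylow.normalizer_sup_eq_top`).
* `normalizer_inter_le`: `N_G(P) ≤ N_G(P ⊓ K)`.
-/

namespace Pool.Agent.Helper7.MK

variable {G : Type} [Group G] [Finite G] {p : ℕ} [Fact p.Prime]

lemma sylow_inter_normal (P : Sylow p G) (A : Subgroup G) [A.Normal] :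
    ∃ Q : Sylow p A, ∀ x : A, x ∈ Q ↔ (x : G) ∈ P := by
  obtain ⟨Q0⟩ : Nonempty (Sylow p A) := inferInstance
  obtain ⟨P', hP'⟩ := Sylow.exists_comap_subtype_eq Q0
  obtain ⟨g, hg⟩ := MulAction.exists_smul_eq G P' P
  refine ⟨Q0.mapSurjective (f := (MulAut.conjNormal g : MulAut A).toMonoidHom)
    (MulAut.conjNormal g : MulAut A).surjective, fun x => ?_⟩
  have h1 : ∀ y : A, y ∈ Q0 ↔ (y : G) ∈ P' := by
    intro y
    change y ∈ (Q0 : Subgroup A) ↔ _
    rw [← hP']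
    rfl
  have h2 : (x : G) ∈ P ↔ g⁻¹ * (x : G) * g ∈ P' := by
    rw [← hg]
    change (x : G) ∈ ((g • P' : Sylow p G) : Subgroup G) ↔ _
    rw [Sylow.smul_def, Sylow.pointwise_smul_def, Subgroup.mem_pointwise_smul_iff_inv_smul_mem]
    have : (MulAut.conj g)⁻¹ • (x : G) = g⁻¹ * (x : G) * g := by
      rw [← map_inv]
      change g⁻¹ * (x : G) * g⁻¹⁻¹ = _
      rw [inv_inv]
    rw [this]
    rfl
  rw [h2]
  change x ∈ ((Q0.mapSurjective (f := (MulAut.conjNormal g : MulAut A).toMonoidHom)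
    (MulAut.conjNormal g : MulAut A).surjective : Sylow p A) : Subgroup A) ↔ _
  rw [Sylow.coe_mapSurjective, Subgroup.mem_map]
  constructor
  · rintro ⟨y, hy, rfl⟩
    have h3 : g⁻¹ * (((MulAut.conjNormal g : MulAut A).toMonoidHom y : A) : G) * g = y := by
      change g⁻¹ * ((MulAut.conjNormal g y : A) : G) * g = y
      rw [MulAut.conjNormal_apply]
      group
    rw [h3]
    exact (h1 y).1 hy
  · intro hx
    have hmem : g⁻¹ * (x : G) * g ∈ A := by
      simpa using Subgroup.Normal.conj_mem (inferInstance : A.Normal) _ x.2 g⁻¹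
    refine ⟨⟨_, hmem⟩, (h1 _).2 hx, ?_⟩
    apply Subtype.ext
    change ((MulAut.conjNormal g (⟨g⁻¹ * (x : G) * g, hmem⟩ : A) : A) : G) = x
    rw [MulAut.conjNormal_apply]
    change g * (g⁻¹ * (x : G) * g) * g⁻¹ = x
    group

lemma exists_sylow_inter (P : Sylow p G) (K S : Subgroup G) [K.Normal] (hSK : S ≤ K)
    (hn : ∀ k ∈ K, cj k S = S) : ∃ Q : Sylow p S, ∀ x : S, x ∈ Q ↔ (x : G) ∈ P := by
  obtain ⟨Q1, hQ1⟩ := sylow_inter_normal P K
  have hN : (S.subgroupOf K).Normal := by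
    refine ⟨fun x hx k => ?_⟩
    rw [Subgroup.mem_subgroupOf] at hx ⊢
    have h1 := hn k k.2
    rw [← h1, mem_cj]
    have h2 : (k : G)⁻¹ * ((k * x * k⁻¹ : K) : G) * (k : G) = x := by
      push_cast
      group
    rw [h2]
    exact hx
  obtain ⟨Q2, hQ2⟩ := sylow_inter_normal Q1 (S.subgroupOf K)
  refine ⟨Q2.mapSurjective (f := (Subgroup.subgroupOfEquivOfLe hSK).toMonoidHom)
    (Subgroup.subgroupOfEquivOfLe hSK).surjective, fun x => ?_⟩
  change x ∈ ((Q2.mapSurjective (f := (Subgroup.subgroupOfEquivOfLe hSK).toMonoidHom)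
    (Subgroup.subgroupOfEquivOfLe hSK).surjective : Sylow p S) : Subgroup S) ↔ _
  rw [Sylow.coe_mapSurjective, Subgroup.mem_map]
  constructor
  · rintro ⟨y, hy, rfl⟩
    exact (hQ1 _).1 ((hQ2 y).1 hy)
  · intro hx
    refine ⟨⟨⟨x, hSK x.2⟩, x.2⟩, (hQ2 _).2 ((hQ1 _).2 hx), rfl⟩

lemma self_normalizing {K0 : Type} [Group K0] [Finite K0] (Q : Sylow p K0) (T : Subgroup K0)
    (h : Subgroup.normalizer (Q : Set K0) ≤ T) (x : K0)
    (hx : ∀ y, x * y * x⁻¹ ∈ T ↔ y ∈ T) : x ∈ T := by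
  have hQN : (Q : Subgroup K0) ≤ Subgroup.normalizer (Q : Set K0) :=
    Subgroup.le_normalizer (H := (Q : Subgroup K0))
  have hQT : (Q : Subgroup K0) ≤ T := hQN.trans h
  have hxQT : ((x • Q : Sylow p K0) : Subgroup K0) ≤ T := by
    intro y hy
    rw [Sylow.smul_def, Sylow.pointwise_smul_def,
      Subgroup.mem_pointwise_smul_iff_inv_smul_mem] at hy
    have h1 : (MulAut.conj x)⁻¹ • y = x⁻¹ * y * x := by
      rw [← map_inv]
      change x⁻¹ * y * x⁻¹⁻¹ = _
      rw [inv_inv]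
    rw [h1] at hy
    have h2 := (hx _).2 (hQT hy)
    have h3 : x * (x⁻¹ * y * x) * x⁻¹ = y := by group
    rwa [h3] at h2
  obtain ⟨t, ht⟩ := MulAction.exists_smul_eq T ((x • Q).subtype hxQT) (Q.subtype hQT)
  rw [Sylow.smul_subtype] at ht
  have h4 := Sylow.subtype_injective ht
  have h5 : ((t : K0) * x) • Q = Q := by
    rw [mul_smul]
    exact h4
  rw [Sylow.smul_eq_iff_mem_normalizer] at h5
  have h6 := h h5
  have h7 : x = (t : K0)⁻¹ * ((t : K0) * x) := by group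
  rw [h7]
  exact T.mul_mem (T.inv_mem t.2) h6

lemma frattini_inter (P : Sylow p G) (K : Subgroup G) [K.Normal] :
    K ⊔ Subgroup.normalizer (((P : Subgroup G) ⊓ K : Subgroup G) : Set G) = ⊤ := by
  obtain ⟨Q, hQ⟩ := sylow_inter_normal P K
  have h1 := Sylow.normalizer_sup_eq_top Q
  have h2 : (Q : Subgroup K).map K.subtype = (P : Subgroup G) ⊓ K := by
    ext x
    rw [Subgroup.mem_map, Subgroup.mem_inf]
    constructor
    · rintro ⟨y, hy, rfl⟩
      exact ⟨(hQ y).1 hy, y.2⟩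
    · rintro ⟨h3, h4⟩
      exact ⟨⟨x, h4⟩, (hQ _).2 h3, rfl⟩
  rw [h2, sup_comm] at h1
  exact h1

lemma normalizer_inter_le (P : Sylow p G) (K : Subgroup G) [K.Normal] :
    Subgroup.normalizer (P : Set G) ≤
      Subgroup.normalizer (((P : Subgroup G) ⊓ K : Subgroup G) : Set G) := by
  intro x hx
  have hx' : x ∈ Subgroup.normalizer ((P : Subgroup G) : Set G) := hx
  rw [Subgroup.mem_normalizer_iff] at hx' ⊢
  intro y
  rw [Subgroup.mem_inf, Subgroup.mem_inf, hx' y]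
  have h1 : y ∈ K ↔ x * y * x⁻¹ ∈ K := by
    constructor
    · intro h
      exact Subgroup.Normal.conj_mem inferInstance _ h _
    · intro h
      have h2 := Subgroup.Normal.conj_mem (inferInstance : K.Normal) _ h x⁻¹
      have h3 : x⁻¹ * (x * y * x⁻¹) * x⁻¹⁻¹ = y := by group
      rwa [h3] at h2
  rw [h1]

end Pool.Agent.Helper7.MK
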