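import Pool.Agent.Helper7.MK.PSMain
import Pool.Agent.Helper7.MK.MkPS
import Pool.Agent.Helper7.MK.SylS

/-!
# MK-30: the comparison for a component which is good

Proof. `Q = P ⊓ K`, `N = N_G(Q)`, `K ⊔ N = ⊤` (`frattini_inter`). `Q0 : Sylow p S` from
`exists_sylow_inter` (`x ∈ Q0 ↔ x ∈ P`, equivalently `x ∈ Q` as `S ≤ K`). `hgood Q0` gives `T0`,
`h1 : normalizer Q0 ≤ T0`, `T0 ≠ ⊤`, `h3` and `F0` with `hE0, hD0, hM0`. `exists_PS K S N` gives `P'`
and `rep` (with `Fintype.ofFinite`). Put `L = P'.L T0`.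
`N ≤ L`: for `n ∈ N` and `i`, `m = (rep (n•i))⁻¹ * n * rep i` lies in `N` and in `N_G(S)`, hence it
normalizes `Q ⊓ S`; so `P'.α n i` (conjugation with `m`) satisfies `α x ∈ Q0 ↔ x ∈ Q0`, so `h3` gives
`α x ∈ T0 ↔ x ∈ T0`. `N_G(P) ≤ N ≤ L` (`normalizer_inter_le`).
`P'.K ⊔ L = ⊤` as `P'.K = K`, `N ≤ L`. `hT` is `self_normalizing Q0 T0 h1`. `center S ≤ T0`:
central elements normalize `Q0`. `L ≠ ⊤`: otherwise for every `x : S` the element
`P'.μ (Pi.mulSingle i x)` (`i` = the coset of 1) is in `L`, so `x ∈ T0` by `PS.μ_mem_L`; contradiction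
to `T0 ≠ ⊤`. Finally `PS.main`.
-/

namespace Pool.Agent.Helper7.MK

open Pool.Agent.Helper42.INC

theorem comp_step {G : Type} [Group G] [Finite G] {p : ℕ} [Fact p.Prime] (K S : Subgroup G)
    [K.Normal] (h : Comp K S) (hgood : Good p S) (P : Sylow p G) :
    ∃ L : Subgroup G, L ≠ ⊤ ∧ Subgroup.normalizer (P : Set G) ≤ L ∧
      ∀ s : ZMod p, s ≠ 0 → cnt p G s = cnt p L s := by
  classical
  have hN := frattini_inter P K
  obtain ⟨Q0, hQ0⟩ := exists_sylow_inter P K S h.le h.norm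
  obtain ⟨T0, h1, h2, h3, F0, hE0, hD0, hM0⟩ := hgood Q0
  have : Fintype (G ⧸ Subgroup.normalizer (S : Set G)) := Fintype.ofFinite _
  obtain ⟨P', rep, hr, hκ, hm, hα, hK⟩ := exists_PS K S _ h hN
  have hT := self_normalizing Q0 T0 h1
  have hNL : Subgroup.normalizer (((P : Subgroup G) ⊓ K : Subgroup G) : Set G) ≤ P'.L T0 := by
    intro n hn i x
    apply h3
    intro y
    have hmN : (rep (n • i))⁻¹ * n * rep i ∈
        Subgroup.normalizer (((P : Subgroup G) ⊓ K : Subgroup G) : Set G) :=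
      Subgroup.mul_mem _ (Subgroup.mul_mem _ (Subgroup.inv_mem _ (hr _)) hn) (hr _)
    have h4 := Subgroup.mem_normalizer_iff.1 hmN (y : G)
    rw [← hα] at h4
    have hyK : (y : G) ∈ K := h.le y.2
    have hyK' : ((P'.α n i y : S) : G) ∈ K := h.le (P'.α n i y).2
    rw [hQ0, hQ0]
    constructor
    · intro h5
      exact (h4.2 ⟨h5, hyK'⟩).1
    · intro h5
      exact (h4.1 ⟨h5, hyK⟩).1
  have hKL : P'.K ⊔ P'.L T0 = ⊤ := by
    rw [eq_top_iff, ← hN]
    exact sup_le_sup hK.ge hNL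
  have hZ : Subgroup.center S ≤ T0 := by
    intro z hz
    apply h1
    refine Subgroup.mem_normalizer_iff.2 fun y => ?_
    have h4 := Subgroup.mem_center_iff.1 hz y
    have h5 : z * y * z⁻¹ = y := by rw [← h4, mul_inv_cancel_right]
    rw [h5]
  refine ⟨P'.L T0, ?_, (normalizer_inter_le P K).trans hNL, fun s hs =>
    P'.main T0 hT hZ hKL F0 hE0 hD0 hM0 s hs⟩
  intro htop
  apply h2
  rw [eq_top_iff]
  intro x _
  have h4 : P'.μ (Pi.mulSingle ((1 : G) : G ⧸ Subgroup.normalizer (S : Set G)) x) ∈ P'.L T0 := by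
    rw [htop]
    trivial
  have h5 := (P'.μ_mem_L T0 hT _).1 h4 ((1 : G) : G ⧸ Subgroup.normalizer (S : Set G))
  rwa [Pi.mulSingle_eq_same] at h5

end Pool.Agent.Helper7.MK
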