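import Pool.Agent.Helper7.MK.Kron

/-!
# MK-17: tensor induction of a matrix valued cocycle

`(tInd c u) f g = ∏ ω, c u ω (f (u • ω)) (g ω)`.
* `tInd_mul`: `(tInd c u * tInd c v) f h = ∑ g, (∏ ω, c u ω (f (u•ω)) (g ω)) (∏ ω, c v ω (g (v•ω)) (h ω))`.
  Reindex the first product by `ω ↦ v • ω` (`Equiv.prod_comp (MulAction.toPerm v)`):
  `∑ g, ∏ ω, c u (v•ω) (f (u•v•ω)) (g (v•ω)) * c v ω (g (v•ω)) (h ω)`; the map `g ↦ g ∘ (v • ·)`
  is a permutation of `Ω → n` (`Equiv.arrowCongr`/`Equiv.sum_comp`), so this is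
  `∑ g', ∏ ω, c u (v•ω) (f (u•v•ω)) (g' ω) * c v ω (g' ω) (h ω) = ∏ ω, ∑ j, ...`
  `= ∏ ω, (c u (v•ω) * c v ω) (f ((u*v)•ω)) (h ω)` (`Finset.prod_univ_sum`, `mul_smul`).
* `tInd_piKron`: `(tInd c u * piKron A) f h = ∏ ω, (c u ω * A ω) (f (u•ω)) (h ω)` and
  `(piKron B * tInd c u) f h = ∏ ω, (B (u•ω) * c u ω) (f (u•ω)) (h ω)` in the same way.
-/

namespace Pool.Agent.Helper7.MK

variable {U Ω n : Type} [Group U] [MulAction U Ω] [Fintype Ω] [DecidableEq Ω] [Fintype n]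
  [DecidableEq n]

/-- tensor induction -/
def tInd (c : U → Ω → Matrix n n ℂ) (u : U) : Matrix (Ω → n) (Ω → n) ℂ :=
  fun f g => ∏ ω, c u ω (f (u • ω)) (g ω)

omit [DecidableEq n] in
private lemma sum_reindex (v : U) (F : (Ω → n) → ℂ) :
    ∑ g : Ω → n, F g = ∑ g : Ω → n, F (fun ω => g (v • ω)) := by
  let e : (Ω → n) ≃ (Ω → n) :=
    { toFun := fun g ω => g (v • ω)
      invFun := fun g ω => g (v⁻¹ • ω)
      left_inv := fun g => by
        funext ω
        change g (v • v⁻¹ • ω) = g ω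
        rw [smul_inv_smul]
      right_inv := fun g => by
        funext ω
        change g (v⁻¹ • v • ω) = g ω
        rw [inv_smul_smul] }
  exact (Equiv.sum_comp e F).symm

lemma tInd_mul (c : U → Ω → Matrix n n ℂ) (hc : ∀ u v ω, c (u * v) ω = c u (v • ω) * c v ω)
    (u v : U) : tInd c (u * v) = tInd c u * tInd c v := by
  ext f h
  rw [Matrix.mul_apply]
  simp only [tInd]
  calc ∏ ω, c (u * v) ω (f ((u * v) • ω)) (h ω)
      = ∏ ω, ∑ j, c u (v • ω) (f (u • v • ω)) j * c v ω j (h ω) := by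
        refine Finset.prod_congr rfl fun ω _ => ?_
        rw [hc, mul_smul, Matrix.mul_apply]
    _ = ∑ g : Ω → n, ∏ ω, c u (v • ω) (f (u • v • ω)) (g ω) * c v ω (g ω) (h ω) := by
        rw [Finset.prod_univ_sum, Fintype.piFinset_univ]
    _ = ∑ g : Ω → n, ∏ ω, c u (v • ω) (f (u • v • ω)) (g (v • ω)) * c v ω (g (v • ω)) (h ω) :=
        sum_reindex v (fun g => ∏ ω, c u (v • ω) (f (u • v • ω)) (g ω) * c v ω (g ω) (h ω))
    _ = ∑ g : Ω → n, (∏ ω, c u ω (f (u • ω)) (g ω)) * ∏ ω, c v ω (g (v • ω)) (h ω) := by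
        refine Finset.sum_congr rfl fun g _ => ?_
        rw [Finset.prod_mul_distrib]
        congr 1
        exact Equiv.prod_comp (MulAction.toPerm v) (fun ω => c u ω (f (u • ω)) (g ω))

lemma tInd_triv (c : U → Ω → Matrix n n ℂ) (u : U) (h : ∀ ω : Ω, u • ω = ω) :
    tInd c u = piKron (c u) := by
  ext f g
  simp only [tInd, piKron, h]

lemma tInd_piKron (c : U → Ω → Matrix n n ℂ) (u : U) (A B : Ω → Matrix n n ℂ)
    (h : ∀ ω, c u ω * A ω = B (u • ω) * c u ω) :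
    tInd c u * piKron A = piKron B * tInd c u := by
  ext f k
  rw [Matrix.mul_apply, Matrix.mul_apply]
  simp only [tInd, piKron]
  calc ∑ g : Ω → n, (∏ ω, c u ω (f (u • ω)) (g ω)) * ∏ ω, A ω (g ω) (k ω)
      = ∑ g : Ω → n, ∏ ω, c u ω (f (u • ω)) (g ω) * A ω (g ω) (k ω) := by
        refine Finset.sum_congr rfl fun g _ => ?_
        rw [Finset.prod_mul_distrib]
    _ = ∏ ω, ∑ j, c u ω (f (u • ω)) j * A ω j (k ω) := by
        rw [Finset.prod_univ_sum, Fintype.piFinset_univ]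
    _ = ∏ ω, ∑ j, B (u • ω) (f (u • ω)) j * c u ω j (k ω) := by
        refine Finset.prod_congr rfl fun ω _ => ?_
        rw [← Matrix.mul_apply, ← Matrix.mul_apply, h]
    _ = ∑ g : Ω → n, ∏ ω, B (u • ω) (f (u • ω)) (g ω) * c u ω (g ω) (k ω) := by
        rw [Finset.prod_univ_sum, Fintype.piFinset_univ]
    _ = ∑ g : Ω → n, ∏ ω, B (u • ω) (f (u • ω)) (g (u • ω)) * c u ω (g (u • ω)) (k ω) :=
        sum_reindex u (fun g => ∏ ω, B (u • ω) (f (u • ω)) (g ω) * c u ω (g ω) (k ω))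
    _ = ∑ g : Ω → n, (∏ ω, B ω (f ω) (g ω)) * ∏ ω, c u ω (g (u • ω)) (k ω) := by
        refine Finset.sum_congr rfl fun g _ => ?_
        rw [Finset.prod_mul_distrib]
        congr 1
        exact Equiv.prod_comp (MulAction.toPerm u) (fun ω => B ω (f ω) (g ω))

end Pool.Agent.Helper7.MK
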